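import Pool.Agent.P.MP_99daa8_nt.LocalEq
import Pool.Agent.P.MP_99daa8_nt.Tree

/-!
Local equidistribution on sets whose rows and columns are intervals.
-/

namespace Pool.Agent.P.MP_99daa8_nt.SI

open scoped MatrixGroups
open Finset Filter Topology

/-- The square `[1, Q]²`. -/
def box (Q : ℕ) : Finset (ℕ × ℕ) := Icc 1 Q ×ˢ Icc 1 Q

theorem mem_box {Q : ℕ} {v : ℕ × ℕ} : v ∈ box Q ↔ (1 ≤ v.1 ∧ v.1 ≤ Q) ∧ 1 ≤ v.2 ∧ v.2 ≤ Q := by
  simp only [box, mem_product, mem_Icc]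

theorem card_box (Q : ℕ) : (box Q).card = Q ^ 2 := by simp [box, sq]

/-- Rows and columns of the set are intervals. -/
def OC (K : Finset (ℕ × ℕ)) : Prop :=
  (∀ x₁ x x₂ y, (x₁, y) ∈ K → (x₂, y) ∈ K → x₁ ≤ x → x ≤ x₂ → (x, y) ∈ K) ∧
  (∀ x y₁ y y₂, (x, y₁) ∈ K → (x, y₂) ∈ K → y₁ ≤ y → y ≤ y₂ → (x, y) ∈ K)

theorem line_card {Q ρ : ℕ} (hρ : 0 < ρ) (E : Finset (ℕ × ℕ)) (f g : ℕ × ℕ → ℕ)
    (hext : ∀ v w, f v = f w → g v = g w → v = w) (hg : ∀ v ∈ E, g v ∈ Icc 1 Q)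
    (h : ∀ v ∈ E, ∀ w ∈ E, g v = g w → f w < f v + ρ) : E.card ≤ ρ * Q := by
  have h1 : (range ρ ×ˢ Icc 1 Q).card = ρ * Q := by simp
  rw [← h1]
  refine card_le_card_of_injOn (fun v => (f v % ρ, g v)) (fun v hv => ?_) fun v hv w hw e => ?_
  · exact mem_coe.2 (mem_product.2 ⟨mem_range.2 (Nat.mod_lt _ hρ), hg v hv⟩)
  · obtain ⟨e1, e2⟩ := Prod.mk.inj e
    refine hext v w ?_ e2
    have a1 := h v hv w hw e2
    have a2 := h w hw v hv e2.symm
    rcases le_total (f v) (f w) with h3 | h3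
    · have := Nat.eq_zero_of_dvd_of_lt ((Nat.modEq_iff_dvd' h3).1 e1) (by omega)
      omega
    · have := Nat.eq_zero_of_dvd_of_lt ((Nat.modEq_iff_dvd' h3).1 e1.symm) (by omega)
      omega

open Classical in
/-- Points of `K` at distance at most `ρ` from the complement. -/
noncomputable def shallow (K : Finset (ℕ × ℕ)) (ρ : ℕ) : Finset (ℕ × ℕ) :=
  K.filter fun v => ∃ w : ℕ × ℕ, w ∉ K ∧ w.1 ≤ v.1 + ρ ∧ v.1 ≤ w.1 + ρ ∧ w.2 ≤ v.2 + ρ ∧
    v.2 ≤ w.2 + ρ

theorem card_shallow {Q ρ : ℕ} (hρ : 0 < ρ) {K : Finset (ℕ × ℕ)} (hK : K ⊆ box Q) (hoc : OC K) :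
    (shallow K ρ).card ≤ 6 * (ρ * Q) := by
  classical
  set E1 := K.filter fun v => (v.1 + ρ, v.2) ∉ K with hE1
  set E2 := K.filter fun v => v.1 < ρ ∨ (v.1 - ρ, v.2) ∉ K with hE2
  set E3 := K.filter fun v => (v.1, v.2 + ρ) ∉ K with hE3
  set E4 := K.filter fun v => v.2 < ρ ∨ (v.1, v.2 - ρ) ∉ K with hE4
  have hb1 : ∀ v ∈ K, v.1 ∈ Icc 1 Q := fun v hv => mem_Icc.2 (mem_box.1 (hK hv)).1
  have hb2 : ∀ v ∈ K, v.2 ∈ Icc 1 Q := fun v hv => mem_Icc.2 (mem_box.1 (hK hv)).2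
  have c1 : E1.card ≤ ρ * Q := by
    refine line_card hρ E1 Prod.fst Prod.snd (fun v w => Prod.ext)
      (fun v hv => hb2 v (mem_filter.1 hv).1) ?_
    rintro ⟨x, y⟩ hv ⟨x', y'⟩ hw rfl
    by_contra h
    exact (mem_filter.1 hv).2 (hoc.1 x _ x' _ (mem_filter.1 hv).1 (mem_filter.1 hw).1
      (Nat.le_add_right _ _) (not_lt.1 h))
  have c2 : E2.card ≤ ρ * Q := by
    refine line_card hρ E2 Prod.fst Prod.snd (fun v w => Prod.ext)
      (fun v hv => hb2 v (mem_filter.1 hv).1) ?_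
    rintro ⟨x, y⟩ hv ⟨x', y'⟩ hw rfl
    by_contra h
    simp only at h
    rcases (mem_filter.1 hw).2 with h2 | h2
    · simp only at h2
      omega
    · exact h2 (hoc.1 x _ x' _ (mem_filter.1 hv).1 (mem_filter.1 hw).1 (by simp only; omega)
        (Nat.sub_le _ _))
  have c3 : E3.card ≤ ρ * Q := by
    refine line_card hρ E3 Prod.snd Prod.fst (fun v w h1 h2 => Prod.ext h2 h1)
      (fun v hv => hb1 v (mem_filter.1 hv).1) ?_
    rintro ⟨x, y⟩ hv ⟨x', y'⟩ hw rfl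
    by_contra h
    exact (mem_filter.1 hv).2 (hoc.2 _ y _ y' (mem_filter.1 hv).1 (mem_filter.1 hw).1
      (Nat.le_add_right _ _) (not_lt.1 h))
  have c4 : E4.card ≤ ρ * Q := by
    refine line_card hρ E4 Prod.snd Prod.fst (fun v w h1 h2 => Prod.ext h2 h1)
      (fun v hv => hb1 v (mem_filter.1 hv).1) ?_
    rintro ⟨x, y⟩ hv ⟨x', y'⟩ hw rfl
    by_contra h
    simp only at h
    rcases (mem_filter.1 hw).2 with h2 | h2
    · simp only at h2
      omega
    · exact h2 (hoc.2 _ y _ y' (mem_filter.1 hv).1 (mem_filter.1 hw).1 (by simp only; omega)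
        (Nat.sub_le _ _))
  have c5 : (E3 ∪ E4).card ≤ 2 * (ρ * Q) := (card_union_le _ _).trans (by omega)
  have hsub : shallow K ρ ⊆ (E1 ∪ E2) ∪ (((E3 ∪ E4).image fun v => (v.1 - ρ, v.2)) ∪
      (E3 ∪ E4).image fun v => (v.1 + ρ, v.2)) := by
    rintro ⟨x, y⟩ hv
    obtain ⟨hvK, ⟨x', y'⟩, hw, w1, w2, w3, w4⟩ := mem_filter.1 hv
    simp only at w1 w2 w3 w4
    by_contra hcon
    simp only [mem_union, not_or, mem_image, not_exists, not_and] at hcon
    obtain ⟨⟨n1, n2⟩, n3, n4⟩ := hcon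
    have a1 : (x + ρ, y) ∈ K := by
      by_contra h
      exact n1 (mem_filter.2 ⟨hvK, h⟩)
    have a2 : ρ ≤ x ∧ (x - ρ, y) ∈ K := by
      by_contra h
      refine n2 (mem_filter.2 ⟨hvK, ?_⟩)
      rcases not_and_or.1 h with h | h
      · exact Or.inl (not_le.1 h)
      · exact Or.inr h
    have col : ∀ z, (z, y) ∈ K → ¬ ((z, y) ∈ E3 ∨ (z, y) ∈ E4) → (z, y') ∈ K := by
      intro z hz h
      obtain ⟨h3, h4⟩ := not_or.1 h
      have b1 : (z, y + ρ) ∈ K := by
        by_contra h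
        exact h3 (mem_filter.2 ⟨hz, h⟩)
      have b2 : (z, y - ρ) ∈ K := by
        by_contra h
        exact h4 (mem_filter.2 ⟨hz, Or.inr h⟩)
      exact hoc.2 z _ y' _ b2 b1 (by omega) w3
    have a3 := col _ a1 fun h => n3 _ h (by simp)
    have a4 := col _ a2.2 fun h => n4 _ h (by simp only [Nat.sub_add_cancel a2.1])
    exact hw (hoc.1 _ x' _ _ a4 a3 (by omega) w1)
  have c6 := card_le_card hsub
  have c7 := card_union_le (E1 ∪ E2) (((E3 ∪ E4).image fun v => (v.1 - ρ, v.2)) ∪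
      (E3 ∪ E4).image fun v => (v.1 + ρ, v.2))
  have c8 := card_union_le E1 E2
  have c9 := card_union_le ((E3 ∪ E4).image fun v : ℕ × ℕ => (v.1 - ρ, v.2))
    ((E3 ∪ E4).image fun v : ℕ × ℕ => (v.1 + ρ, v.2))
  have c10 := card_image_le (s := E3 ∪ E4) (f := fun v : ℕ × ℕ => (v.1 - ρ, v.2))
  have c11 := card_image_le (s := E3 ∪ E4) (f := fun v : ℕ × ℕ => (v.1 + ρ, v.2))
  omega

theorem tree_pts {ι : Type} [Fintype ι] {g : ι → SL(2, ℤ)} {c d : ι → ℕ}
    (h : ∀ (s : ℤ × ℤ → ℂ) (M : ℕ), segSum s 1 1 1 M = ∑ i, segSum s (g i) (c i) (d i) M)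
    (i : ι) {M : ℕ} {v : ℕ × ℕ} (hv : v ∈ seg (c i) (d i) M) :
    0 < (act (g i) (v.1, v.2)).1 ∧ 0 ≤ (act (g i) (v.1, v.2)).2 ∧
      (act (g i) (v.1, v.2)).1 + (act (g i) (v.1, v.2)).2 = M := by
  classical
  set s : ℤ × ℤ → ℂ := fun w => if 0 < w.1 ∧ 0 ≤ w.2 ∧ w.1 + w.2 = M then 0 else 1 with hs
  have h0 : segSum s 1 1 1 M = 0 := by
    refine sum_eq_zero fun w hw => ?_
    rw [mem_seg one_pos one_pos] at hw
    rw [act_one]
    refine if_pos ⟨?_, ?_, ?_⟩ <;> simp only <;> omega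
  have hre : ∀ w, 0 ≤ (s w).re := fun w => by
    simp only [hs]
    split_ifs <;> simp
  have h1 := congrArg Complex.re (h s M)
  rw [h0, Complex.re_sum] at h1
  simp only [segSum, Complex.re_sum] at h1
  have h2 := (sum_eq_zero_iff_of_nonneg fun j _ => sum_nonneg fun w _ => hre _).1 h1.symm i
    (mem_univ i)
  have h3 := (sum_eq_zero_iff_of_nonneg fun w _ => hre _).1 h2 v hv
  by_contra hcon
  simp only [hs, if_neg hcon] at h3
  simp at h3

theorem cell_diam {ι : Type} [Fintype ι] {g : ι → SL(2, ℤ)} {c d : ι → ℕ}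
    (h : ∀ (s : ℤ × ℤ → ℂ) (M : ℕ), segSum s 1 1 1 M = ∑ i, segSum s (g i) (c i) (d i) M)
    (i : ι) (hc : 0 < c i) (hd : 0 < d i) {k L : ℕ} (hk : k + 2 ≤ c i + d i) {m m' : ℕ}
    (hm : m < 2 * (k * L)) (hm' : m' < 2 * (k * L)) (h1 : m < m' + L) (h2 : m' < m + L)
    {v w : ℕ × ℕ} (hv : v ∈ seg (c i) (d i) m) (hw : w ∈ seg (c i) (d i) m') :
    (act (g i) (w.1, w.2)).1 ≤ (act (g i) (v.1, v.2)).1 + 3 * L := by
  have p1 := tree_pts h i (v := (1, 0)) (M := c i) ((mem_seg hc hd).2 (by simp))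
  have p2 := tree_pts h i (v := (1, 1)) (M := c i + d i) ((mem_seg hc hd).2 (by simp))
  have p3 := det_eq (g i)
  have e1 := ((mem_seg hc hd).1 hv).2
  have e2 := ((mem_seg hc hd).1 hw).2
  simp only [act] at p1 p2 ⊢
  push_cast at p1 p2
  generalize g i 0 0 = a at *
  generalize g i 0 1 = b at *
  generalize g i 1 0 = a' at *
  generalize g i 1 1 = b' at *
  have hkcd : k ≤ c i * d i := by
    obtain ⟨x, hx⟩ := Nat.exists_eq_succ_of_ne_zero hc.ne'
    obtain ⟨y, hy⟩ := Nat.exists_eq_succ_of_ne_zero hd.ne'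
    rw [hx, hy] at hk ⊢
    simp only [Nat.succ_eq_add_one] at hk ⊢
    nlinarith [Nat.zero_le (x * y)]
  have hy : v.2 ≤ 2 * L * c i := by
    by_contra hcon
    have a1 : d i * v.2 ≤ m := by omega
    have a2 : d i * (2 * L * c i) ≤ d i * v.2 := Nat.mul_le_mul_left _ (not_le.1 hcon).le
    have a3 : 2 * L * k ≤ 2 * L * (c i * d i) := Nat.mul_le_mul_left _ hkcd
    nlinarith
  have e1' : (c i : ℤ) * v.1 + d i * v.2 = m := by exact_mod_cast e1
  have e2' : (c i : ℤ) * w.1 + d i * w.2 = m' := by exact_mod_cast e2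
  have hy' : (v.2 : ℤ) ≤ 2 * L * c i := by exact_mod_cast hy
  have c0 : (0 : ℤ) < c i := by exact_mod_cast hc
  have hc' : (c i : ℤ) = a + a' := by linarith [p1.2.2]
  have hd' : (d i : ℤ) = b + b' := by linarith [p1.2.2, p2.2.2]
  have a0 : 0 ≤ a := by linarith [p1.1]
  have a1 : a ≤ c i := by linarith [p1.2.1]
  have k1 : (c i : ℤ) * (a * v.1 + b * v.2) = a * m - v.2 := by
    rw [← e1', hc', hd']
    linear_combination (-(v.2 : ℤ)) * p3
  have k2 : (c i : ℤ) * (a * w.1 + b * w.2) = a * m' - w.2 := by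
    rw [← e2', hc', hd']
    linear_combination (-(w.2 : ℤ)) * p3
  have h2' : (m' : ℤ) - m ≤ L := by omega
  have L0 : (0 : ℤ) ≤ L := Int.natCast_nonneg L
  have w0 : (0 : ℤ) ≤ w.2 := Int.natCast_nonneg _
  have k3 : a * (m' - m) ≤ c i * L :=
    (mul_le_mul_of_nonneg_left h2' a0).trans (mul_le_mul_of_nonneg_right a1 L0)
  refine le_of_mul_le_mul_left ?_ c0
  rw [mul_add (c i : ℤ) _ (3 * L), k1, k2]
  nlinarith

theorem sum_eq_tri (F : ℤ × ℤ → ℂ) {Q : ℕ} {K : Finset (ℕ × ℕ)} (hK : K ⊆ box Q) :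
    ∑ m ∈ range (2 * Q + 1), segSum
      (fun w => if (w.1.toNat, w.2.toNat) ∈ K then F w else 0) 1 1 1 m =
      ∑ v ∈ K, F (v.1, v.2) := by
  rw [← triSum_eq _ _ one_pos one_pos, triSum]
  simp only [act_one, Int.toNat_natCast]
  rw [← sum_filter]
  refine sum_congr ?_ fun _ _ => rfl
  ext v
  rw [mem_filter, mem_tri one_pos one_pos]
  constructor
  · exact fun h => h.2
  · intro h
    have := mem_box.1 (hK h)
    exact ⟨by omega, h⟩

theorem strip_small (B : ℕ → ℂ) {X L : ℕ} (hL : 0 < L) {E : ℝ}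
    (hE : ∀ x ≤ X, ‖∑ m ∈ range x, B m‖ ≤ E) (t : ℕ) :
    ‖∑ m ∈ range X with m / L = t, B m‖ ≤ 2 * E := by
  have e : (range X).filter (fun m => m / L = t) =
      range (min ((t + 1) * L) X) \ range (min (t * L) X) := by
    ext m
    rw [Finset.mem_sdiff]
    simp only [mem_filter, mem_range, Nat.div_eq_iff hL, add_mul, one_mul]
    generalize t * L = u
    omega
  have hsub : range (min (t * L) X) ⊆ range (min ((t + 1) * L) X) := by
    rw [range_subset_range, add_mul]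
    omega
  rw [e, sum_sdiff_eq_sub hsub]
  refine (norm_sub_le _ _).trans ?_
  linarith [hE _ (min_le_right ((t + 1) * L) X), hE _ (min_le_right (t * L) X)]

theorem oc_small {s : ℤ × ℤ → ℂ} {N n : ℕ} {θ : SL(2, ℤ) → ℂ} (H : Equivar s N n θ)
    (g₀ : SL(2, ℤ)) {ε : ℝ} (hε : 0 < ε) :
    ∀ᶠ Q : ℕ in atTop, ∀ K ⊆ box Q, OC K →
      ‖∑ v ∈ K, s (act g₀ (v.1, v.2))‖ ≤ ε * (Q : ℝ) ^ 2 := by
  classical
  obtain ⟨k, hk⟩ := exists_nat_gt (96 / ε)
  have k0 : (0 : ℝ) < k := lt_trans (by positivity) hk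
  have k1 : 0 < k := by exact_mod_cast k0
  obtain ⟨ι, _, g, c, d, hpos, -, -, htree⟩ := exists_tree 1 k
  set η : ℝ := ε / (32 * k * (Fintype.card ι + 1)) with hη
  have η0 : 0 < η := by positivity
  have h1 : ∀ᶠ X : ℕ in atTop, ∀ i, ∀ x ≤ X + 1,
      ‖∑ m ∈ range x, segSum s (g₀ * g i) (c i) (d i) m‖ ≤ η * (X : ℝ) ^ 2 := by
    refine eventually_all.2 fun i => ?_
    filter_upwards [ap_small H (g₀ * g i) (hpos i).1 (hpos i).2.1 one_pos η0] with X hX x hx
    have := hX 0 x hx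
    rwa [filter_true_of_mem fun m _ => Nat.mod_one m] at this
  have h2 : Tendsto (fun Q : ℕ => 2 * Q) atTop atTop :=
    tendsto_id.const_mul_atTop' two_pos
  filter_upwards [h2.eventually h1, eventually_ge_atTop k] with Q hQ hQk K hK hoc
  set L := Q / k + 1 with hL
  have L0 : 0 < L := Nat.succ_pos _
  have hQL : Q < k * L := Nat.lt_mul_div_succ Q k1
  set FK : ℤ × ℤ → ℂ := fun w => if (w.1.toNat, w.2.toNat) ∈ K then s (act g₀ w) else 0 with hFK
  set I : ℤ × ℤ → ℂ := fun w =>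
    if (w.1.toNat, w.2.toNat) ∈ shallow K (4 * L) then 1 else 0 with hI
  have hmaps : ∀ m ∈ range (2 * Q + 1), m / L ∈ range (2 * k) := by
    intro m hm
    rw [mem_range] at hm ⊢
    rw [Nat.div_lt_iff_lt_mul L0, mul_assoc]
    omega
  have dec : ∀ F : ℤ × ℤ → ℂ, ∑ m ∈ range (2 * Q + 1), segSum F 1 1 1 m =
      ∑ i, ∑ t ∈ range (2 * k), ∑ m ∈ range (2 * Q + 1) with m / L = t,
        segSum F (g i) (c i) (d i) m := by
    intro F
    simp only [htree]
    rw [sum_comm]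
    exact sum_congr rfl fun i _ => (sum_fiberwise_of_maps_to hmaps _).symm
  have hIre : ∀ w, 0 ≤ (I w).re := fun w => by
    simp only [hI]
    split_ifs <;> simp
  have cell : ∀ i t, ‖∑ m ∈ range (2 * Q + 1) with m / L = t, segSum FK (g i) (c i) (d i) m‖ ≤
      2 * (η * ((2 * Q : ℕ) : ℝ) ^ 2) + (∑ m ∈ range (2 * Q + 1) with m / L = t,
        segSum I (g i) (c i) (d i) m).re := by
    intro i t
    have r0 : 0 ≤ (∑ m ∈ range (2 * Q + 1) with m / L = t, segSum I (g i) (c i) (d i) m).re := by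
      simp only [segSum, Complex.re_sum]
      exact sum_nonneg fun _ _ => sum_nonneg fun _ _ => hIre _
    by_cases hall : ∀ m ∈ (range (2 * Q + 1)).filter (fun m => m / L = t),
        ∀ v ∈ seg (c i) (d i) m,
          ((act (g i) (v.1, v.2)).1.toNat, (act (g i) (v.1, v.2)).2.toNat) ∈ K
    · have e : ∑ m ∈ range (2 * Q + 1) with m / L = t, segSum FK (g i) (c i) (d i) m =
          ∑ m ∈ range (2 * Q + 1) with m / L = t, segSum s (g₀ * g i) (c i) (d i) m := by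
        refine sum_congr rfl fun m hm => sum_congr rfl fun v hv => ?_
        simp only [hFK, if_pos (hall m hm v hv), act_mul]
      rw [e]
      linarith [strip_small _ L0 (hQ i) t]
    · push Not at hall
      obtain ⟨m', hm', w, hw, hwK⟩ := hall
      refine le_trans ?_ (le_add_of_nonneg_left (by positivity))
      simp only [segSum, Complex.re_sum]
      refine (norm_sum_le _ _).trans (sum_le_sum fun m hm => ?_)
      refine (norm_sum_le _ _).trans (sum_le_sum fun v hv => ?_)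
      simp only [hFK]
      split_ifs with hvK
      · refine (H.bdd _).trans (le_of_eq ?_)
        obtain ⟨m1, m2⟩ := mem_filter.1 hm
        obtain ⟨m3, m4⟩ := mem_filter.1 hm'
        rw [mem_range] at m1 m3
        rw [Nat.div_eq_iff L0] at m2 m4
        have d1 := cell_diam htree i (hpos i).1 (hpos i).2.1 (hpos i).2.2.2 (L := L)
          (m := m) (m' := m') (by omega) (by omega) (by omega) (by omega) hv hw
        have d2 := cell_diam htree i (hpos i).1 (hpos i).2.1 (hpos i).2.2.2 (L := L)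
          (m := m') (m' := m) (by omega) (by omega) (by omega) (by omega) hw hv
        have t1 := tree_pts htree i hv
        have t2 := tree_pts htree i hw
        have : ((act (g i) (v.1, v.2)).1.toNat, (act (g i) (v.1, v.2)).2.toNat) ∈
            shallow K (4 * L) := by
          refine mem_filter.2 ⟨hvK, _, hwK, ?_⟩
          simp only
          omega
        simp only [hI, if_pos this, Complex.one_re]
      · rw [norm_zero]
        exact hIre _
  have hsh : shallow K (4 * L) ⊆ box Q := (filter_subset _ _).trans hK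
  have e1 := sum_eq_tri (fun w => s (act g₀ w)) hK
  have e2 := sum_eq_tri (fun _ => 1) hsh
  rw [dec] at e1 e2
  have e3 := congrArg Complex.re e2
  rw [Complex.re_sum] at e3
  simp only [Complex.re_sum (range (2 * k))] at e3
  simp only [sum_const, nsmul_eq_mul, mul_one, Complex.natCast_re] at e3
  have c1 : ((shallow K (4 * L)).card : ℝ) ≤ 6 * (4 * L * Q) := by
    exact_mod_cast card_shallow (ρ := 4 * L) (by omega) hK hoc
  have c2 : (L : ℝ) ≤ 2 * Q / k := by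
    have a1 : ((Q / k : ℕ) : ℝ) ≤ Q / k := Nat.cast_div_le
    have a2 : (1 : ℝ) ≤ Q / k := by
      rw [le_div_iff₀ k0, one_mul]
      exact_mod_cast hQk
    rw [hL, mul_div_assoc]
    push_cast
    linarith
  rw [← e1]
  calc _ ≤ ∑ i, ∑ t ∈ range (2 * k), (2 * (η * ((2 * Q : ℕ) : ℝ) ^ 2) +
        (∑ m ∈ range (2 * Q + 1) with m / L = t, segSum I (g i) (c i) (d i) m).re) :=
        (norm_sum_le _ _).trans (sum_le_sum fun i _ =>
          (norm_sum_le _ _).trans (sum_le_sum fun t _ => cell i t))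
    _ = Fintype.card ι * (2 * k * (2 * (η * (2 * Q) ^ 2))) + (shallow K (4 * L)).card := by
        simp only [sum_add_distrib]
        rw [e3]
        simp
    _ ≤ ε / 2 * (Q : ℝ) ^ 2 + ε / 2 * (Q : ℝ) ^ 2 := by
        refine add_le_add ?_ (c1.trans ?_)
        · have : (Fintype.card ι : ℝ) * (2 * k * (2 * (η * (2 * Q) ^ 2))) ≤
              (Fintype.card ι + 1) * (2 * k * (2 * (η * (2 * Q) ^ 2))) := by
            gcongr
            linarith
          refine this.trans (le_of_eq ?_)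
          rw [hη]
          field_simp
          ring
        · rw [div_lt_iff₀ hε] at hk
          have a1 : (6 : ℝ) * (4 * L * Q) ≤ 6 * (4 * (2 * Q / k) * Q) := by gcongr
          refine a1.trans ?_
          rw [show (6 : ℝ) * (4 * (2 * Q / k) * Q) = 48 / k * Q ^ 2 by ring]
          refine mul_le_mul_of_nonneg_right ?_ (by positivity)
          rw [div_le_iff₀ k0]
          linarith
    _ = _ := by ring

end Pool.Agent.P.MP_99daa8_nt.SI
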