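import Pool.Agent.P.MP_99daa8_nt.SI.Weighted

/-!
The contribution of large denominators.
-/

namespace Pool.Agent.P.MP_99daa8_nt.SI

open Finset

theorem fib_sum {Q : ℕ} {i : ℕ × ℕ} (hi : i ∈ box Q) (hc : Nat.Coprime i.1 i.2)
    {K : Finset (ℕ × ℕ)} (hKQ : K ⊆ box Q) (hK : ∀ j ∈ K, j.1 < i.1 ∧ i.2 < j.2)
    {φ : ℕ → ℝ} (h0 : ∀ x, 0 ≤ φ x) : ∑ j ∈ K, φ (dl i j) ≤ ∑ x ∈ Icc 1 (Q ^ 2), φ x := by
  rw [← sum_image (dl_inj hc hK)]
  refine sum_le_sum_of_subset_of_nonneg (fun x hx => ?_) fun _ _ _ => h0 _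
  obtain ⟨j, hj, rfl⟩ := mem_image.1 hx
  exact mem_Icc.2 ⟨dl_pos (hK j hj).1 (hK j hj).2, dl_le hi (hKQ hj)⟩

theorem sum_mult {R d : ℕ} (hd : 0 < d) (φ : ℕ → ℝ) :
    ∑ x ∈ Icc 1 R, (if d ∣ x then φ x else 0) = ∑ k ∈ Icc 1 (R / d), φ (d * k) := by
  rw [← sum_filter]
  symm
  refine sum_bij (fun k _ => d * k) (fun k hk => ?_) (fun k _ k' _ e => ?_) (fun x hx => ?_)
    fun _ _ => rfl
  · obtain ⟨h1, h2⟩ := mem_Icc.1 hk
    rw [Nat.le_div_iff_mul_le hd, mul_comm] at h2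
    exact mem_filter.2 ⟨mem_Icc.2 ⟨Nat.mul_pos hd h1, h2⟩, dvd_mul_right _ _⟩
  · exact Nat.eq_of_mul_eq_mul_left hd e
  · obtain ⟨h1, k, rfl⟩ := mem_filter.1 hx
    obtain ⟨h2, h3⟩ := mem_Icc.1 h1
    refine ⟨k, mem_Icc.2 ⟨Nat.pos_of_mul_pos_left h2, ?_⟩, rfl⟩
    rwa [Nat.le_div_iff_mul_le hd, mul_comm]

/-- The weight of the denominator `d`. -/
noncomputable def ww (i : ℕ × ℕ) (K : Finset (ℕ × ℕ)) (d : ℕ) : ℝ :=
  ∑ j ∈ K, if d ∣ dl i j then (1 : ℝ) / dl i j else 0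

theorem ww_log {Q : ℕ} {i : ℕ × ℕ} (hi : i ∈ box Q) (hc : Nat.Coprime i.1 i.2)
    {K : Finset (ℕ × ℕ)} (hKQ : K ⊆ box Q) (hK : ∀ j ∈ K, j.1 < i.1 ∧ i.2 < j.2) {d : ℕ}
    (hd : 0 < d) : ww i K d ≤ (1 + Real.log ((Q : ℝ) ^ 2)) / d := by
  have Q0 : 0 < Q := by
    have := (mem_box.1 hi).1
    omega
  have h := fib_sum hi hc hKQ hK (φ := fun x => if d ∣ x then (1 : ℝ) / x else 0) fun x => by
    split_ifs <;> positivity
  rw [sum_mult hd] at h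
  refine h.trans ?_
  have h2 := harm_le (Q ^ 2)
  rw [Nat.cast_pow] at h2
  calc _ ≤ ∑ k ∈ Icc 1 (Q ^ 2), (1 : ℝ) / ((d * k : ℕ) : ℝ) :=
        sum_le_sum_of_subset_of_nonneg (Icc_subset_Icc_right (Nat.div_le_self _ _))
          fun _ _ _ => by positivity
    _ = (∑ k ∈ Icc 1 (Q ^ 2), (1 : ℝ) / k) / d := by
        rw [sum_div]
        refine sum_congr rfl fun k _ => ?_
        push_cast
        ring
    _ ≤ _ := by gcongr

theorem ww_pow {P J : ℕ} {i : ℕ × ℕ} (hi : i ∈ box (J * P)) (hc : Nat.Coprime i.1 i.2)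
    (h1 : P ≤ i.1) (h2 : P ≤ i.2)
    {K : Finset (ℕ × ℕ)} (hKQ : K ⊆ box (J * P)) (hK : ∀ j ∈ K, j.1 < i.1 ∧ i.2 < j.2)
    {z d : ℕ} (hz : 0 < z) (hzP : z ≤ P) (hd : z ^ 4 ≤ d) :
    ww i K d ≤ ((J : ℝ) ^ 2 + 2) / (z : ℝ) ^ 2 := by
  have hP : 0 < P := hz.trans_le hzP
  have d0 : 0 < d := lt_of_lt_of_le (by positivity) hd
  set T := (J * P) ^ 2 / z ^ 2 + 1 with hT
  have T0 : (0 : ℝ) < T := by exact_mod_cast Nat.succ_pos _
  have z0 : (0 : ℝ) < z := by exact_mod_cast hz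
  have P0 : (0 : ℝ) < P := by exact_mod_cast hP
  have a1 := small_sum hP h1 h2 hK T
  have a2 := fib_sum hi hc hKQ hK (φ := fun x => if d ∣ x then (1 : ℝ) / T else 0) fun x => by
    split_ifs <;> positivity
  rw [sum_mult d0] at a2
  simp only [sum_const, Nat.card_Icc, Nat.add_sub_cancel, nsmul_eq_mul] at a2
  have a3 : ww i K d ≤ ∑ j ∈ K with dl i j ≤ T, (1 : ℝ) / dl i j +
      ∑ j ∈ K, if d ∣ dl i j then (1 : ℝ) / T else 0 := by
    rw [sum_filter, ← sum_add_distrib]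
    refine sum_le_sum fun j _ => ?_
    split_ifs with b1 b2 b2
    · exact le_add_of_nonneg_right (by positivity)
    · rw [zero_add]
      exact one_div_le_one_div_of_le T0 (by exact_mod_cast (not_le.1 b2).le)
    · positivity
    · simp
  have a4 : (T : ℝ) / (P : ℝ) ^ 2 ≤ ((J : ℝ) ^ 2 + 1) / (z : ℝ) ^ 2 := by
    have b1 : (((J * P) ^ 2 / z ^ 2 : ℕ) : ℝ) ≤ (((J * P) ^ 2 : ℕ) : ℝ) / ((z ^ 2 : ℕ) : ℝ) :=
      Nat.cast_div_le
    have b2 : (z : ℝ) ^ 2 ≤ (P : ℝ) ^ 2 := by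
      have : (z : ℝ) ≤ P := by exact_mod_cast hzP
      gcongr
    rw [le_div_iff₀ (by positivity)] at b1
    rw [div_le_div_iff₀ (by positivity) (by positivity), hT]
    push_cast at b1 ⊢
    nlinarith
  have a5 : (((J * P) ^ 2 / d : ℕ) : ℝ) * (1 / T) ≤ 1 / (z : ℝ) ^ 2 := by
    have b1 : (J * P) ^ 2 / d * z ^ 2 ≤ T := by
      have c1 : (J * P) ^ 2 / d * z ^ 2 * z ^ 2 ≤ (J * P) ^ 2 :=
        calc _ = (J * P) ^ 2 / d * z ^ 4 := by ring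
          _ ≤ (J * P) ^ 2 / d * d := Nat.mul_le_mul_left _ hd
          _ ≤ _ := Nat.div_mul_le_self _ _
      have := (Nat.le_div_iff_mul_le (by positivity : 0 < z ^ 2)).2 c1
      omega
    rw [mul_one_div, div_le_div_iff₀ T0 (by positivity), one_mul]
    exact_mod_cast b1
  calc _ ≤ ((J : ℝ) ^ 2 + 1) / (z : ℝ) ^ 2 + 1 / (z : ℝ) ^ 2 := by linarith
    _ = _ := by ring

theorem rem_swap {Q : ℕ} {i : ℕ × ℕ} (hi : i ∈ box Q) {K : Finset (ℕ × ℕ)} (hKQ : K ⊆ box Q)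
    (hK : ∀ j ∈ K, j.1 < i.1 ∧ i.2 < j.2) (F : ℕ → ℝ) (D₀ : ℕ) :
    ∑ j ∈ K, (∑ d ∈ (dl i j).divisors with D₀ < d, F d) / dl i j =
      ∑ d ∈ Ioc D₀ (Q ^ 2), F d * ww i K d := by
  simp only [ww, mul_sum]
  rw [sum_comm]
  refine sum_congr rfl fun j hj => ?_
  have a1 := dl_pos (hK j hj).1 (hK j hj).2
  have a2 := dl_le hi (hKQ hj)
  have e : (dl i j).divisors.filter (fun d => D₀ < d) =
      (Ioc D₀ (Q ^ 2)).filter fun d => d ∣ dl i j := by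
    ext d
    simp only [mem_filter, Nat.mem_divisors, mem_Ioc]
    constructor
    · rintro ⟨⟨h1, -⟩, h2⟩
      exact ⟨⟨h2, (Nat.le_of_dvd a1 h1).trans a2⟩, h1⟩
    · rintro ⟨⟨h1, -⟩, h2⟩
      exact ⟨⟨h2, a1.ne'⟩, h1⟩
  rw [e, sum_filter, sum_div]
  refine sum_congr rfl fun d _ => ?_
  split_ifs
  · ring
  · simp

theorem dyadic {b : ℕ → ℝ} {C : ℝ}
    (hb : ∀ z : ℕ, 0 < z → ∑ d ∈ Ioc (z ^ 4) ((2 * z) ^ 4), b d ≤ C / z) {z₀ : ℕ} (hz : 0 < z₀)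
    (k : ℕ) : ∑ d ∈ Ioc (z₀ ^ 4) ((2 ^ k * z₀) ^ 4), b d ≤ 2 * C / z₀ - 2 * C / (2 ^ k * z₀) := by
  induction k with
  | zero => simp
  | succ k ih =>
    have h1 : z₀ ^ 4 ≤ (2 ^ k * z₀) ^ 4 :=
      Nat.pow_le_pow_left (Nat.le_mul_of_pos_left _ (by positivity)) _
    have h2 : (2 ^ k * z₀) ^ 4 ≤ (2 * (2 ^ k * z₀)) ^ 4 := Nat.pow_le_pow_left (by omega) _
    have h3 := hb (2 ^ k * z₀) (by positivity)
    rw [show 2 ^ (k + 1) * z₀ = 2 * (2 ^ k * z₀) by ring, ← sum_Ioc_consecutive _ h1 h2]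
    have z0 : (z₀ : ℝ) ≠ 0 := by positivity
    have e : 2 * C / z₀ - 2 * C / (2 ^ (k + 1) * z₀) =
        2 * C / z₀ - 2 * C / (2 ^ k * z₀) + C / ((2 ^ k * z₀ : ℕ) : ℝ) := by
      push_cast
      field_simp
      ring
    linarith

theorem low_range {a w : ℕ → ℝ} (a0 : ∀ d, 0 ≤ a d) (w0 : ∀ d, 0 ≤ w d) {Λ C : ℝ} (Λ0 : 0 ≤ Λ)
    (C0 : 0 ≤ C) {z₀ z₁ : ℕ} (hz : 0 < z₀)
    (ha : ∀ z, 2 ≤ z → z ≤ z₁ → ∑ d ∈ Icc 1 (z ^ 4), a d ≤ Λ * z)
    (hw : ∀ z d, 0 < z → z ≤ z₁ → z ^ 4 ≤ d → w d ≤ C / (z : ℝ) ^ 2) :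
    ∑ d ∈ Ioc (z₀ ^ 4) (z₁ ^ 4), a d * w d ≤ 4 * (C * Λ) / z₀ := by
  have h := dyadic (b := fun d => if d ≤ z₁ ^ 4 then a d * w d else 0) (C := 2 * (C * Λ))
    (fun z z0 => ?_) hz z₁
  · have h1 : z₁ ^ 4 ≤ (2 ^ z₁ * z₀) ^ 4 := Nat.pow_le_pow_left
      ((Nat.lt_two_pow_self.le).trans (Nat.le_mul_of_pos_right _ hz)) _
    have h2 : ∑ d ∈ Ioc (z₀ ^ 4) (z₁ ^ 4), a d * w d ≤
        ∑ d ∈ Ioc (z₀ ^ 4) ((2 ^ z₁ * z₀) ^ 4), if d ≤ z₁ ^ 4 then a d * w d else 0 := by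
      rw [← sum_filter]
      refine sum_le_sum_of_subset_of_nonneg (fun d hd => ?_) fun d _ _ => mul_nonneg (a0 d) (w0 d)
      rw [mem_Ioc] at hd
      exact mem_filter.2 ⟨mem_Ioc.2 ⟨hd.1, hd.2.trans h1⟩, hd.2⟩
    have h3 : 0 ≤ 2 * (2 * (C * Λ)) / (2 ^ z₁ * z₀ : ℝ) := by positivity
    have h4 : 2 * (2 * (C * Λ)) / (z₀ : ℝ) = 4 * (C * Λ) / z₀ := by ring
    linarith
  · have z1 : (0 : ℝ) < z := by exact_mod_cast z0
    rcases le_or_gt z₁ z with h | h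
    · rw [sum_eq_zero fun d hd => if_neg ?_]
      · positivity
      · have := (mem_Ioc.1 hd).1
        have := Nat.pow_le_pow_left h 4
        omega
    · have h1 := ha (min (2 * z) z₁) (by omega) (min_le_right _ _)
      have h2 : ((min (2 * z) z₁ : ℕ) : ℝ) ≤ 2 * z := by exact_mod_cast min_le_left _ _
      calc _ ≤ ∑ d ∈ Icc 1 ((min (2 * z) z₁) ^ 4), a d * (C / (z : ℝ) ^ 2) := by
            rw [← sum_filter]
            refine (sum_le_sum (g := fun d => a d * (C / (z : ℝ) ^ 2)) fun d hd => ?_).trans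
              (sum_le_sum_of_subset_of_nonneg (fun d hd => ?_) fun d _ _ =>
                mul_nonneg (a0 d) (by positivity))
            · exact mul_le_mul_of_nonneg_left
                (hw z d z0 h.le (mem_Ioc.1 (mem_filter.1 hd).1).1.le) (a0 d)
            · obtain ⟨h3, h4⟩ := mem_filter.1 hd
              obtain ⟨h5, h6⟩ := mem_Ioc.1 h3
              refine mem_Icc.2 ⟨by omega, ?_⟩
              rcases min_choice (2 * z) z₁ with h7 | h7 <;> rw [h7] <;> assumption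
        _ ≤ Λ * (2 * z) * (C / (z : ℝ) ^ 2) := by
            rw [← sum_mul]
            refine mul_le_mul_of_nonneg_right (h1.trans ?_) (by positivity)
            gcongr
        _ = _ := by field_simp

theorem top_range {a : ℕ → ℝ} (a0 : ∀ d, 0 ≤ a d) {α β : ℝ} (β0 : 0 ≤ β) {D R : ℕ} (hD : 0 < D)
    (hDR : D ≤ R) (ha : ∀ t, 0 < t → t ≤ R → ∑ d ∈ Icc 1 t, a d ≤ α + β * (t : ℝ) ^ 2) :
    ∑ d ∈ Ioc D R, a d / d ≤ α / D + 2 * β * R := by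
  have hA : ∀ t, D ≤ t → t ≤ R → ∑ d ∈ Ioc D t, a d ≤ α + β * (t : ℝ) ^ 2 := fun t h1 h2 =>
    le_trans (sum_le_sum_of_subset_of_nonneg (fun d hd => by
      rw [mem_Ioc] at hd
      exact mem_Icc.2 ⟨by omega, hd.2⟩) fun d _ _ => a0 d) (ha t (by omega) h2)
  have key : ∀ t, D ≤ t → t ≤ R → ∑ d ∈ Ioc D t, a d / d ≤
      (∑ d ∈ Ioc D t, a d) / t + α * (1 / D - 1 / t) + β * t := by
    intro t h1
    induction t, h1 using Nat.le_induction with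
    | base =>
      intro _
      simp only [Ioc_self, sum_empty, zero_div, sub_self, mul_zero, zero_add]
      positivity
    | succ t ht ih =>
      intro h2
      have t0 : (0 : ℝ) < t := by exact_mod_cast hD.trans_le ht
      have h3 := ih (by omega)
      have h4 := hA t ht (by omega)
      rw [sum_Ioc_succ_top ht, sum_Ioc_succ_top ht]
      generalize ∑ d ∈ Ioc D t, a d = S at *
      have h5 : S / t - S / (t + 1) ≤ α * (1 / t - 1 / (t + 1)) + β := by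
        have e1 : S / t - S / (t + 1) = S / (t * (t + 1)) := by
          field_simp
          ring
        have e2 : α * (1 / t - 1 / (t + 1)) + β = (α + β * (t * (t + 1))) / (t * (t + 1)) := by
          field_simp
          ring
        rw [e1, e2]
        refine div_le_div_of_nonneg_right ?_ (by positivity)
        nlinarith
      push_cast
      rw [add_div]
      linarith
  have R0 : (0 : ℝ) < R := by exact_mod_cast hD.trans_le hDR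
  have h1 := key R hDR le_rfl
  have h2 : (∑ d ∈ Ioc D R, a d) / R ≤ (α + β * (R : ℝ) ^ 2) / R :=
    div_le_div_of_nonneg_right (hA R hDR le_rfl) R0.le
  have e : (α + β * (R : ℝ) ^ 2) / R + α * (1 / D - 1 / R) + β * R = α / D + 2 * β * R := by
    field_simp
    ring
  linarith

end Pool.Agent.P.MP_99daa8_nt.SI
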