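import Pool.Agent.P.MP_99daa8_nt.SI.Pairs
import Pool.Agent.P.MP_99daa8_nt.SI.Wsum
import Pool.Agent.P.MP_99daa8_nt.Final

/-!
The bilinear estimate.
-/

namespace Pool.Agent.P.MP_99daa8_nt.SI

open scoped MatrixGroups
open Finset

/-- The residue class of a pair. -/
def cls (q : ℕ) (i : ℕ × ℕ) : ℕ × ℕ := (i.1 % q, i.2 % q)

theorem cls_mem {q : ℕ} (hq : 0 < q) (i : ℕ × ℕ) : cls q i ∈ range q ×ˢ range q :=
  mem_product.2 ⟨mem_range.2 (Nat.mod_lt _ hq), mem_range.2 (Nat.mod_lt _ hq)⟩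

open Classical in
/-- A matrix whose bottom row lies in the class `ρ`. -/
noncomputable def rep (N : ℕ) (ρ : ℕ × ℕ) : SL(2, ℤ) :=
  if h : ∃ i : ℕ × ℕ, Nat.Coprime i.1 i.2 ∧ cls N i = ρ then mat h.choose else 1

/-- The rotation by a right angle. -/
def Sw : SL(2, ℤ) := ⟨!![0, 1; -1, 0], by simp [Matrix.det_fin_two]⟩

theorem act_Sw (v : ℤ × ℤ) : act Sw v = (v.2, -v.1) := by
  have : Sw 0 0 = 0 ∧ Sw 0 1 = 1 ∧ Sw 1 0 = -1 ∧ Sw 1 1 = 0 := ⟨rfl, rfl, rfl, rfl⟩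
  simp [act, this.1, this.2.1, this.2.2.1, this.2.2.2]

/-- The coefficient of a leaf. -/
noncomputable def tt (s : ℤ × ℤ → ℂ) (N : ℕ) (ρ j : ℕ × ℕ) : ℂ :=
  s (act (rep N ρ * Sw) (j.1, j.2))

variable {s : ℤ × ℤ → ℂ} {N n : ℕ} {θ : SL(2, ℤ) → ℂ}

theorem Sym.factor (H : Sym s N n θ) {i : ℕ × ℕ} (hi : Nat.Coprime i.1 i.2) (v : ℤ × ℤ) :
    s (act (mat i) v) =
      (starRingEnd ℂ) (tt s N (cls N i) i) * s (act (rep N (cls N i)) v) := by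
  have hex : ∃ k : ℕ × ℕ, Nat.Coprime k.1 k.2 ∧ cls N k = cls N i := ⟨i, hi, rfl⟩
  have h1 : rep N (cls N i) = mat hex.choose := by
    unfold rep
    rw [dif_pos hex]
  obtain ⟨h2, h3⟩ := hex.choose_spec
  obtain ⟨h4, h5⟩ := Prod.mk.inj h3
  rw [H.rows (g := mat i) (r := rep N (cls N i)), tt, act_mul, act_Sw, (mat_row hi).1,
    (mat_row hi).2]
  rw [h1, (mat_row hi).1, (mat_row hi).2, (mat_row h2).1, (mat_row h2).2]
  obtain ⟨a, ha⟩ := (Nat.modEq_iff_dvd.1 h4)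
  obtain ⟨b, hb⟩ := (Nat.modEq_iff_dvd.1 h5)
  exact ⟨a * i.2 - b * i.1, by linear_combination i.2 * ha - i.1 * hb⟩

theorem Sym.tt_zero (H : Sym s N n θ) (ρ : ℕ × ℕ) {j : ℕ × ℕ} (hj : ¬ Nat.Coprime j.1 j.2) :
    tt s N ρ j = 0 :=
  H.prim _ fun h => hj (Nat.isCoprime_iff_coprime.1 ((isCoprime_act_iff _ _).1 h))

theorem class_sum {q : ℕ} (hq : 0 < q) (K : Finset (ℕ × ℕ)) {F φ : ℕ × ℕ → ℂ}
    (hF : ∀ j, F j = F (cls q j)) {Bd W : ℝ} (hB : ∀ j, ‖F j‖ ≤ Bd)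
    (hW : ∀ σ ∈ range q ×ˢ range q, ‖∑ j ∈ K, if cls q j = σ then φ j else 0‖ ≤ W) :
    ‖∑ j ∈ K, F j * φ j‖ ≤ (q : ℝ) ^ 2 * (Bd * W) := by
  have e : ∑ j ∈ K, F j * φ j =
      ∑ σ ∈ range q ×ˢ range q, F σ * ∑ j ∈ K, if cls q j = σ then φ j else 0 := by
    simp only [mul_sum]
    rw [sum_comm]
    refine sum_congr rfl fun j _ => ?_
    simp only [mul_ite, mul_zero]
    rw [sum_ite_eq, if_pos (cls_mem hq j), ← hF]
  rw [e]
  refine (norm_sum_le _ _).trans ((sum_le_card_nsmul _ _ (Bd * W) fun σ hσ => ?_).trans ?_)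
  · rw [norm_mul]
    exact mul_le_mul (hB σ) (hW σ hσ) (norm_nonneg _) ((norm_nonneg _).trans (hB σ))
  · simp [sq]

variable {η : ℕ → ℂ} {A : Finset ℕ} {X H : ℕ}

/-- The main term attached to a pair of leaves. -/
noncomputable def mainT (η : ℕ → ℂ) (A : Finset ℕ) (q₀ : ℕ) (i j : ℕ × ℕ) : ℂ :=
  (Int.gcd ((i.1 : ℤ) * j.2 - i.2 * j.1) q₀ : ℂ) *
    TT η A (Int.gcd ((i.1 : ℤ) * j.2 - i.2 * j.1) q₀) (mu i j)

theorem mainT_cls (η : ℕ → ℂ) (A : Finset ℕ) (q₀ N : ℕ) (i j : ℕ × ℕ) :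
    mainT η A q₀ i j = mainT η A q₀ i (cls (q₀ * N) j) := by
  have a1 : (j.1 : ℤ) = (j.1 % (q₀ * N) : ℕ) + q₀ * (N * (j.1 / (q₀ * N) : ℕ)) := by
    have := Nat.mod_add_div j.1 (q₀ * N)
    rw [mul_assoc] at this
    exact_mod_cast this.symm
  have a2 : (j.2 : ℤ) = (j.2 % (q₀ * N) : ℕ) + q₀ * (N * (j.2 / (q₀ * N) : ℕ)) := by
    have := Nat.mod_add_div j.2 (q₀ * N)
    rw [mul_assoc] at this
    exact_mod_cast this.symm
  unfold mainT cls mu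
  simp only
  generalize j.1 % (q₀ * N) = x at *
  generalize j.2 % (q₀ * N) = y at *
  generalize (N : ℤ) * (j.1 / (q₀ * N) : ℕ) = u at *
  generalize (N : ℤ) * (j.2 / (q₀ * N) : ℕ) = w at *
  have e : Int.gcd ((i.1 : ℤ) * j.2 - i.2 * j.1) q₀ = Int.gcd ((i.1 : ℤ) * y - i.2 * x) q₀ := by
    rw [← Int.gcd_add_mul_left_left q₀ ((i.1 : ℤ) * y - i.2 * x) (i.1 * w - i.2 * u), a1, a2]
    congr 1
    ring
  rw [e]
  congr 1
  refine TT_congr η A ((Int.gcd_dvd_right _ _).trans ⟨mat i 0 0 * w - mat i 0 1 * u, ?_⟩)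
  rw [a1, a2]
  ring

theorem norm_mainT {q₀ : ℕ} (hq : 0 < q₀) (hη : ∀ M, ‖η M‖ ≤ 1) (i j : ℕ × ℕ) :
    ‖mainT η A q₀ i j‖ ≤ q₀ * (A.card : ℝ) ^ 2 := by
  rw [mainT, norm_mul, Complex.norm_natCast]
  refine mul_le_mul ?_ (norm_TT_le_sq hη _ _ _) (norm_nonneg _) (by positivity)
  have : Int.gcd ((i.1 : ℤ) * j.2 - i.2 * j.1) q₀ ≤ q₀ := by
    refine Nat.le_of_dvd hq ?_
    exact_mod_cast Int.gcd_dvd_right ((i.1 : ℤ) * j.2 - i.2 * j.1) q₀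
  exact_mod_cast this

theorem mem_Lv {P Q : ℕ} {i : ℕ × ℕ} : i ∈ Lv P Q ↔
    i ∈ box Q ∧ Nat.Coprime i.1 i.2 ∧ Q < i.1 + i.2 ∧ P < i.1 ∧ P < i.2 := by
  simp only [Lv, Fy, mem_filter, and_assoc]

theorem good_sum (Hs : Sym s N n θ) (C : Coef η A X H) {B P Q q₀ D₀ T : ℕ} (hP : 0 < P)
    (hQ : Q * H < X) (hB : X + H ≤ P * B) (q0 : 0 < q₀) (hq₀ : ∀ d, 0 < d → d ≤ D₀ → d ∣ q₀)
    (hT : 0 < T) (ρ : ℕ × ℕ) {E Rm : ℝ}
    (hE : ∀ σ ∈ range (q₀ * N) ×ˢ range (q₀ * N), ∀ K ⊆ box Q, OC K →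
      ‖∑ j ∈ K, if cls (q₀ * N) j = σ then tt s N ρ j else 0‖ ≤ E)
    {i : ℕ × ℕ} (hi : i ∈ Lv P Q)
    (hR : ∀ K ⊆ box Q, (∀ j ∈ K, j.1 < i.1 ∧ i.2 < j.2) →
      ∑ d ∈ Ioc D₀ (Q ^ 2), FF η A d * ww i K d ≤ Rm) :
    ‖∑ j ∈ ((Lv P Q).filter fun j => cls N j = ρ) with j.1 < i.1 ∧ i.2 < j.2,
      tt s N ρ j * Tp η B i j‖ ≤
      ((q₀ * N : ℕ) : ℝ) ^ 2 * (q₀ * (A.card : ℝ) ^ 2 * (T / (P : ℝ) ^ 2 + E / T)) + Rm := by
  obtain ⟨i1, i2, -, i3, i4⟩ := mem_Lv.1 hi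
  set G := ((Lv P Q).filter fun j => cls N j = ρ).filter fun j => j.1 < i.1 ∧ i.2 < j.2 with hG
  have hGm : ∀ j ∈ G, (j ∈ Lv P Q ∧ cls N j = ρ) ∧ j.1 < i.1 ∧ i.2 < j.2 := fun j hj => by
    simpa only [hG, mem_filter] using hj
  have hGb : G ⊆ box Q := fun j hj => (mem_Lv.1 (hGm j hj).1.1).1
  set K := (box Q).filter fun j => (Q < j.1 + j.2 ∧ P < j.1 ∧ P < j.2) ∧ j.1 < i.1 ∧ i.2 < j.2
    with hK
  have hKoc : OC K := by
    constructor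
    · intro x₁ x x₂ y h1 h2 l1 l2
      simp only [hK, mem_filter, mem_box] at h1 h2 ⊢
      omega
    · intro x y₁ y y₂ h1 h2 l1 l2
      simp only [hK, mem_filter, mem_box] at h1 h2 ⊢
      omega
  have htt : ∀ j, ‖tt s N ρ j‖ ≤ 1 := fun j => Hs.eqv.bdd _
  have e1 : ∑ j ∈ G, tt s N ρ j * Tp η B i j =
      ∑ j ∈ G, tt s N ρ j * (mainT η A q₀ i j / dl i j) +
        ∑ j ∈ G, tt s N ρ j * (Tp η B i j - mainT η A q₀ i j / dl i j) := by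
    rw [← sum_add_distrib]
    exact sum_congr rfl fun j _ => by ring
  have e2 : ∑ j ∈ G, tt s N ρ j * (mainT η A q₀ i j / dl i j) =
      ∑ j ∈ K, (if cls N j = ρ then mainT η A q₀ i j else 0) * (tt s N ρ j / dl i j) := by
    have hsub : G ⊆ K := fun j hj => by
      obtain ⟨⟨a1, -⟩, a2⟩ := hGm j hj
      obtain ⟨b1, -, b2⟩ := mem_Lv.1 a1
      exact mem_filter.2 ⟨b1, b2, a2⟩
    rw [← sum_subset hsub fun j hj hn => ?_]
    · refine sum_congr rfl fun j hj => ?_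
      rw [if_pos (hGm j hj).1.2]
      ring
    · split_ifs with h
      · obtain ⟨b1, b2, b3⟩ := mem_filter.1 hj
        rw [Hs.tt_zero ρ fun hc => hn (mem_filter.2 ⟨mem_filter.2 ⟨mem_Lv.2 ⟨b1, hc, b2⟩, h⟩, b3⟩)]
        simp
      · simp
  rw [e1, e2]
  refine (norm_add_le _ _).trans (add_le_add ?_ ?_)
  · refine class_sum (Nat.mul_pos q0 Hs.eqv.N_pos) K (fun j => ?_) (fun j => ?_) fun σ hσ => ?_
    · have : cls N (cls (q₀ * N) j) = cls N j := by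
        simp only [cls, Nat.mod_mul_left_mod]
      rw [this, ← mainT_cls]
    · split_ifs
      · exact norm_mainT q0 C.bdd i j
      · rw [norm_zero]
        positivity
    · have := weighted hP i1 i3.le i4.le (filter_subset _ _) hKoc
        (fun j hj => (mem_filter.1 hj).2.2)
        (f := fun j => if cls (q₀ * N) j = σ then tt s N ρ j else 0)
        (fun j => by split_ifs <;> simp [htt]) (hE σ hσ) hT
      simpa only [ite_div, zero_div] using this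
  · refine le_trans ?_ (hR G hGb fun j hj => (hGm j hj).2)
    rw [← rem_swap i1 hGb fun j hj => (hGm j hj).2]
    refine (norm_sum_le _ _).trans (sum_le_sum fun j hj => ?_)
    obtain ⟨⟨a1, -⟩, a2, a3⟩ := hGm j hj
    obtain ⟨b1, b2, -⟩ := mem_Lv.1 a1
    rw [norm_mul, C.Tp_good hQ hB i1 i2 i3.le i4.le b1 a2 a3, mainT, ← dl_cast a2 a3,
      Int.gcd_natCast_natCast]
    exact (mul_le_of_le_one_left (norm_nonneg _) (htt j)).trans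
      (TT_expand η A (dl_pos a2 a3) hq₀ (mu_coprime i2 b2 a2 a3))

theorem herm_split (L : Finset (ℕ × ℕ)) (τ : ℕ × ℕ → ℕ × ℕ → ℂ)
    (hτ : ∀ i j, ‖τ j i‖ = ‖τ i j‖ ∧ τ j i = (starRingEnd ℂ) (τ i j)) {a b : ℝ}
    (ha : ∀ i ∈ L, ‖∑ j ∈ L with j.1 < i.1 ∧ i.2 < j.2, τ i j‖ ≤ a)
    (hb : ∀ i ∈ L, ∑ j ∈ L with ¬ (j.1 < i.1 ∧ i.2 < j.2) ∧ ¬ (i.1 < j.1 ∧ j.2 < i.2),
      ‖τ i j‖ ≤ b) : ‖∑ i ∈ L, ∑ j ∈ L, τ i j‖ ≤ L.card * (b + 2 * a) := by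
  have e1 : ∀ i, ∑ j ∈ L, τ i j = (∑ j ∈ L with j.1 < i.1 ∧ i.2 < j.2, τ i j) +
      (∑ j ∈ L with i.1 < j.1 ∧ j.2 < i.2, τ i j) +
      ∑ j ∈ L with ¬ (j.1 < i.1 ∧ i.2 < j.2) ∧ ¬ (i.1 < j.1 ∧ j.2 < i.2), τ i j := by
    intro i
    simp only [sum_filter, ← sum_add_distrib]
    refine sum_congr rfl fun j _ => ?_
    by_cases h1 : j.1 < i.1 ∧ i.2 < j.2
    · have h2 : ¬ (i.1 < j.1 ∧ j.2 < i.2) := by omega
      simp [h1, h2]
    · by_cases h2 : i.1 < j.1 ∧ j.2 < i.2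
      · simp only [h1, h2]
        simp
      · simp only [h1, h2]
        simp
  have e2 : ∑ i ∈ L, ∑ j ∈ L with i.1 < j.1 ∧ j.2 < i.2, τ i j =
      (starRingEnd ℂ) (∑ i ∈ L, ∑ j ∈ L with j.1 < i.1 ∧ i.2 < j.2, τ i j) := by
    simp only [sum_filter, map_sum]
    rw [sum_comm]
    refine sum_congr rfl fun i _ => sum_congr rfl fun j _ => ?_
    split_ifs
    · exact (hτ i j).2
    · simp
  have b1 : ‖∑ i ∈ L, ∑ j ∈ L with j.1 < i.1 ∧ i.2 < j.2, τ i j‖ ≤ L.card * a := by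
    refine (norm_sum_le _ _).trans ((sum_le_card_nsmul _ _ a ha).trans ?_)
    rw [nsmul_eq_mul]
  have b2 : ‖∑ i ∈ L, ∑ j ∈ L with ¬ (j.1 < i.1 ∧ i.2 < j.2) ∧ ¬ (i.1 < j.1 ∧ j.2 < i.2),
      τ i j‖ ≤ L.card * b := by
    refine (norm_sum_le _ _).trans ((sum_le_card_nsmul _ _ b fun i hi =>
      (norm_sum_le _ _).trans (hb i hi)).trans ?_)
    rw [nsmul_eq_mul]
  simp only [e1, sum_add_distrib]
  rw [e2]
  refine (norm_add_le _ _).trans ?_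
  have := norm_add_le (∑ i ∈ L, ∑ j ∈ L with j.1 < i.1 ∧ i.2 < j.2, τ i j)
    ((starRingEnd ℂ) (∑ i ∈ L, ∑ j ∈ L with j.1 < i.1 ∧ i.2 < j.2, τ i j))
  rw [Complex.norm_conj] at this
  linarith

theorem core (Hs : Sym s N n θ) (C : Coef η A X H) {B P Q q₀ D₀ T : ℕ} (hP : 0 < P)
    (hQ : Q * H < X) (hB : X + H ≤ P * B) (q0 : 0 < q₀) (hq₀ : ∀ d, 0 < d → d ≤ D₀ → d ∣ q₀)
    (hT : 0 < T) {E Rm Z : ℝ} (E0 : 0 ≤ E) (R0 : 0 ≤ Rm) (Z0 : 0 ≤ Z)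
    (hE : ∀ ρ ∈ range N ×ˢ range N, ∀ σ ∈ range (q₀ * N) ×ˢ range (q₀ * N), ∀ K ⊆ box Q, OC K →
      ‖∑ j ∈ K, if cls (q₀ * N) j = σ then tt s N ρ j else 0‖ ≤ E)
    (hR : ∀ i ∈ Lv P Q, ∀ K ⊆ box Q, (∀ j ∈ K, j.1 < i.1 ∧ i.2 < j.2) →
      ∑ d ∈ Ioc D₀ (Q ^ 2), FF η A d * ww i K d ≤ Rm)
    (hZ : ((B : ℝ) + 1) ^ 2 * ((Q : ℝ) ^ 2 * (A.card * (((X + H : ℝ) / (P : ℝ) ^ 2 + 1) +
      2 * (2 * (H / P) * (1 + Real.log Q) + Q)) + 2 * (((q₀ * N : ℕ) : ℝ) ^ 2 *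
        (q₀ * (A.card : ℝ) ^ 2 * (T / (P : ℝ) ^ 2 + E / T)) + Rm))) ≤ Z ^ 2) :
    ‖∑ M ∈ A, η M * ∑ i ∈ Lv P Q, segSum s (mat i) i.1 i.2 M‖ ≤ (N : ℝ) ^ 2 * Z := by
  have N0 := Hs.eqv.N_pos
  have e1 : ∑ M ∈ A, η M * ∑ i ∈ Lv P Q, segSum s (mat i) i.1 i.2 M =
      ∑ i ∈ Lv P Q, ∑ v ∈ UU B, η (lin i v) * s (act (mat i) (v.1, v.2)) := by
    simp only [mul_sum]
    rw [sum_comm]
    refine sum_congr rfl fun i hi => ?_
    obtain ⟨-, -, -, i3, i4⟩ := mem_Lv.1 hi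
    rw [← sum_filter_of_ne (p := fun v => lin i v ∈ A) (s := UU B) fun v _ h => by
      by_contra h2
      exact h (by rw [C.supp _ h2, zero_mul]),
      ← sum_fiberwise_of_maps_to (s := (UU B).filter fun v => lin i v ∈ A) (t := A) (g := lin i)
        fun v hv => (mem_filter.1 hv).2]
    refine sum_congr rfl fun M hM => ?_
    rw [segSum, mul_sum]
    refine sum_congr ?_ fun v hv => by rw [(mem_filter.1 hv).2]
    ext v
    rw [mem_seg (by omega) (by omega), mem_filter, mem_filter, mem_UU]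
    constructor
    · rintro ⟨h1, h2⟩
      have a1 := (mem_Ico.1 (C.sub hM)).2
      have g1 := Nat.mul_le_mul_right v.1 i3.le
      have g2 := Nat.mul_le_mul_right v.2 i4.le
      have g3 : v.1 < B := lt_of_mul_lt_mul_left (a := P) (by omega) (Nat.zero_le _)
      have g4 : v.2 < B := lt_of_mul_lt_mul_left (a := P) (by omega) (Nat.zero_le _)
      have h3 : lin i v = M := h2
      exact ⟨⟨⟨⟨h1, g3.le⟩, g4.le⟩, h3 ▸ hM⟩, h3⟩
    · rintro ⟨⟨⟨⟨h1, -⟩, -⟩, -⟩, h2⟩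
      exact ⟨h1, h2⟩
  rw [e1, ← sum_fiberwise_of_maps_to (g := cls N) fun i _ => cls_mem N0 i]
  refine (norm_sum_le _ _).trans ((sum_le_card_nsmul _ _ Z fun ρ hρ => ?_).trans (by simp [sq]))
  set L := (Lv P Q).filter fun i => cls N i = ρ with hL
  set Y : ℕ × ℕ → ℂ := fun v => ∑ i ∈ L, (starRingEnd ℂ) (tt s N ρ i) * η (lin i v) with hY
  have e2 : ∑ i ∈ L, ∑ v ∈ UU B, η (lin i v) * s (act (mat i) (v.1, v.2)) =
      ∑ v ∈ UU B, s (act (rep N ρ) (v.1, v.2)) * Y v := by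
    simp only [hY, mul_sum]
    rw [sum_comm]
    refine sum_congr rfl fun v _ => sum_congr rfl fun i hi => ?_
    obtain ⟨a1, a2⟩ := mem_filter.1 hi
    rw [Hs.factor (mem_Lv.1 a1).2.1, a2]
    ring
  have e3 : ((∑ v ∈ UU B, ‖Y v‖ ^ 2 : ℝ) : ℂ) = ∑ i ∈ L, ∑ j ∈ L,
      (starRingEnd ℂ) (tt s N ρ i) * (tt s N ρ j * Tp η B i j) := by
    have h1 : ∀ v, ((‖Y v‖ : ℝ) : ℂ) ^ 2 = ∑ i ∈ L, ∑ j ∈ L, (starRingEnd ℂ) (tt s N ρ i) *
        (tt s N ρ j * (η (lin i v) * (starRingEnd ℂ) (η (lin j v)))) := by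
      intro v
      rw [← Complex.mul_conj']
      simp only [hY]
      rw [map_sum, sum_mul_sum]
      refine sum_congr rfl fun i _ => sum_congr rfl fun j _ => ?_
      rw [map_mul, Complex.conj_conj]
      ring
    push_cast
    simp only [h1, Tp, mul_sum]
    rw [sum_comm]
    refine sum_congr rfl fun i _ => ?_
    rw [sum_comm]
  have htt : ∀ j, ‖tt s N ρ j‖ ≤ 1 := fun j => Hs.eqv.bdd _
  have hLb : L ⊆ box Q := fun i hi => (mem_Lv.1 (mem_filter.1 hi).1).1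
  have b1 := herm_split L (fun i j => (starRingEnd ℂ) (tt s N ρ i) * (tt s N ρ j * Tp η B i j))
    (fun i j => by
      have : (starRingEnd ℂ) (tt s N ρ j) * (tt s N ρ i * Tp η B j i) = (starRingEnd ℂ)
          ((starRingEnd ℂ) (tt s N ρ i) * (tt s N ρ j * Tp η B i j)) := by
        rw [Tp_conj η B i j, map_mul, map_mul, Complex.conj_conj]
        ring
      exact ⟨by rw [this, Complex.norm_conj], this⟩)
    (a := ((q₀ * N : ℕ) : ℝ) ^ 2 * (q₀ * (A.card : ℝ) ^ 2 * (T / (P : ℝ) ^ 2 + E / T)) + Rm)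
    (b := A.card * (((X + H : ℝ) / (P : ℝ) ^ 2 + 1) + 2 * (2 * (H / P) * (1 + Real.log Q) + Q)))
    (fun i hi => by
      rw [← mul_sum, norm_mul, Complex.norm_conj]
      exact (mul_le_of_le_one_left (norm_nonneg _) (htt i)).trans
        (good_sum Hs C hP hQ hB q0 hq₀ hT ρ (hE ρ hρ) (mem_filter.1 hi).1
          (hR i (mem_filter.1 hi).1)))
    (fun i hi => by
      obtain ⟨i1, i2, -, i3, i4⟩ := mem_Lv.1 (mem_filter.1 hi).1
      refine le_trans (sum_le_sum fun j _ => ?_) (C.rest B hP hQ i1 i2 i3.le i4.le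
        ((filter_subset _ _).trans hLb) fun j hj => (mem_filter.1 hj).2)
      rw [norm_mul, norm_mul, Complex.norm_conj]
      exact (mul_le_of_le_one_left (by positivity) (htt i)).trans
        (mul_le_of_le_one_left (norm_nonneg _) (htt j)))
  rw [← e3, Complex.norm_real, Real.norm_of_nonneg (sum_nonneg fun _ _ => by positivity)] at b1
  have b2 : ‖∑ v ∈ UU B, s (act (rep N ρ) (v.1, v.2)) * Y v‖ ≤ ∑ v ∈ UU B, 1 * ‖Y v‖ := by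
    refine (norm_sum_le _ _).trans (sum_le_sum fun v _ => ?_)
    rw [norm_mul]
    exact mul_le_mul_of_nonneg_right (Hs.eqv.bdd _) (norm_nonneg _)
  have b3 := (pow_le_pow_left₀ (norm_nonneg _) b2 2).trans (sum_mul_sq_le_sq_mul_sq _ _ _)
  simp only [one_pow, sum_const, nsmul_eq_mul, mul_one] at b3
  have b4 : ((UU B).card : ℝ) ≤ ((B : ℝ) + 1) ^ 2 := by
    simp only [UU, card_product, Nat.card_Icc, Nat.add_sub_cancel, card_range]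
    push_cast
    nlinarith [Nat.cast_nonneg (α := ℝ) B]
  have b5 : (L.card : ℝ) ≤ (Q : ℝ) ^ 2 := by
    have := card_le_card hLb
    rw [card_box] at this
    exact_mod_cast this
  have l0 : 0 ≤ Real.log Q := Real.log_natCast_nonneg Q
  rw [e2]
  refine (pow_le_pow_iff_left₀ (norm_nonneg _) Z0 two_ne_zero).1 ?_
  refine b3.trans (le_trans ?_ hZ)
  refine mul_le_mul b4 (b1.trans ?_) (sum_nonneg fun _ _ => by positivity) (by positivity)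
  exact mul_le_mul_of_nonneg_right b5 (by positivity)

end Pool.Agent.P.MP_99daa8_nt.SI
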