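import Mathlib

/-!
Sparse sets of denominators.
-/

namespace Pool.Agent.P.MP_99daa8_nt.SI

open Finset Filter

open Classical in
/-- `E` has `o(H)` elements in `[X, X + H)`, uniformly for `√X (log X)² ≤ H ≤ X`. -/
def RareInShortIntervals (E : Set ℕ) : Prop :=
  ∀ ε : ℝ, 0 < ε → ∀ᶠ X : ℕ in atTop, ∀ H : ℕ, √X * Real.log X ^ 2 ≤ H → H ≤ X →
    (((Ico X (X + H)).filter fun M => M ∈ E).card : ℝ) ≤ ε * H

open Classical in
/-- `E` contains `o(H / log X)` primes of `[X, X + H)`, uniformly for `√X (log X)³ ≤ H ≤ X`. -/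
def RareAmongPrimes (E : Set ℕ) : Prop :=
  ∀ ε : ℝ, 0 < ε → ∀ᶠ X : ℕ in atTop, ∀ H : ℕ, √X * Real.log X ^ 3 ≤ H → H ≤ X →
    (((Ico X (X + H)).filter fun M => M.Prime ∧ M ∈ E).card : ℝ) ≤ ε * (H / Real.log X)

end Pool.Agent.P.MP_99daa8_nt.SI
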