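import Mathlib

/-!
Exponential sums and a large sieve inequality (with a logarithmic loss).
-/

namespace Pool.Agent.P.MP_99daa8_nt.SI

open Finset
open scoped Real

/-- `exp (2 π i x)`. -/
noncomputable def ee (x : ℝ) : ℂ := Complex.exp (Complex.I * ((2 * π * x : ℝ) : ℂ))

theorem ee_add (x y : ℝ) : ee (x + y) = ee x * ee y := by
  unfold ee
  rw [← Complex.exp_add]
  congr 1
  push_cast
  ring

theorem ee_zero : ee 0 = 1 := by simp [ee]

theorem norm_ee (x : ℝ) : ‖ee x‖ = 1 := by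
  unfold ee
  rw [mul_comm]
  exact Complex.norm_exp_ofReal_mul_I _

theorem conj_ee (x : ℝ) : (starRingEnd ℂ) (ee x) = ee (-x) := by
  unfold ee
  rw [← Complex.exp_conj, map_mul, Complex.conj_I, Complex.conj_ofReal]
  congr 1
  push_cast
  ring

theorem ee_int (k : ℤ) : ee k = 1 := by
  unfold ee
  have := Complex.exp_int_mul_two_pi_mul_I k
  rw [← this]
  congr 1
  push_cast
  ring

theorem ee_add_int (x : ℝ) (k : ℤ) : ee (x + k) = ee x := by
  rw [ee_add, ee_int, mul_one]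

theorem ee_nat_mul (n : ℕ) (x : ℝ) : ee (n * x) = ee x ^ n := by
  induction n with
  | zero => simp [ee_zero]
  | succ n ih =>
    rw [pow_succ, ← ih, ← ee_add]
    congr 1
    push_cast
    ring

theorem norm_ee_sub_one (x : ℝ) : ‖ee x - 1‖ = 2 * |Real.sin (π * x)| := by
  unfold ee
  rw [Complex.norm_exp_I_mul_ofReal_sub_one, Real.norm_eq_abs, abs_mul, abs_two]
  congr 3
  ring

theorem sin_lower {f : ℝ} (h0 : 0 ≤ f) (h1 : f ≤ 1) : 2 * (f * (1 - f)) ≤ Real.sin (π * f) := by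
  have key : ∀ g : ℝ, 0 ≤ g → g ≤ 1 / 2 → 2 * g ≤ Real.sin (π * g) := by
    intro g g0 g1
    have h := Real.mul_le_sin (x := π * g) (by positivity) (by nlinarith [Real.pi_pos])
    have e : 2 / π * (π * g) = 2 * g := by field_simp
    linarith
  rcases le_total f (1 / 2) with h | h
  · have := key f h0 h
    nlinarith
  · have h2 := key (1 - f) (by linarith) (by linarith)
    have e : Real.sin (π * (1 - f)) = Real.sin (π * f) := by
      rw [mul_sub, mul_one, Real.sin_pi_sub]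
    rw [e] at h2
    nlinarith

theorem ee_fract (x : ℝ) : ee (Int.fract x) = ee x := by
  have : x = Int.fract x + (⌊x⌋ : ℤ) := (Int.fract_add_floor x).symm
  conv_rhs => rw [this]
  rw [ee_add_int]

theorem ee_ne_one {x : ℝ} (hx : Int.fract x ≠ 0) : ee x ≠ 1 := by
  intro h
  have f0 : 0 < Int.fract x := lt_of_le_of_ne (Int.fract_nonneg x) (Ne.symm hx)
  have f1 := Int.fract_lt_one x
  have h1 := norm_ee_sub_one (Int.fract x)
  rw [ee_fract, h, sub_self, norm_zero] at h1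
  have h2 := sin_lower f0.le f1.le
  have h3 : 0 < Int.fract x * (1 - Int.fract x) := mul_pos f0 (by linarith)
  have h4 := le_abs_self (Real.sin (π * Int.fract x))
  linarith

theorem geo_dvd {q : ℕ} (hq : 0 < q) (m : ℤ) :
    ∑ a ∈ range q, ee (a * (m / q : ℝ)) = if (q : ℤ) ∣ m then (q : ℂ) else 0 := by
  have hq' : (q : ℝ) ≠ 0 := by positivity
  simp only [ee_nat_mul]
  split_ifs with h
  · obtain ⟨k, rfl⟩ := h
    have : (((q : ℤ) * k : ℤ) : ℝ) / q = k := by
      push_cast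
      field_simp
    rw [this, ee_int]
    simp
  · have h1 : ee (m / q : ℝ) ≠ 1 := by
      refine ee_ne_one fun h0 => h ?_
      rw [Int.fract_eq_iff] at h0
      obtain ⟨-, -, k, hk⟩ := h0
      refine ⟨k, ?_⟩
      have : (m : ℝ) = q * k := by
        rw [sub_zero, div_eq_iff hq'] at hk
        linarith
      exact_mod_cast this
    rw [geom_sum_eq h1, ← ee_nat_mul]
    have : (q : ℝ) * (m / q) = m := by field_simp
    rw [this, ee_int, sub_self, zero_div]

theorem geo_bound (X H : ℕ) {β : ℝ} (hβ : Int.fract β ≠ 0) :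
    ‖∑ M ∈ Ico X (X + H), ee (M * β)‖ ≤ (1 / Int.fract β + 1 / (1 - Int.fract β)) / 2 := by
  have f0 : 0 < Int.fract β := lt_of_le_of_ne (Int.fract_nonneg β) (Ne.symm hβ)
  have f1 : 0 < 1 - Int.fract β := by linarith [Int.fract_lt_one β]
  simp only [ee_nat_mul]
  rw [geom_sum_Ico (ee_ne_one hβ) (Nat.le_add_right X H), norm_div]
  have h1 : ‖ee β ^ (X + H) - ee β ^ X‖ ≤ 2 := by
    refine (norm_sub_le _ _).trans ?_
    rw [norm_pow, norm_pow, norm_ee, one_pow, one_pow]
    norm_num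
  have h2 : 4 * (Int.fract β * (1 - Int.fract β)) ≤ ‖ee β - 1‖ := by
    rw [← ee_fract β, norm_ee_sub_one]
    have := sin_lower f0.le (Int.fract_lt_one β).le
    have h4 := le_abs_self (Real.sin (π * Int.fract β))
    linarith
  have h3 : 0 < 4 * (Int.fract β * (1 - Int.fract β)) := by positivity
  calc _ ≤ 2 / (4 * (Int.fract β * (1 - Int.fract β))) := by gcongr
    _ = _ := by
      field_simp
      ring

theorem harm_le (W : ℕ) : ∑ k ∈ Icc 1 W, (1 : ℝ) / k ≤ 1 + Real.log W := by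
  have h := harmonic_le_one_add_log W
  rw [harmonic_eq_sum_Icc] at h
  push_cast at h
  simpa only [one_div] using h

/-- Reciprocals of well-spaced points of `(0, 1]`. -/
theorem spaced_sum {ι : Type*} (T : Finset ι) (f : ι → ℝ) {W : ℕ} (hW : 0 < W)
    (h0 : ∀ j ∈ T, 1 / (W : ℝ) ≤ f j) (h1 : ∀ j ∈ T, f j ≤ 1)
    (hs : ∀ j ∈ T, ∀ k ∈ T, j ≠ k → 1 / (W : ℝ) ≤ |f j - f k|) :
    ∑ j ∈ T, 1 / f j ≤ W * (1 + Real.log W) := by
  classical
  have hW' : (0 : ℝ) < W := by exact_mod_cast hW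
  set φ : ι → ℕ := fun j => ⌊W * f j⌋₊ with hφ
  have hge : ∀ j ∈ T, (1 : ℝ) ≤ W * f j := fun j hj => by
    have := h0 j hj
    rw [div_le_iff₀ hW'] at this
    linarith
  have hφ1 : ∀ j ∈ T, φ j ∈ Icc 1 W := fun j hj => by
    refine mem_Icc.2 ⟨Nat.le_floor (by simpa using hge j hj), Nat.floor_le_of_le ?_⟩
    have := h1 j hj
    nlinarith
  have hinj : Set.InjOn φ (T : Set ι) := by
    intro j hj k hk e
    by_contra hne
    have h2 := hs j hj k hk hne
    have a1 := Nat.floor_le (le_trans zero_le_one (hge j hj))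
    have a2 := Nat.lt_floor_add_one (W * f j)
    have a3 := Nat.floor_le (le_trans zero_le_one (hge k hk))
    have a4 := Nat.lt_floor_add_one (W * f k)
    simp only [hφ] at e
    rw [e] at a1 a2
    rw [div_le_iff₀ hW'] at h2
    have : |f j - f k| * W < 1 := by
      rw [← abs_of_pos hW', ← abs_mul, abs_lt]
      constructor <;> nlinarith
    linarith
  calc ∑ j ∈ T, 1 / f j ≤ ∑ j ∈ T, W * (1 / (φ j : ℝ)) := by
        refine sum_le_sum fun j hj => ?_
        have a1 := Nat.floor_le (le_trans zero_le_one (hge j hj))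
        have a2 : (1 : ℝ) ≤ φ j := by exact_mod_cast (mem_Icc.1 (hφ1 j hj)).1
        have a3 : 0 < f j := lt_of_lt_of_le (by positivity) (h0 j hj)
        rw [mul_one_div, div_le_div_iff₀ a3 (by linarith)]
        simp only [hφ]
        linarith
    _ = W * ∑ k ∈ T.image φ, (1 : ℝ) / k := by
        rw [sum_image hinj, mul_sum]
    _ ≤ W * ∑ k ∈ Icc 1 W, (1 : ℝ) / k := by
        refine mul_le_mul_of_nonneg_left (sum_le_sum_of_subset_of_nonneg ?_ fun _ _ _ => ?_) hW'.le
        · intro k hk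
          obtain ⟨j, hj, rfl⟩ := mem_image.1 hk
          exact hφ1 j hj
        · positivity
    _ ≤ _ := mul_le_mul_of_nonneg_left (harm_le W) hW'.le

/-- The exponential sum with coefficients `η` on the set `A`. -/
noncomputable def SS (η : ℕ → ℂ) (A : Finset ℕ) (α : ℝ) : ℂ := ∑ M ∈ A, η M * ee (M * α)

theorem SS_add_int (η : ℕ → ℂ) (A : Finset ℕ) (α : ℝ) (k : ℤ) : SS η A (α + k) = SS η A α := by
  unfold SS
  refine sum_congr rfl fun M _ => ?_
  have : (M : ℝ) * (α + k) = M * α + ((M * k : ℤ) : ℝ) := by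
    push_cast
    ring
  rw [this, ee_add_int]

theorem row_bound {ι : Type*} (T : Finset ι) (α : ι → ℝ) {W : ℕ} (hW : 0 < W) (X H : ℕ)
    (hs : ∀ i ∈ T, ∀ j ∈ T, i ≠ j → ∀ k : ℤ, 1 / (W : ℝ) ≤ |α i - α j - k|) {i : ι} (hi : i ∈ T) :
    ∑ j ∈ T, ‖∑ M ∈ Ico X (X + H), ee (M * (α i - α j))‖ ≤ H + W * (1 + Real.log W) := by
  classical
  have hW' : (0 : ℝ) < 1 / (W : ℝ) := by positivity
  rw [← add_sum_erase T _ hi]
  refine add_le_add ?_ ?_
  · simp [ee_zero]
  · have hf : ∀ j ∈ T.erase i, 1 / (W : ℝ) ≤ Int.fract (α i - α j) ∧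
        1 / (W : ℝ) ≤ 1 - Int.fract (α i - α j) := by
      intro j hj
      obtain ⟨h1, h2⟩ := mem_erase.1 hj
      have a1 := hs i hi j h2 h1.symm ⌊α i - α j⌋
      have a2 := hs i hi j h2 h1.symm (⌊α i - α j⌋ + 1)
      have e : α i - α j - ⌊α i - α j⌋ = Int.fract (α i - α j) := rfl
      rw [e, abs_of_nonneg (Int.fract_nonneg _)] at a1
      have e2 : α i - α j - ((⌊α i - α j⌋ + 1 : ℤ) : ℝ) = -(1 - Int.fract (α i - α j)) := by
        rw [← e]
        push_cast
        ring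
      rw [e2, abs_neg, abs_of_nonneg (by linarith [Int.fract_lt_one (α i - α j)])] at a2
      exact ⟨a1, a2⟩
    have hd : ∀ j ∈ T.erase i, ∀ k ∈ T.erase i, j ≠ k →
        1 / (W : ℝ) ≤ |Int.fract (α i - α j) - Int.fract (α i - α k)| := by
      intro j hj k hk hne
      have := hs k (mem_erase.1 hk).2 j (mem_erase.1 hj).2 hne.symm
        (⌊α i - α j⌋ - ⌊α i - α k⌋)
      have e : Int.fract (α i - α j) - Int.fract (α i - α k) =
          α k - α j - ((⌊α i - α j⌋ - ⌊α i - α k⌋ : ℤ) : ℝ) := by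
        unfold Int.fract
        push_cast
        ring
      rwa [e]
    have b1 := spaced_sum (T.erase i) (fun j => Int.fract (α i - α j)) hW
      (fun j hj => (hf j hj).1) (fun j _ => (Int.fract_lt_one _).le) hd
    have b2 := spaced_sum (T.erase i) (fun j => 1 - Int.fract (α i - α j)) hW
      (fun j hj => (hf j hj).2) (fun j _ => by linarith [Int.fract_nonneg (α i - α j)])
      (fun j hj k hk hne => by
        have := hd j hj k hk hne
        rwa [show 1 - Int.fract (α i - α j) - (1 - Int.fract (α i - α k)) =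
          -(Int.fract (α i - α j) - Int.fract (α i - α k)) by ring, abs_neg])
    calc _ ≤ ∑ j ∈ T.erase i,
          (1 / Int.fract (α i - α j) + 1 / (1 - Int.fract (α i - α j))) / 2 :=
          sum_le_sum fun j hj => geo_bound X H (lt_of_lt_of_le hW' (hf j hj).1).ne'
      _ ≤ _ := by
          rw [← sum_div, sum_add_distrib]
          linarith

/-- The large sieve inequality with a logarithmic loss. -/
theorem large_sieve {ι : Type*} (T : Finset ι) (α : ι → ℝ) {W : ℕ} (hW : 0 < W) {X H : ℕ}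
    (hs : ∀ i ∈ T, ∀ j ∈ T, i ≠ j → ∀ k : ℤ, 1 / (W : ℝ) ≤ |α i - α j - k|)
    {η : ℕ → ℂ} (hη : ∀ M, ‖η M‖ ≤ 1) {A : Finset ℕ} (hA : A ⊆ Ico X (X + H)) :
    ∑ i ∈ T, ‖SS η A (α i)‖ ^ 2 ≤ A.card * (H + W * (1 + Real.log W)) := by
  set B : ℝ := H + W * (1 + Real.log W) with hB
  set Y : ℝ := ∑ i ∈ T, ‖SS η A (α i)‖ ^ 2 with hY
  set c : ι → ℂ := fun i => (starRingEnd ℂ) (SS η A (α i)) with hc
  set Z : ℕ → ℂ := fun M => ∑ i ∈ T, c i * ee (M * α i) with hZ
  have Y0 : 0 ≤ Y := sum_nonneg fun _ _ => by positivity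
  have B0 : 0 ≤ B := by
    have : 0 ≤ Real.log W := Real.log_natCast_nonneg W
    positivity
  have e1 : (Y : ℂ) = ∑ M ∈ A, η M * Z M := by
    simp only [hY, hZ, mul_sum]
    rw [sum_comm]
    push_cast
    refine sum_congr rfl fun i _ => ?_
    rw [← Complex.conj_mul']
    conv_lhs => rw [SS, mul_sum]
    refine sum_congr rfl fun M _ => ?_
    simp only [hc, SS]
    ring
  have e2 : Y ≤ ∑ M ∈ A, 1 * ‖Z M‖ := by
    have : Y = ‖(Y : ℂ)‖ := by rw [Complex.norm_real, Real.norm_of_nonneg Y0]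
    rw [this, e1]
    refine (norm_sum_le _ _).trans (sum_le_sum fun M _ => ?_)
    rw [norm_mul]
    exact mul_le_mul_of_nonneg_right (hη M) (norm_nonneg _)
  have e3 : Y ^ 2 ≤ A.card * ∑ M ∈ Ico X (X + H), ‖Z M‖ ^ 2 := by
    refine (pow_le_pow_left₀ Y0 e2 2).trans ((sum_mul_sq_le_sq_mul_sq _ _ _).trans ?_)
    simp only [one_pow, sum_const, nsmul_eq_mul, mul_one]
    exact mul_le_mul_of_nonneg_left
      (sum_le_sum_of_subset_of_nonneg hA fun _ _ _ => by positivity) (by positivity)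
  have e4 : ((∑ M ∈ Ico X (X + H), ‖Z M‖ ^ 2 : ℝ) : ℂ) = ∑ i ∈ T, ∑ j ∈ T,
      c i * (starRingEnd ℂ) (c j) * ∑ M ∈ Ico X (X + H), ee (M * (α i - α j)) := by
    have h1 : ∀ M : ℕ, ((‖Z M‖ : ℝ) : ℂ) ^ 2 = ∑ i ∈ T, ∑ j ∈ T,
        c i * (starRingEnd ℂ) (c j) * ee (M * (α i - α j)) := by
      intro M
      rw [← Complex.mul_conj']
      simp only [hZ]
      rw [map_sum, sum_mul_sum]
      refine sum_congr rfl fun i _ => sum_congr rfl fun j _ => ?_
      rw [map_mul, conj_ee, show (M : ℝ) * (α i - α j) = M * α i + -(M * α j) by ring, ee_add]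
      ring
    push_cast
    simp only [h1, mul_sum]
    rw [sum_comm]
    refine sum_congr rfl fun i _ => ?_
    rw [sum_comm]
  have hK : ∀ i j, ‖∑ M ∈ Ico X (X + H), ee (M * (α i - α j))‖ =
      ‖∑ M ∈ Ico X (X + H), ee (M * (α j - α i))‖ := by
    intro i j
    rw [← Complex.norm_conj, map_sum]
    simp only [conj_ee]
    congr 1
    refine sum_congr rfl fun M _ => ?_
    congr 1
    ring
  have e5 : ∑ M ∈ Ico X (X + H), ‖Z M‖ ^ 2 ≤ B * Y := by
    have h0 : 0 ≤ ∑ M ∈ Ico X (X + H), ‖Z M‖ ^ 2 := sum_nonneg fun _ _ => by positivity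
    rw [← Real.norm_of_nonneg h0, ← Complex.norm_real, e4]
    have hcn : ∀ i, ‖c i‖ = ‖SS η A (α i)‖ := fun i => Complex.norm_conj _
    calc _ ≤ ∑ i ∈ T, ∑ j ∈ T, (‖c i‖ ^ 2 * ‖∑ M ∈ Ico X (X + H), ee (M * (α i - α j))‖ +
          ‖c j‖ ^ 2 * ‖∑ M ∈ Ico X (X + H), ee (M * (α j - α i))‖) / 2 := by
          refine (norm_sum_le _ _).trans (sum_le_sum fun i _ => ?_)
          refine (norm_sum_le _ _).trans (sum_le_sum fun j _ => ?_)
          rw [norm_mul, norm_mul, Complex.norm_conj (c j), ← hK i j]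
          have := norm_nonneg (∑ M ∈ Ico X (X + H), ee (M * (α i - α j)))
          nlinarith [mul_nonneg this (sq_nonneg (‖c i‖ - ‖c j‖))]
      _ = ∑ i ∈ T, ‖c i‖ ^ 2 * ∑ j ∈ T, ‖∑ M ∈ Ico X (X + H), ee (M * (α i - α j))‖ := by
          simp only [← sum_div, sum_add_distrib]
          rw [sum_comm (f := fun i j =>
            ‖c j‖ ^ 2 * ‖∑ M ∈ Ico X (X + H), ee (M * (α j - α i))‖)]
          simp only [← mul_sum]
          ring
      _ ≤ ∑ i ∈ T, ‖c i‖ ^ 2 * B :=
          sum_le_sum fun i hi =>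
            mul_le_mul_of_nonneg_left (row_bound T α hW X H hs hi) (by positivity)
      _ = B * Y := by
          simp only [hcn]
          rw [← sum_mul, mul_comm]
  rcases Y0.eq_or_lt with h | h
  · rw [← h]
    positivity
  · have : Y * Y ≤ (A.card * B) * Y := by
      have := mul_le_mul_of_nonneg_left e5 (Nat.cast_nonneg (α := ℝ) A.card)
      nlinarith
    exact le_of_mul_le_mul_right this h

end Pool.Agent.P.MP_99daa8_nt.SI
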