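import Pool.Agent.P.MP_99daa8_nt.SI.Convex
import Pool.Agent.P.MP_99daa8_nt.Bessel

/-!
The Farey cut of the sum over `Σ_M`.
-/

namespace Pool.Agent.P.MP_99daa8_nt.SI

open scoped MatrixGroups
open Finset

/-- A `Γ₀(N)`-cocycle character on primitive vectors. -/
structure Sym (s : ℤ × ℤ → ℂ) (N n : ℕ) (θ : SL(2, ℤ) → ℂ) : Prop where
  eqv : Equivar s N n θ
  one : s (1, 0) = 1
  co : ∀ γ ∈ CongruenceSubgroup.Gamma0 N, ∀ v, s (act γ v) = s (act γ (1, 0)) * s v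
  prim : ∀ v : ℤ × ℤ, ¬ IsCoprime v.1 v.2 → s v = 0

/-- A matrix with bottom row `i`. -/
noncomputable def mat (i : ℕ × ℕ) : SL(2, ℤ) :=
  if h : Nat.Coprime i.1 i.2 then
    ⟨!![Nat.gcdB i.1 i.2, -Nat.gcdA i.1 i.2; i.1, i.2], by
      have := Nat.gcd_eq_gcd_ab i.1 i.2
      rw [h] at this
      rw [Matrix.det_fin_two_of]
      push_cast at this
      linear_combination -this⟩
  else 1

theorem mat_row {i : ℕ × ℕ} (h : Nat.Coprime i.1 i.2) : mat i 1 0 = i.1 ∧ mat i 1 1 = i.2 := by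
  unfold mat
  rw [dif_pos h]
  exact ⟨rfl, rfl⟩

theorem inv_entries (g : SL(2, ℤ)) :
    g⁻¹ 0 0 = g 1 1 ∧ g⁻¹ 0 1 = -g 0 1 ∧ g⁻¹ 1 0 = -g 1 0 ∧ g⁻¹ 1 1 = g 0 0 := by
  rw [Matrix.SpecialLinearGroup.SL2_inv_expl]
  exact ⟨rfl, rfl, rfl, rfl⟩

variable {s : ℤ × ℤ → ℂ} {N n : ℕ} {θ : SL(2, ℤ) → ℂ}

theorem gamma0_of {g r : SL(2, ℤ)} (h : (N : ℤ) ∣ g 1 0 * r 1 1 - g 1 1 * r 1 0) :
    g * r⁻¹ ∈ CongruenceSubgroup.Gamma0 N := by
  rw [CongruenceSubgroup.Gamma0_mem, ZMod.intCast_zmod_eq_zero_iff_dvd, mul_entry,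
    (inv_entries r).1, (inv_entries r).2.2.1]
  rwa [mul_neg, ← sub_eq_add_neg]

theorem Sym.rows (H : Sym s N n θ) {g r : SL(2, ℤ)}
    (h : (N : ℤ) ∣ g 1 0 * r 1 1 - g 1 1 * r 1 0) (v : ℤ × ℤ) :
    s (act g v) = (starRingEnd ℂ) (s (act r (g 1 1, -g 1 0))) * s (act r v) := by
  have hγ := gamma0_of h
  have h1 := H.co _ hγ (act r v)
  rw [← act_mul, inv_mul_cancel_right] at h1
  have h2 := H.co _ hγ (act (r * g⁻¹) (1, 0))
  rw [← act_mul, show g * r⁻¹ * (r * g⁻¹) = 1 by group, act_one, H.one] at h2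
  have h3 : act (r * g⁻¹) (1, 0) = act r (g 1 1, -g 1 0) := by
    rw [act_mul]
    congr 1
    simp only [act, (inv_entries g).1, (inv_entries g).2.2.1, mul_one, mul_zero, add_zero]
  rw [h3] at h2
  rw [h1]
  congr 1
  have hz := H.eqv.bdd (act (g * r⁻¹) (1, 0))
  have hw := H.eqv.bdd (act r (g 1 1, -g 1 0))
  generalize s (act (g * r⁻¹) (1, 0)) = z at *
  generalize s (act r (g 1 1, -g 1 0)) = w at *
  have h4 : ‖z‖ * ‖w‖ = 1 := by rw [← norm_mul, ← h2, norm_one]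
  have h5 : ‖w‖ = 1 := le_antisymm hw (by nlinarith [norm_nonneg w, norm_nonneg z])
  have h6 : w * (starRingEnd ℂ) w = 1 := by
    rw [Complex.mul_conj', h5]
    simp
  linear_combination (starRingEnd ℂ) w * (-h2) - z * h6

theorem Sym.same (H : Sym s N n θ) {g r : SL(2, ℤ)} (h0 : g 1 0 = r 1 0) (h1 : g 1 1 = r 1 1)
    (v : ℤ × ℤ) : s (act g v) = s (act r v) := by
  rw [H.rows (g := g) (r := r) (by rw [h0, h1, mul_comm, sub_self]; exact dvd_zero _)]
  have : act r (g 1 1, -g 1 0) = (1, 0) := by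
    have := det_eq r
    simp only [act, h0, h1, Prod.mk.injEq]
    constructor
    · linear_combination this
    · ring
  rw [this, H.one, map_one, one_mul]

/-- Denominators of neighbours in the Farey sequence of order `Q`. -/
def Fy (Q : ℕ) : Finset (ℕ × ℕ) := (box Q).filter fun i => Nat.Coprime i.1 i.2 ∧ Q < i.1 + i.2

theorem mem_Fy {Q : ℕ} {i : ℕ × ℕ} : i ∈ Fy Q ↔
    ((1 ≤ i.1 ∧ i.1 ≤ Q) ∧ 1 ≤ i.2 ∧ i.2 ≤ Q) ∧ Nat.Coprime i.1 i.2 ∧ Q < i.1 + i.2 := by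
  rw [Fy, mem_filter, mem_box]

theorem farey (Λ : ℕ → ℕ → ℂ)
    (h : ∀ c d, 0 < c → 0 < d → Nat.Coprime c d → Λ c d = Λ (c + d) d + Λ c (c + d))
    {Q : ℕ} (hQ : 1 ≤ Q) : Λ 1 1 = ∑ i ∈ Fy Q, Λ i.1 i.2 := by
  induction Q, hQ using Nat.le_induction with
  | base =>
    have : Fy 1 = {(1, 1)} := by decide
    rw [this, sum_singleton]
  | succ Q hQ ih =>
    rw [ih, ← sum_filter_add_sum_filter_not (Fy Q) (fun i => i.1 + i.2 = Q + 1),
      ← sum_filter_add_sum_filter_not (Fy (Q + 1)) (fun i => i.1 = Q + 1 ∨ i.2 = Q + 1),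
      ← sum_filter_add_sum_filter_not ((Fy (Q + 1)).filter _) (fun i => i.1 = Q + 1)]
    congr 1
    · rw [sum_congr rfl fun i hi => h i.1 i.2 (mem_Fy.1 (mem_filter.1 hi).1).1.1.1
        (mem_Fy.1 (mem_filter.1 hi).1).1.2.1 (mem_Fy.1 (mem_filter.1 hi).1).2.1, sum_add_distrib]
      congr 1
      · refine sum_nbij' (fun i => (i.1 + i.2, i.2)) (fun i => (i.1 - i.2, i.2)) ?_ ?_ ?_ ?_
          fun _ _ => rfl
        · rintro ⟨c, d⟩ hi
          simp only [mem_filter, mem_Fy] at hi ⊢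
          exact ⟨⟨⟨by omega, by simpa using hi.1.2.1, by omega⟩, by omega⟩, by omega⟩
        · rintro ⟨c, d⟩ hi
          simp only [mem_filter, mem_Fy] at hi ⊢
          have hd : d ≠ Q + 1 := by
            rintro rfl
            have h1 := hi.1.1.2.1
            rw [hi.2, Nat.coprime_self] at h1
            omega
          exact ⟨⟨by omega, (Nat.coprime_sub_self_left (by omega)).2 hi.1.1.2.1, by omega⟩,
            by omega⟩
        · rintro ⟨c, d⟩ _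
          simp
        · rintro ⟨c, d⟩ hi
          simp only [mem_filter, mem_Fy] at hi
          exact Prod.ext (by simp only; omega) rfl
      · refine sum_nbij' (fun i => (i.1, i.1 + i.2)) (fun i => (i.1, i.2 - i.1)) ?_ ?_ ?_ ?_
          fun _ _ => rfl
        · rintro ⟨c, d⟩ hi
          simp only [mem_filter, mem_Fy] at hi ⊢
          exact ⟨⟨⟨by omega, by simpa using hi.1.2.1, by omega⟩, by omega⟩, by omega⟩
        · rintro ⟨c, d⟩ hi
          simp only [mem_filter, mem_Fy] at hi ⊢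
          exact ⟨⟨by omega, (Nat.coprime_sub_self_right (by omega)).2 hi.1.1.2.1, by omega⟩,
            by omega⟩
        · rintro ⟨c, d⟩ _
          simp
        · rintro ⟨c, d⟩ hi
          simp only [mem_filter, mem_Fy] at hi
          exact Prod.ext rfl (by simp only; omega)
    · refine sum_congr ?_ fun _ _ => rfl
      ext ⟨c, d⟩
      simp only [mem_filter, mem_Fy]
      constructor
      · intro hi
        exact ⟨⟨by omega, hi.1.2.1, by omega⟩, by omega⟩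
      · intro hi
        exact ⟨⟨by omega, hi.1.2.1, by omega⟩, by omega⟩

theorem Sym.cut (H : Sym s N n θ) {Q : ℕ} (hQ : 1 ≤ Q) (M : ℕ) :
    segSum s Lm 1 1 M = ∑ i ∈ Fy Q, segSum s (mat i) i.1 i.2 M := by
  rw [← farey (fun c d => segSum s (mat (c, d)) c d M) ?_ hQ]
  · refine sum_congr rfl fun v _ => H.same ?_ ?_ _
    · rw [(mat_row (i := (1, 1)) (Nat.coprime_one_left 1)).1]
      rfl
    · rw [(mat_row (i := (1, 1)) (Nat.coprime_one_left 1)).2]
      rfl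
  · intro c d hc hd hcd
    obtain ⟨a1, a2⟩ := mat_row (i := (c, d)) hcd
    obtain ⟨a3, a4⟩ := mat_row (i := (c + d, d)) (by simpa using hcd)
    obtain ⟨a5, a6⟩ := mat_row (i := (c, c + d)) (by simpa using hcd)
    have l0 : Lm 0 0 = 1 ∧ Lm 0 1 = 0 ∧ Lm 1 0 = 1 ∧ Lm 1 1 = 1 := ⟨rfl, rfl, rfl, rfl⟩
    have r0 : Rm 0 0 = 1 ∧ Rm 0 1 = 1 ∧ Rm 1 0 = 0 ∧ Rm 1 1 = 1 := ⟨rfl, rfl, rfl, rfl⟩
    rw [segSum_split s _ hc hd]
    congr 1
    · refine sum_congr rfl fun v _ => H.same ?_ ?_ _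
      · rw [mul_entry, a1, a2, a3, l0.1, l0.2.2.1]
        push_cast
        ring
      · rw [mul_entry, a1, a2, a4, l0.2.1, l0.2.2.2]
        ring
    · refine sum_congr rfl fun v _ => H.same ?_ ?_ _
      · rw [mul_entry, a1, a2, a5, r0.1, r0.2.2.1]
        ring
      · rw [mul_entry, a1, a2, a6, r0.2.1, r0.2.2.2]
        push_cast
        ring

theorem disc_aux {P Q : ℕ} (hQ : 0 < Q) (M : ℕ) {D : Finset (ℕ × ℕ)}
    (hD : ∀ i ∈ D, (1 ≤ i.1 ∧ i.1 ≤ P) ∧ i.2 ≤ Q ∧ Q < i.1 + i.2) :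
    ∑ i ∈ D, (2 * (M : ℝ) / (i.1 * Q) + 1) ≤ 2 * M * P / Q + (P : ℝ) ^ 2 := by
  have Q0 : (0 : ℝ) < Q := by exact_mod_cast hQ
  have hsub : D ⊆ (Icc 1 P ×ˢ range (Q + 1)).filter fun i => Q < i.1 + i.2 := fun i hi => by
    have := hD i hi
    simp only [mem_filter, mem_product, mem_Icc, mem_range]
    omega
  refine (sum_le_sum_of_subset_of_nonneg hsub fun _ _ _ => by positivity).trans ?_
  rw [sum_filter, sum_product]
  calc _ ≤ ∑ _c ∈ Icc 1 P, (2 * (M : ℝ) / Q + P) := by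
        refine sum_le_sum fun c hc => ?_
        obtain ⟨c1, c2⟩ := mem_Icc.1 hc
        have c0 : (0 : ℝ) < c := by exact_mod_cast c1
        have c3 : (c : ℝ) ≤ P := by exact_mod_cast c2
        rw [← sum_filter]
        simp only [sum_const, nsmul_eq_mul]
        have h1 : (((range (Q + 1)).filter fun d => Q < c + d).card : ℝ) ≤ c := by
          have : (range (Q + 1)).filter (fun d => Q < c + d) ⊆ Ico (Q + 1 - c) (Q + 1) := by
            intro d hd
            simp only [mem_filter, mem_range, mem_Ico] at hd ⊢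
            omega
          have h2 := card_le_card this
          rw [Nat.card_Ico] at h2
          exact_mod_cast h2.trans (by omega)
        calc _ ≤ (c : ℝ) * (2 * (M : ℝ) / (c * Q) + 1) := by gcongr
          _ = 2 * (M : ℝ) / Q + c := by field_simp
          _ ≤ _ := by linarith
    _ = _ := by
        simp only [sum_const, Nat.card_Icc, Nat.add_sub_cancel, nsmul_eq_mul]
        ring

/-- The leaves with both entries larger than `P`. -/
def Lv (P Q : ℕ) : Finset (ℕ × ℕ) := (Fy Q).filter fun i => P < i.1 ∧ P < i.2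

theorem Sym.cut_err (H : Sym s N n θ) {P J : ℕ} (hP : 0 < P) (hJ : 2 ≤ J) (M : ℕ) :
    ‖segSum s Lm 1 1 M - ∑ i ∈ Lv P (J * P), segSum s (mat i) i.1 i.2 M‖ ≤
      4 * M / J + 2 * (P : ℝ) ^ 2 := by
  set Q := J * P with hQ
  have Q0 : 0 < Q := Nat.mul_pos (by omega) hP
  have Q2 : 2 * P ≤ Q := Nat.mul_le_mul_right _ hJ
  have Q1 : (0 : ℝ) < Q := by exact_mod_cast Q0
  rw [H.cut Q0, Lv, ← sum_filter_add_sum_filter_not (Fy Q) (fun i => P < i.1 ∧ P < i.2),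
    add_sub_cancel_left,
    ← sum_filter_add_sum_filter_not ((Fy Q).filter _) (fun i => i.1 ≤ P)]
  have hseg : ∀ i ∈ Fy Q, ∀ x : ℝ, 0 < x → x ≤ 2 * (i.1 * i.2) →
      ‖segSum s (mat i) i.1 i.2 M‖ ≤ 2 * (M : ℝ) / x + 1 := by
    intro i hi x x0 hx
    obtain ⟨⟨⟨a1, -⟩, a2, -⟩, a3, -⟩ := mem_Fy.1 hi
    refine (norm_segSum_le s H.eqv.bdd _ _ _ _).trans ?_
    have h1 : (i.1 : ℝ) * i.2 * (seg i.1 i.2 M).card ≤ M + i.1 * i.2 := by
      exact_mod_cast card_seg_le a1 a2 a3 M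
    have h2 : (0 : ℝ) < i.1 * i.2 := by exact_mod_cast Nat.mul_pos a1 a2
    have h3 : ((seg i.1 i.2 M).card : ℝ) ≤ M / (i.1 * i.2) + 1 := by
      rw [div_add_one h2.ne', le_div_iff₀ h2]
      linarith
    refine h3.trans (add_le_add ?_ le_rfl)
    rw [div_le_div_iff₀ h2 x0]
    nlinarith [Nat.cast_nonneg (α := ℝ) M]
  have e : 2 * (M : ℝ) * P / Q = 2 * M / J := by
    have : (P : ℝ) ≠ 0 := by positivity
    have : (J : ℝ) ≠ 0 := by positivity
    rw [hQ]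
    push_cast
    field_simp
  have b1 : ‖∑ i ∈ ((Fy Q).filter fun i => ¬ (P < i.1 ∧ P < i.2)) with i.1 ≤ P,
      segSum s (mat i) i.1 i.2 M‖ ≤ 2 * M * P / Q + (P : ℝ) ^ 2 := by
    refine le_trans ((norm_sum_le _ _).trans (sum_le_sum fun i hi => ?_)) (disc_aux Q0 M ?_)
    · obtain ⟨a1, a2⟩ := mem_filter.1 hi
      have a3 := (mem_filter.1 a1).1
      have a4 := mem_Fy.1 a3
      have a5 : (Q : ℝ) ≤ 2 * i.2 := by exact_mod_cast (by omega : Q ≤ 2 * i.2)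
      have a6 : (0 : ℝ) < i.1 := by exact_mod_cast a4.1.1.1
      exact hseg i a3 _ (by positivity) (by nlinarith)
    · intro i hi
      obtain ⟨a1, a2⟩ := mem_filter.1 hi
      have a4 := mem_Fy.1 (mem_filter.1 a1).1
      omega
  have b2 : ‖∑ i ∈ ((Fy Q).filter fun i => ¬ (P < i.1 ∧ P < i.2)) with ¬ i.1 ≤ P,
      segSum s (mat i) i.1 i.2 M‖ ≤ 2 * M * P / Q + (P : ℝ) ^ 2 := by
    refine le_trans ?_ (disc_aux (P := P) Q0 M (D := (((Fy Q).filter fun i =>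
      ¬ (P < i.1 ∧ P < i.2)).filter fun i => ¬ i.1 ≤ P).image Prod.swap) ?_)
    · rw [sum_image fun _ _ _ _ h => Prod.swap_injective h]
      refine (norm_sum_le _ _).trans (sum_le_sum fun i hi => ?_)
      obtain ⟨a1, a2⟩ := mem_filter.1 hi
      obtain ⟨a3, a7⟩ := mem_filter.1 a1
      have a4 := mem_Fy.1 a3
      have a5 : (Q : ℝ) ≤ 2 * i.1 := by exact_mod_cast (by omega : Q ≤ 2 * i.1)
      have a6 : (0 : ℝ) < i.2 := by exact_mod_cast a4.1.2.1
      exact hseg i a3 _ (by simp only [Prod.fst_swap]; positivity)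
        (by simp only [Prod.fst_swap]; nlinarith)
    · intro j hj
      obtain ⟨i, hi, rfl⟩ := mem_image.1 hj
      obtain ⟨a1, a2⟩ := mem_filter.1 hi
      obtain ⟨a3, a7⟩ := mem_filter.1 a1
      have a4 := mem_Fy.1 a3
      simp only [Prod.fst_swap, Prod.snd_swap]
      omega
  refine (norm_add_le _ _).trans ?_
  rw [e] at b1 b2
  have : 4 * (M : ℝ) / J = 2 * M / J + 2 * M / J := by ring
  linarith

end Pool.Agent.P.MP_99daa8_nt.SI
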