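import Pool.Agent.P.MP_99daa8_nt.SI.Rare
import Pool.Agent.P.MP_99daa8_nt.SI.Defs

/-!
From the character sums to the distribution of the modular symbols.
-/

namespace Pool.Agent.P.MP_99daa8_nt.SI

open scoped MatrixGroups
open Finset Filter Topology

theorem card_mult (X H : ℕ) {d : ℕ} (hd : 0 < d) :
    (((Ico X (X + H)).filter fun M => d ∣ M).card : ℝ) ≤ H / d + 1 := by
  have h1 : ((Ico X (X + H)).filter fun M => d ∣ M).card ≤ (range (H / d + 1)).card := by
    refine card_le_card_of_injOn (fun M => (M - X) / d) (fun M hM => ?_) fun M hM M' hM' e => ?_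
    · have := mem_Ico.1 (mem_filter.1 hM).1
      exact mem_coe.2 (mem_range.2 (Nat.lt_succ_of_le (Nat.div_le_div_right (by omega))))
    · obtain ⟨a1, a2⟩ := mem_filter.1 hM
      obtain ⟨a3, a4⟩ := mem_filter.1 hM'
      rw [mem_Ico] at a1 a3
      simp only at e
      have c1 := Nat.div_add_mod (M - X) d
      have c2 := Nat.div_add_mod (M' - X) d
      have c3 := Nat.mod_lt (M - X) hd
      have c4 := Nat.mod_lt (M' - X) hd
      rw [e] at c1
      rcases le_total M M' with h | h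
      · have := Nat.eq_zero_of_dvd_of_lt (Nat.dvd_sub a4 a2) (by omega)
        omega
      · have := Nat.eq_zero_of_dvd_of_lt (Nat.dvd_sub a2 a4) (by omega)
        omega
  rw [card_range] at h1
  have h2 : ((H / d : ℕ) : ℝ) ≤ H / d := Nat.cast_div_le
  have h3 : (((Ico X (X + H)).filter fun M => d ∣ M).card : ℝ) ≤ ((H / d : ℕ) : ℝ) + 1 := by
    exact_mod_cast h1
  linarith

theorem dens_short (X H : ℕ) :
    ∑ M ∈ Ico X (X + H), densS M ≤ 2 * H + (1 + Real.log ((X + H : ℕ) : ℝ)) := by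
  have h1 : ∀ M ∈ Ico X (X + H), densS M ≤
      ∑ d ∈ Icc 1 (X + H), if d ∣ M then (d : ℝ)⁻¹ else 0 := by
    intro M hM
    rw [← sum_filter]
    refine sum_le_sum_of_subset_of_nonneg (fun p hp => ?_) fun _ _ _ => by positivity
    have hp1 := Nat.prime_of_mem_primeFactors hp
    have hp2 := Nat.le_of_mem_primeFactors hp
    have hp3 := (mem_Ico.1 hM).2
    exact mem_filter.2 ⟨mem_Icc.2 ⟨hp1.pos, by omega⟩, Nat.dvd_of_mem_primeFactors hp⟩
  refine (sum_le_sum h1).trans ?_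
  rw [sum_comm]
  have h2 : ∀ d ∈ Icc 1 (X + H), (∑ M ∈ Ico X (X + H), if d ∣ M then (d : ℝ)⁻¹ else 0) ≤
      H * ((d : ℝ) ^ 2)⁻¹ + 1 / d := by
    intro d hd
    have d0 : 0 < d := (mem_Icc.1 hd).1
    have d1 : (0 : ℝ) < d := by exact_mod_cast d0
    rw [← sum_filter, sum_const, nsmul_eq_mul]
    refine (mul_le_mul_of_nonneg_right (card_mult X H d0) (by positivity)).trans (le_of_eq ?_)
    field_simp
  refine (sum_le_sum h2).trans ?_
  rw [sum_add_distrib, ← mul_sum, mul_comm (2 : ℝ)]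
  exact add_le_add (mul_le_mul_of_nonneg_left
    (Pool.Agent.P.MP_a1177c_nt.EK.BTAux.sum_inv_sq_le _) (Nat.cast_nonneg H)) (harm_le _)

variable {s : ℤ × ℤ → ℂ} {N n : ℕ} {θ : SL(2, ℤ) → ℂ}

theorem rare_int' (Hs : Sym s N n θ) {κ : ℝ} (κ0 : 0 < κ) :
    Rare 0 {M | κ * Nat.totient M < ‖segSum s Lm 1 1 M‖} := by
  intro ε hε
  set lam : ℝ := 12 / ε with hlam
  filter_upwards [rare_int Hs (κ := κ * Real.exp (-(2 * lam))) (by positivity) (ε / 2)
    (by positivity), ev_r 3] with X hX ⟨r, r0, hx, hs, hL, hr⟩ H h1 h2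
  have a1 := hX H h1 h2
  obtain ⟨A, hA, hA'⟩ := cnt_spec {M | lam < densS M} X H
  have a2 : (A.card : ℝ) * lam ≤ 6 * H := by
    have b1 := card_nsmul_le_sum A densS lam fun M hM => le_of_lt ((hA' M).1 hM).2
    rw [nsmul_eq_mul] at b1
    have b2 : ∑ M ∈ A, densS M ≤ ∑ M ∈ Ico X (X + H), densS M :=
      sum_le_sum_of_subset_of_nonneg (fun M hM => ((hA' M).1 hM).1) fun M _ _ => dens_nonneg M
    have b3 := dens_short X H
    have X0 : (0 : ℝ) < X := by
      rw [← hx]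
      positivity
    have b4 : Real.log ((X + H : ℕ) : ℝ) ≤ 1 + Real.log X := by
      have d0 : ((X + H : ℕ) : ℝ) ≤ 2 * X := by exact_mod_cast (by omega : X + H ≤ 2 * X)
      have d1 := Real.log_le_log (by push_cast; positivity) d0
      rw [Real.log_mul two_ne_zero X0.ne'] at d1
      have d2 := Real.log_le_sub_one_of_pos (show (0 : ℝ) < 2 by norm_num)
      linarith
    have r1 : 1 ≤ r := by
      have : 1 ≤ (Real.log X + 1) ^ 8 := one_le_pow₀ (by linarith)
      linarith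
    have b5 : Real.log X ≤ H := by
      refine le_trans ?_ h1
      rw [hs]
      exact (le_self_pow₀ (by linarith) (by norm_num)).trans
        (le_mul_of_one_le_left (by positivity) (one_le_pow₀ r1))
    linarith
  have a3 : (A.card : ℝ) ≤ ε / 2 * H := by
    rw [hlam, ← mul_div_assoc, div_le_iff₀ hε] at a2
    linarith
  refine (cnt_mono (E' := {M | κ * Real.exp (-(2 * lam)) * M < ‖segSum s Lm 1 1 M‖} ∪
    {M | lam < densS M}) fun M _ hM => ?_).trans ((cnt_union _ _ X H).trans ?_)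
  · by_contra hcon
    simp only [Set.mem_union, Set.mem_ofPred_eq, not_or, not_lt] at hcon hM
    have b1 := dens_totient M
    have b2 : Real.exp (-(2 * lam)) ≤ Real.exp (-(2 * densS M)) :=
      Real.exp_le_exp.2 (by linarith [hcon.2])
    have b3 : κ * Real.exp (-(2 * lam)) * M ≤ κ * Nat.totient M := by
      rw [mul_assoc, mul_comm _ (M : ℝ)]
      exact mul_le_mul_of_nonneg_left
        ((mul_le_mul_of_nonneg_left b2 (Nat.cast_nonneg M)).trans b1) κ0.le
    linarith [hcon.1]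
  · rw [hA]
    simp only [pow_zero, div_one] at a1 ⊢
    linarith

theorem rare_prime' (Hs : Sym s N n θ) {κ : ℝ} (κ0 : 0 < κ) :
    Rare 1 {M | M.Prime ∧ κ * Nat.totient M < ‖segSum s Lm 1 1 M‖} := by
  refine (rare_prime Hs (κ := κ / 2) (by positivity)).mono fun M hM => ⟨hM.1, ?_⟩
  refine lt_of_le_of_lt ?_ hM.2
  have h1 : M ≤ 2 * Nat.totient M := by
    have := hM.1.two_le
    rw [Nat.totient_prime hM.1]
    omega
  have h2 : (M : ℝ) ≤ 2 * Nat.totient M := by exact_mod_cast h1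
  nlinarith

variable {p l : ℕ} {lam : ℤ} {m : ℚ → ℚ}

theorem sym_chr (H : RatSym N p l lam m) (hN : 0 < N) (hp : p.Prime) (hl : l.Prime)
    (hlN : ¬ l ∣ N) (hlam : ¬ (p : ℤ) ∣ lam - (l + 1)) (e : ℕ)
    (ψ : AddChar (ZMod (p ^ e)) ℂ) (hψ : ψ ≠ 0) :
    Sym (chr (p ^ e) ψ m) N (p ^ e) (fun γ => ψ (red (p ^ e) (vec m (act γ (1, 0))))) where
  eqv := H.equivar hN hp hl hlN hlam e ψ hψ
  one := by
    unfold chr vec
    rw [if_pos isCoprime_one_left, if_pos rfl, red_zero, AddChar.map_zero_eq_one]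
  co γ hγ v := by
    unfold chr
    rw [if_pos (isCoprime_act γ (v := (1, 0)) isCoprime_one_left)]
    by_cases h : IsCoprime v.1 v.2
    · rw [if_pos h, if_pos (isCoprime_act γ h),
        H.red_cocycle hp e hγ (ne_zero_of_isCoprime h), AddChar.map_add_eq_mul]
    · rw [if_neg h, if_neg (fun h' => h ((isCoprime_act_iff γ v).mp h')), mul_zero]
  prim v h := if_neg h

theorem exists_of_wt (n : ℕ) [NeZero n] (m : ℚ → ℚ) {M : ℕ} {κ : ℝ} (κ0 : 0 < κ)
    (h : κ < wt n m M) : ∃ ψ ∈ (univ : Finset (AddChar (ZMod n) ℂ)).erase 0,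
      κ * Nat.totient M < ‖segSum (chr n ψ m) Lm 1 1 M‖ := by
  classical
  by_contra hcon
  push Not at hcon
  have hn : (0 : ℝ) < n := by exact_mod_cast Nat.pos_of_ne_zero (NeZero.ne n)
  refine absurd h (not_lt.2 ?_)
  unfold wt
  rw [div_le_iff₀ hn]
  refine (sum_le_card_nsmul _ _ κ fun ψ hψ =>
    div_le_of_le_mul₀ (Nat.cast_nonneg _) κ0.le (hcon ψ hψ)).trans ?_
  rw [nsmul_eq_mul, mul_comm]
  have : ((univ : Finset (AddChar (ZMod n) ℂ)).erase 0).card ≤ n := by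
    refine card_erase_le.trans ?_
    rw [card_univ, AddChar.card_eq, ZMod.card]
  exact mul_le_mul_of_nonneg_left (by exact_mod_cast this) κ0.le

theorem main_gen (hp : p.Prime) {j : ℕ} (F : Set ℕ)
    (h : ∀ (e : ℕ) (ψ : AddChar (ZMod (p ^ e)) ℂ), ψ ≠ 0 → ∀ κ : ℝ, 0 < κ →
      Rare j {M | M ∈ F ∧ κ * Nat.totient M < ‖segSum (chr (p ^ e) ψ m) Lm 1 1 M‖}) :
    ∃ E : Set ℕ, Rare j E ∧ ∀ (e : ℕ) (a : ℤ),
      Tendsto (fun M => prob M fun r => red (p ^ e) (m r) = (a : ZMod (p ^ e)))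
        (atTop ⊓ 𝓟 (F \ E)) (𝓝 (1 / (p : ℝ) ^ e)) := by
  classical
  have : ∀ e, NeZero (p ^ e) := fun e => ⟨pow_ne_zero e hp.ne_zero⟩
  obtain ⟨E, hE, hlim⟩ := rare_diag (j := j)
    (B := fun k => {M | ∃ e ∈ range (k + 1), M ∈ F ∧ 1 / ((k : ℝ) + 1) < wt (p ^ e) m M})
    (fun k k' hk M ⟨e, he, h1, h2⟩ => ⟨e, range_subset_range.2 (Nat.succ_le_succ hk) he, h1,
      lt_of_le_of_lt (by
        have : (k : ℝ) ≤ k' := by exact_mod_cast hk
        gcongr) h2⟩)
    (fun k => rare_biUnion (range (k + 1))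
      (E := fun e => {M | M ∈ F ∧ 1 / ((k : ℝ) + 1) < wt (p ^ e) m M}) fun e _ => by
        refine (rare_biUnion ((univ : Finset (AddChar (ZMod (p ^ e)) ℂ)).erase 0) fun ψ hψ =>
          h e ψ (ne_of_mem_erase hψ) (1 / ((k : ℝ) + 1)) (by positivity)).mono ?_
        rintro M ⟨h1, h2⟩
        obtain ⟨ψ, hψ, h3⟩ := exists_of_wt _ m (by positivity) h2
        exact ⟨ψ, hψ, h1, h3⟩)
  refine ⟨E, hE, fun e a => Metric.tendsto_nhds.2 fun ε hε => ?_⟩
  obtain ⟨k, hk⟩ := exists_nat_one_div_lt hε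
  rw [eventually_inf_principal]
  filter_upwards [hlim (max k e), eventually_ge_atTop 2] with M h1 h2 h3
  have h4 := abs_prob_sub_le (p ^ e) m h2 (a : ZMod (p ^ e))
  rw [Nat.cast_pow] at h4
  rw [Real.dist_eq]
  refine lt_of_le_of_lt h4 (lt_of_le_of_lt (not_lt.1 fun h5 => h3.2 (h1 ⟨e, mem_range.2
    (Nat.lt_succ_of_le (le_max_right _ _)), h3.1, h5⟩)) (lt_of_le_of_lt ?_ hk))
  have : (k : ℝ) ≤ (max k e : ℕ) := by exact_mod_cast le_max_left k e
  gcongr

theorem bridge {N : ℕ} [NeZero N] (f : CuspForm (CongruenceSubgroup.Gamma0 N) 2)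
    (Ω : ℂ) (ε : ℤ) (p : ℕ) (hp : p.Prime)
    (hint : ∀ r : ℚ, IsPIntegral p (modSym f Ω ε r))
    (hunit : ∃ r : ℚ, N ∣ r.den ∧ ¬ CongMod p 1 (modSym f Ω ε r) 0)
    (l : ℕ) (hl : l.Prime) (lam : ℤ) (hT : ∀ z, hecke l f z = lam * f z) :
    ∃ m : ℚ → ℚ, RatSym N p l lam m ∧ ∀ (e : ℕ) (a : ℤ) (r : ℚ),
      CongMod p e (modSym f Ω ε r) a ↔ red (p ^ e) (m r) = (a : ZMod (p ^ e)) := by
  choose m hm hden using hint
  have hvec : ∀ v, (vec m v : ℂ) = sym2 f Ω ε v := by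
    intro v
    unfold vec sym2
    split_ifs
    · simp
    · rw [hm]
  refine ⟨m, ⟨hden, fun γ hγ v hv => ?_, fun r => ?_, ?_⟩, fun e a r => ?_⟩
  · have h := sym2_cocycle f Ω ε hγ hv
    rw [← hvec, ← hvec, ← hvec] at h
    have h' : vec m (act γ v) = vec m (act γ (1, 0)) + vec m v := by exact_mod_cast h
    exact h'
  · have h := modSym_hecke f Ω ε hl.pos lam hT r
    simp only [hm] at h
    exact_mod_cast h
  · obtain ⟨r, hr, hu⟩ := hunit
    refine ⟨r, hr, fun h => hu ⟨m r, hm r, hden r, ?_⟩⟩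
    simpa using h
  · have hc : Nat.Coprime (m r).den (p ^ e) :=
      (((Nat.Prime.coprime_iff_not_dvd hp).mpr (hden r)).symm).pow_right e
    rw [red_eq_iff hc, Nat.cast_pow]
    constructor
    · rintro ⟨q, h1, _, h3⟩
      rw [hm] at h1
      have : m r = q := by exact_mod_cast h1
      rwa [this]
    · intro h
      exact ⟨m r, hm r, hden r, h⟩

theorem Rare.short {E : Set ℕ} (h : Rare 0 E) : RareInShortIntervals E := fun ε hε =>
  (h ε hε).mono fun X hX H h1 h2 => by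
    have := hX H h1 h2
    rwa [pow_zero, div_one] at this

theorem Rare.primes {E E' : Set ℕ} (h : Rare 1 E) (hE : ∀ M, M.Prime → M ∈ E' → M ∈ E) :
    RareAmongPrimes E' := fun ε hε => (h ε hε).mono fun X hX H h1 h2 => by
  classical
  have := hX H h1 h2
  rw [pow_one] at this
  refine le_trans ?_ this
  unfold cnt
  exact_mod_cast card_le_card fun M hM => by
    simp only [mem_filter] at hM ⊢
    exact ⟨hM.1, hE M hM.2.1 hM.2.2⟩

end Pool.Agent.P.MP_99daa8_nt.SI
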