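import Pool.Agent.P.MP_99daa8_nt.SI.Exp

/-!
Reduced fractions, the large sieve at Farey points, and sums over pairs `M' ≡ e M (mod Δ)`.
-/

namespace Pool.Agent.P.MP_99daa8_nt.SI

open Finset

/-- Reduced residues modulo `d`. -/
def red' (d : ℕ) : Finset ℕ := (range d).filter fun b => Nat.Coprime b d

theorem mem_red' {d b : ℕ} : b ∈ red' d ↔ b < d ∧ Nat.Coprime b d := by simp [red']

/-- The energy of the exponential sum at the reduced fractions with denominator `d`. -/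
noncomputable def FF (η : ℕ → ℂ) (A : Finset ℕ) (d : ℕ) : ℝ :=
  ∑ b ∈ red' d, ‖SS η A ((b : ℝ) / d)‖ ^ 2

theorem FF_nonneg (η : ℕ → ℂ) (A : Finset ℕ) (d : ℕ) : 0 ≤ FF η A d :=
  sum_nonneg fun _ _ => by positivity

theorem sep_of_ne {u : ℤ} (hu : u ≠ 0) {m W : ℕ} (hm : 0 < m) (hW : m ≤ W) :
    1 / (W : ℝ) ≤ |(u : ℝ) / m| := by
  have h1 : (1 : ℝ) ≤ |(u : ℝ)| := by exact_mod_cast Int.one_le_abs hu
  have h2 : (0 : ℝ) < m := by exact_mod_cast hm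
  have h3 : (m : ℝ) ≤ W := by exact_mod_cast hW
  rw [abs_div, abs_of_pos h2]
  gcongr

theorem frac_eq {d d' b b' : ℕ} (hb : b ∈ red' d) (hb' : b' ∈ red' d') {k : ℤ}
    (h : (b : ℤ) * d' - b' * d = k * (d * d')) : d = d' ∧ b = b' := by
  obtain ⟨h1, h2⟩ := mem_red'.1 hb
  obtain ⟨h3, h4⟩ := mem_red'.1 hb'
  have a1 : d ∣ d' := by
    have : (d : ℤ) ∣ (b : ℤ) * d' := ⟨b' + k * d', by linear_combination h⟩
    exact (Nat.Coprime.symm h2).dvd_of_dvd_mul_left (by exact_mod_cast this)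
  have a2 : d' ∣ d := by
    have : (d' : ℤ) ∣ (b' : ℤ) * d := ⟨b - k * d, by linear_combination -h⟩
    exact (Nat.Coprime.symm h4).dvd_of_dvd_mul_left (by exact_mod_cast this)
  obtain rfl : d = d' := Nat.dvd_antisymm a1 a2
  refine ⟨rfl, ?_⟩
  have d0 : (0 : ℤ) < d := by exact_mod_cast (Nat.zero_le b).trans_lt h1
  have a3 : (b : ℤ) - b' = k * d := by
    apply mul_right_cancel₀ d0.ne'
    linear_combination h
  have a4 : (d : ℤ) ∣ (b : ℤ) - b' := ⟨k, by linear_combination a3⟩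
  have a5 := Int.eq_zero_of_abs_lt_dvd a4 (by rw [abs_lt]; constructor <;> omega)
  omega

theorem ls_farey {η : ℕ → ℂ} (hη : ∀ M, ‖η M‖ ≤ 1) {A : Finset ℕ} {X H : ℕ}
    (hA : A ⊆ Ico X (X + H)) {D : ℕ} (hD : 0 < D) :
    ∑ d ∈ Icc 1 D, FF η A d ≤ A.card * (H + (D : ℝ) ^ 2 * (1 + Real.log ((D : ℝ) ^ 2))) := by
  have h := large_sieve ((Icc 1 D).sigma red') (fun x : (_ : ℕ) × ℕ => (x.2 : ℝ) / x.1)
    (W := D ^ 2) (by positivity) (X := X) (H := H) ?_ hη hA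
  · rw [sum_sigma] at h
    push_cast at h
    exact h
  · rintro ⟨d, b⟩ hi ⟨d', b'⟩ hj hne k
    obtain ⟨h1, h2⟩ := mem_sigma.1 hi
    obtain ⟨h3, h4⟩ := mem_sigma.1 hj
    simp only at h1 h2 h3 h4 ⊢
    obtain ⟨d0, d1⟩ := mem_Icc.1 h1
    obtain ⟨d2, d3⟩ := mem_Icc.1 h3
    have hu : (b : ℤ) * d' - b' * d - k * (d * d') ≠ 0 := by
      intro h0
      obtain ⟨rfl, rfl⟩ := frac_eq h2 h4 (sub_eq_zero.1 h0)
      exact hne rfl
    have := sep_of_ne hu (m := d * d') (W := D ^ 2) (Nat.mul_pos d0 d2)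
      (by rw [sq]; exact Nat.mul_le_mul d1 d3)
    have d4 : (d : ℝ) ≠ 0 := by positivity
    have d5 : (d' : ℝ) ≠ 0 := by positivity
    have e : (b : ℝ) / d - b' / d' - k =
        (((b : ℤ) * d' - b' * d - k * (d * d') : ℤ) : ℝ) / ((d * d' : ℕ) : ℝ) := by
      push_cast
      field_simp
    rwa [e]

theorem sum_frac {β : Type*} [AddCommMonoid β] (φ : ℝ → β) {q : ℕ} (hq : 0 < q) :
    ∑ a ∈ range q, φ ((a : ℝ) / q) = ∑ d ∈ q.divisors, ∑ b ∈ red' d, φ ((b : ℝ) / d) := by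
  rw [sum_sigma']
  symm
  refine sum_bij' (fun x _ => x.2 * (q / x.1))
    (fun a _ => ⟨q / Nat.gcd a q, a / Nat.gcd a q⟩) ?_ ?_ ?_ ?_ ?_
  · rintro ⟨d, b⟩ hx
    obtain ⟨h1, h2⟩ := mem_sigma.1 hx
    obtain ⟨c, rfl⟩ := Nat.dvd_of_mem_divisors h1
    have d0 : 0 < d := Nat.pos_of_mul_pos_right hq
    have c0 : 0 < c := Nat.pos_of_mul_pos_left hq
    simp only [Nat.mul_div_cancel_left c d0, mem_range]
    exact Nat.mul_lt_mul_of_pos_right (mem_red'.1 h2).1 c0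
  · intro a ha
    have g0 : 0 < Nat.gcd a q := Nat.gcd_pos_of_pos_right _ hq
    refine mem_sigma.2 ⟨Nat.mem_divisors.2 ⟨Nat.div_dvd_of_dvd (Nat.gcd_dvd_right _ _), hq.ne'⟩,
      mem_red'.2 ⟨?_, Nat.coprime_div_gcd_div_gcd g0⟩⟩
    exact Nat.div_lt_div_of_lt_of_dvd (Nat.gcd_dvd_right _ _) (mem_range.1 ha)
  · rintro ⟨d, b⟩ hx
    obtain ⟨h1, h2⟩ := mem_sigma.1 hx
    obtain ⟨c, rfl⟩ := Nat.dvd_of_mem_divisors h1
    have d0 : 0 < d := Nat.pos_of_mul_pos_right hq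
    have c0 : 0 < c := Nat.pos_of_mul_pos_left hq
    have hg : Nat.gcd (b * c) (d * c) = c := by
      rw [Nat.gcd_mul_right, (mem_red'.1 h2).2, one_mul]
    simp only [Nat.mul_div_cancel_left c d0, hg, Nat.mul_div_cancel _ c0]
  · intro a _
    have g0 : 0 < Nat.gcd a q := Nat.gcd_pos_of_pos_right _ hq
    simp only
    rw [Nat.div_div_self (Nat.gcd_dvd_right _ _) hq.ne', Nat.div_mul_cancel (Nat.gcd_dvd_left _ _)]
  · rintro ⟨d, b⟩ hx
    obtain ⟨h1, h2⟩ := mem_sigma.1 hx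
    obtain ⟨c, rfl⟩ := Nat.dvd_of_mem_divisors h1
    have d0 : 0 < d := Nat.pos_of_mul_pos_right hq
    have c0 : 0 < c := Nat.pos_of_mul_pos_left hq
    simp only [Nat.mul_div_cancel_left c d0]
    congr 1
    have d4 : (d : ℝ) ≠ 0 := by positivity
    have d5 : (c : ℝ) ≠ 0 := by positivity
    push_cast
    field_simp

/-- The sum of `η M * conj (η M')` over pairs with `M' ≡ e M (mod q)`. -/
noncomputable def TT (η : ℕ → ℂ) (A : Finset ℕ) (q : ℕ) (e : ℤ) : ℂ :=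
  ∑ M ∈ A, ∑ M' ∈ A, if (q : ℤ) ∣ e * M - M' then η M * (starRingEnd ℂ) (η M') else 0

/-- The contribution of the denominator `d` to `TT`. -/
noncomputable def GG (η : ℕ → ℂ) (A : Finset ℕ) (e : ℤ) (d : ℕ) : ℂ :=
  ∑ b ∈ red' d, SS η A ((b : ℝ) / d * e) * (starRingEnd ℂ) (SS η A ((b : ℝ) / d))

theorem TT_eq (η : ℕ → ℂ) (A : Finset ℕ) {q : ℕ} (hq : 0 < q) (e : ℤ) :
    (q : ℂ) * TT η A q e = ∑ d ∈ q.divisors, GG η A e d := by
  unfold GG
  rw [← sum_frac (fun x => SS η A (x * e) * (starRingEnd ℂ) (SS η A x)) hq]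
  have h1 : ∀ a : ℕ, SS η A ((a : ℝ) / q * e) * (starRingEnd ℂ) (SS η A ((a : ℝ) / q)) =
      ∑ M ∈ A, ∑ M' ∈ A, η M * (starRingEnd ℂ) (η M') *
        ee (a * (((e * M - M' : ℤ) : ℝ) / q)) := by
    intro a
    unfold SS
    rw [map_sum, sum_mul_sum]
    refine sum_congr rfl fun M _ => sum_congr rfl fun M' _ => ?_
    have : (a : ℝ) * (((e * M - M' : ℤ) : ℝ) / q) = M * (a / q * e) + -(M' * (a / q)) := by
      push_cast
      ring
    rw [map_mul, conj_ee, this, ee_add]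
    ring
  simp only [h1]
  rw [sum_comm, TT, mul_sum]
  refine sum_congr rfl fun M _ => ?_
  rw [sum_comm, mul_sum]
  refine sum_congr rfl fun M' _ => ?_
  rw [← mul_sum, geo_dvd hq]
  split_ifs <;> ring

theorem FF_perm (η : ℕ → ℂ) (A : Finset ℕ) {d : ℕ} (hd : 0 < d) {e : ℤ}
    (he : IsCoprime (d : ℤ) e) : ∑ b ∈ red' d, ‖SS η A ((b : ℝ) / d * e)‖ ^ 2 ≤ FF η A d := by
  have d0 : (0 : ℤ) < d := by exact_mod_cast hd
  set φ : ℕ → ℕ := fun b => ((b : ℤ) * e % d).toNat with hφ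
  have hφ1 : ∀ b : ℕ, ((φ b : ℕ) : ℤ) = (b : ℤ) * e % d := fun b =>
    Int.toNat_of_nonneg (Int.emod_nonneg _ d0.ne')
  have h1 : ∀ b : ℕ, SS η A ((b : ℝ) / d * e) = SS η A ((φ b : ℝ) / d) := by
    intro b
    rw [← SS_add_int η A ((φ b : ℝ) / d) ((b : ℤ) * e / d)]
    congr 1
    have h2 := Int.emod_add_mul_ediv ((b : ℤ) * e) d
    rw [← hφ1] at h2
    have h3 : ((φ b : ℕ) : ℝ) + d * (((b : ℤ) * e / d : ℤ) : ℝ) = b * e := by exact_mod_cast h2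
    have d4 : (d : ℝ) ≠ 0 := by positivity
    field_simp
    linarith
  have hinj : Set.InjOn φ (red' d : Set ℕ) := by
    intro b hb b' hb' h
    have h2 : (b : ℤ) * e % d = (b' : ℤ) * e % d := by rw [← hφ1, ← hφ1, h]
    have h3 : (d : ℤ) ∣ ((b : ℤ) - b') * e := by
      rw [sub_mul]
      exact Int.dvd_of_emod_eq_zero (Int.emod_eq_emod_iff_emod_sub_eq_zero.1 h2)
    have h4 := he.dvd_of_dvd_mul_right h3
    have l1 := (mem_red'.1 hb).1
    have l2 := (mem_red'.1 hb').1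
    have a5 := Int.eq_zero_of_abs_lt_dvd h4 (by rw [abs_lt]; constructor <;> omega)
    omega
  simp only [h1]
  rw [← sum_image (f := fun b : ℕ => ‖SS η A ((b : ℝ) / d)‖ ^ 2) hinj]
  refine sum_le_sum_of_subset_of_nonneg (fun x hx => ?_) fun _ _ _ => by positivity
  obtain ⟨b, hb, rfl⟩ := mem_image.1 hx
  refine mem_red'.2 ⟨?_, ?_⟩
  · have := Int.emod_lt_of_pos ((b : ℤ) * e) d0
    rw [← hφ1] at this
    exact_mod_cast this
  · rw [← Nat.isCoprime_iff_coprime, hφ1, Int.emod_def]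
    have h5 : IsCoprime ((b : ℤ) * e) d :=
      (Nat.isCoprime_iff_coprime.2 (mem_red'.1 hb).2).mul_left he.symm
    have := h5.add_mul_left_left (-((b : ℤ) * e / d))
    rwa [mul_neg, ← sub_eq_add_neg] at this

theorem norm_GG_le (η : ℕ → ℂ) (A : Finset ℕ) {d : ℕ} (hd : 0 < d) {e : ℤ}
    (he : IsCoprime (d : ℤ) e) : ‖GG η A e d‖ ≤ FF η A d := by
  have h := FF_perm η A hd he
  calc ‖GG η A e d‖ ≤ ∑ b ∈ red' d,
        (‖SS η A ((b : ℝ) / d * e)‖ ^ 2 + ‖SS η A ((b : ℝ) / d)‖ ^ 2) / 2 := by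
        refine (norm_sum_le _ _).trans (sum_le_sum fun b _ => ?_)
        rw [norm_mul, Complex.norm_conj]
        nlinarith [sq_nonneg (‖SS η A ((b : ℝ) / d * e)‖ - ‖SS η A ((b : ℝ) / d)‖)]
    _ ≤ _ := by
        rw [← sum_div, sum_add_distrib]
        unfold FF at h ⊢
        linarith

theorem TT_expand (η : ℕ → ℂ) (A : Finset ℕ) {q q₀ D₀ : ℕ} (hq : 0 < q)
    (hq₀ : ∀ d, 0 < d → d ≤ D₀ → d ∣ q₀) {e : ℤ} (he : IsCoprime (q : ℤ) e) :
    ‖TT η A q e - (Nat.gcd q q₀ : ℂ) * TT η A (Nat.gcd q q₀) e / q‖ ≤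
      (∑ d ∈ q.divisors with D₀ < d, FF η A d) / q := by
  have k0 : 0 < Nat.gcd q q₀ := Nat.gcd_pos_of_pos_left _ hq
  have q1 : (q : ℂ) ≠ 0 := by exact_mod_cast hq.ne'
  have hsub : (Nat.gcd q q₀).divisors ⊆ q.divisors :=
    Nat.divisors_subset_of_dvd hq.ne' (Nat.gcd_dvd_left _ _)
  have e1 : TT η A q e - (Nat.gcd q q₀ : ℂ) * TT η A (Nat.gcd q q₀) e / q =
      (∑ d ∈ q.divisors \ (Nat.gcd q q₀).divisors, GG η A e d) / q := by
    rw [sum_sdiff_eq_sub hsub, ← TT_eq η A hq, ← TT_eq η A k0]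
    field_simp
  rw [e1, norm_div, Complex.norm_natCast]
  refine div_le_div_of_nonneg_right ?_ (Nat.cast_nonneg q)
  refine (norm_sum_le _ _).trans ((sum_le_sum (g := fun d => FF η A d) fun d hd => ?_).trans ?_)
  · have h1 := Nat.dvd_of_mem_divisors (mem_sdiff.1 hd).1
    exact norm_GG_le η A (Nat.pos_of_dvd_of_pos h1 hq)
      (he.of_isCoprime_of_dvd_left (by exact_mod_cast h1))
  · refine sum_le_sum_of_subset_of_nonneg (fun d hd => ?_) fun _ _ _ => FF_nonneg _ _ _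
    obtain ⟨h1, h2⟩ := mem_sdiff.1 hd
    refine mem_filter.2 ⟨h1, lt_of_not_ge fun h => h2 ?_⟩
    have h3 := Nat.dvd_of_mem_divisors h1
    exact Nat.mem_divisors.2
      ⟨Nat.dvd_gcd h3 (hq₀ d (Nat.pos_of_dvd_of_pos h3 hq) h), k0.ne'⟩

theorem norm_TT_le_sq {η : ℕ → ℂ} (hη : ∀ M, ‖η M‖ ≤ 1) (A : Finset ℕ) (q : ℕ) (e : ℤ) :
    ‖TT η A q e‖ ≤ (A.card : ℝ) ^ 2 := by
  calc ‖TT η A q e‖ ≤ ∑ _M ∈ A, ∑ _M' ∈ A, (1 : ℝ) := by
        refine (norm_sum_le _ _).trans (sum_le_sum fun M _ => ?_)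
        refine (norm_sum_le _ _).trans (sum_le_sum fun M' _ => ?_)
        split_ifs
        · rw [norm_mul, Complex.norm_conj]
          exact mul_le_one₀ (hη M) (norm_nonneg _) (hη M')
        · simp
    _ = _ := by simp [sq]

theorem TT_congr (η : ℕ → ℂ) (A : Finset ℕ) {q : ℕ} {e e' : ℤ} (h : (q : ℤ) ∣ e - e') :
    TT η A q e = TT η A q e' := by
  unfold TT
  refine sum_congr rfl fun M _ => sum_congr rfl fun M' _ => ?_
  have : (q : ℤ) ∣ e * M - M' ↔ (q : ℤ) ∣ e' * M - M' := by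
    have e1 : e * M - M' = e' * M - M' + (e - e') * M := by ring
    rw [e1]
    exact dvd_add_left (h.mul_right _)
  simp only [this]

end Pool.Agent.P.MP_99daa8_nt.SI
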