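import Pool.Agent.P.MP_99daa8_nt.SI.Core

/-!
Choice of the parameters.
-/

namespace Pool.Agent.P.MP_99daa8_nt.SI

open scoped MatrixGroups
open Finset Filter Topology

theorem ev_r (c : ℝ) : ∀ᶠ X : ℕ in atTop, ∃ r : ℝ, 0 < r ∧ r ^ 16 = X ∧ √X = r ^ 8 ∧
    c ≤ Real.log X ∧ c * (Real.log X + 1) ^ 8 ≤ r := by
  have h1 := (isLittleO_log_rpow_rpow_atTop (8 : ℝ) (s := 1 / 16) (by norm_num)).bound
    (c := 1 / (256 * (|c| + 1))) (by positivity)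
  have h2 := Real.tendsto_log_atTop.eventually_ge_atTop (max c 1)
  filter_upwards [tendsto_natCast_atTop_atTop.eventually h1,
    tendsto_natCast_atTop_atTop.eventually h2, eventually_gt_atTop 0] with X a1 a2 a3
  have X0 : (0 : ℝ) < X := by exact_mod_cast a3
  have r0 : 0 < (X : ℝ) ^ (1 / 16 : ℝ) := Real.rpow_pos_of_pos X0 _
  have r1 : ((X : ℝ) ^ (1 / 16 : ℝ)) ^ 16 = X := by
    rw [← Real.rpow_natCast, ← Real.rpow_mul X0.le]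
    norm_num
  have L1 : 1 ≤ Real.log X := (le_max_right _ _).trans a2
  refine ⟨_, r0, r1, ?_, (le_max_left _ _).trans a2, ?_⟩
  · rw [Real.sqrt_eq_iff_mul_self_eq X0.le (by positivity), ← pow_add]
    exact r1.symm
  · rw [Real.norm_of_nonneg r0.le, show (8 : ℝ) = (8 : ℕ) by norm_num, Real.rpow_natCast,
      Real.norm_of_nonneg (by positivity), one_div_mul_eq_div, le_div_iff₀ (by positivity)] at a1
    refine le_trans ?_ a1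
    calc c * (Real.log X + 1) ^ 8 ≤ (|c| + 1) * (2 * Real.log X) ^ 8 := by
          gcongr
          · linarith [le_abs_self c]
          · linarith
      _ = _ := by ring

theorem exists_P {r L : ℝ} (hL : 1 ≤ L) (hr : 4 * L ≤ r) :
    ∃ P : ℕ, (P : ℝ) ^ 2 * L ≤ r ^ 8 ∧ r ^ 8 ≤ 4 * L * (P : ℝ) ^ 2 ∧ r ^ 3 ≤ P ∧ P ≤ r ^ 4 := by
  have r1 : 4 ≤ r := by linarith
  have L0 : 0 < L := by linarith
  set y := √(r ^ 8 / L) with hy
  have y0 : 0 ≤ y := Real.sqrt_nonneg _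
  have y2 : y ^ 2 * L = r ^ 8 := by
    rw [hy, Real.sq_sqrt (by positivity)]
    field_simp
  have y3 : 2 * r ^ 3 ≤ y := by
    refine Real.le_sqrt_of_sq_le ?_
    rw [le_div_iff₀ L0]
    calc (2 * r ^ 3) ^ 2 * L = r ^ 6 * (4 * L) := by ring
      _ ≤ r ^ 6 * (r * r) := by
          gcongr
          nlinarith
      _ = _ := by ring
  have r3 : 1 ≤ r ^ 3 := one_le_pow₀ (by linarith)
  have a1 := Nat.floor_le y0
  have a2 := Nat.lt_floor_add_one y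
  have P0 : (0 : ℝ) ≤ ⌊y⌋₊ := Nat.cast_nonneg _
  have b1 : (⌊y⌋₊ : ℝ) ^ 2 * L ≤ r ^ 8 := by
    rw [← y2]
    gcongr
  refine ⟨⌊y⌋₊, b1, ?_, by linarith, ?_⟩
  · rw [← y2]
    calc y ^ 2 * L ≤ (2 * ⌊y⌋₊) ^ 2 * L := by
          gcongr
          linarith
      _ = _ := by ring
  · refine (pow_le_pow_iff_left₀ P0 (by positivity) two_ne_zero).1 ?_
    have : (⌊y⌋₊ : ℝ) ^ 2 * 1 ≤ (⌊y⌋₊ : ℝ) ^ 2 * L := by gcongr
    calc _ ≤ r ^ 8 := by linarith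
      _ = _ := by ring

variable {η : ℕ → ℂ} {A : Finset ℕ} {X H : ℕ}

theorem ww_nonneg (i : ℕ × ℕ) (K : Finset (ℕ × ℕ)) (d : ℕ) : 0 ≤ ww i K d :=
  sum_nonneg fun _ _ => by split_ifs <;> positivity

theorem rem_le (C : Coef η A X H) {P J z₀ z₁ : ℕ} (z0 : 0 < z₀) (z1 : 0 < z₁) (hz : z₁ ≤ P)
    (hz' : z₁ ^ 4 ≤ (J * P) ^ 2) {Λ : ℝ} (Λ0 : 0 ≤ Λ)
    (ha : ∀ z, 2 ≤ z → z ≤ z₁ → ∑ d ∈ Icc 1 (z ^ 4), FF η A d ≤ Λ * z)
    {i : ℕ × ℕ} (hi : i ∈ Lv P (J * P)) {K : Finset (ℕ × ℕ)} (hKQ : K ⊆ box (J * P))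
    (hK : ∀ j ∈ K, j.1 < i.1 ∧ i.2 < j.2) :
    ∑ d ∈ Ioc (z₀ ^ 4) ((J * P) ^ 2), FF η A d * ww i K d ≤
      4 * (((J : ℝ) ^ 2 + 2) * Λ) / z₀ + (1 + Real.log (((J * P : ℕ) : ℝ) ^ 2)) *
        (A.card * H / ((z₁ ^ 4 : ℕ) : ℝ) + 2 * (A.card *
          (1 + 2 * Real.log (((J * P : ℕ) : ℝ) ^ 2))) * (((J * P) ^ 2 : ℕ) : ℝ)) := by
  obtain ⟨i1, i2, -, i3, i4⟩ := mem_Lv.1 hi
  have b1 := low_range (FF_nonneg η A) (ww_nonneg i K) Λ0 (C := (J : ℝ) ^ 2 + 2) (by positivity)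
    z0 ha fun z d h1 h2 h3 => ww_pow i1 i2 i3.le i4.le hKQ hK h1 (h2.trans hz) h3
  have l0 : 0 ≤ Real.log (((J * P : ℕ) : ℝ) ^ 2) := by
    rw [← Nat.cast_pow]
    exact Real.log_natCast_nonneg _
  have b2 := top_range (FF_nonneg η A) (α := A.card * H)
    (β := A.card * (1 + 2 * Real.log (((J * P : ℕ) : ℝ) ^ 2))) (by positivity)
    (by positivity : 0 < z₁ ^ 4) hz' fun t t0 t1 => by
      refine (ls_farey C.bdd C.sub t0).trans ?_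
      have h1 : Real.log ((t : ℝ) ^ 2) ≤ 2 * Real.log (((J * P : ℕ) : ℝ) ^ 2) := by
        rw [Real.log_pow]
        push_cast
        refine mul_le_mul_of_nonneg_left (Real.log_le_log (by exact_mod_cast t0) ?_) zero_le_two
        exact_mod_cast t1
      calc _ ≤ (A.card : ℝ) * (H + (t : ℝ) ^ 2 *
            (1 + 2 * Real.log (((J * P : ℕ) : ℝ) ^ 2))) := by gcongr
        _ = _ := by ring
  have hsub : Ioc (z₀ ^ 4) ((J * P) ^ 2) ⊆ Ioc (z₀ ^ 4) (z₁ ^ 4) ∪ Ioc (z₁ ^ 4) ((J * P) ^ 2) := by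
    intro d hd
    simp only [mem_union, mem_Ioc] at hd ⊢
    omega
  have nn : ∀ d, 0 ≤ FF η A d * ww i K d := fun d => mul_nonneg (FF_nonneg _ _ _) (ww_nonneg _ _ _)
  refine (sum_le_sum_of_subset_of_nonneg hsub fun d _ _ => nn d).trans ?_
  have un := sum_union_inter (s₁ := Ioc (z₀ ^ 4) (z₁ ^ 4)) (s₂ := Ioc (z₁ ^ 4) ((J * P) ^ 2))
    (f := fun d => FF η A d * ww i K d)
  have u0 : 0 ≤ ∑ d ∈ Ioc (z₀ ^ 4) (z₁ ^ 4) ∩ Ioc (z₁ ^ 4) ((J * P) ^ 2), FF η A d * ww i K d :=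
    sum_nonneg fun d _ => nn d
  have b3 : ∑ d ∈ Ioc (z₁ ^ 4) ((J * P) ^ 2), FF η A d * ww i K d ≤
      (1 + Real.log (((J * P : ℕ) : ℝ) ^ 2)) * ∑ d ∈ Ioc (z₁ ^ 4) ((J * P) ^ 2), FF η A d / d := by
    rw [mul_sum]
    refine sum_le_sum fun d hd => ?_
    have d0 : 0 < d := lt_of_le_of_lt (Nat.zero_le _) (mem_Ioc.1 hd).1
    refine (mul_le_mul_of_nonneg_left (ww_log i1 i2 hKQ hK d0) (FF_nonneg _ _ _)).trans
      (le_of_eq ?_)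
    ring
  have b4 := mul_le_mul_of_nonneg_left b2
    (show 0 ≤ 1 + Real.log (((J * P : ℕ) : ℝ) ^ 2) by positivity)
  linarith

theorem num1 {r L P x h m γ Λ : ℝ} (L1 : 1 ≤ L) (r1 : 1 ≤ r) (hx : r ^ 16 = x) (hh : h ≤ x)
    (P0 : 0 < P) (hP : r ^ 8 ≤ 4 * L * P ^ 2) (γ0 : 0 < γ) (Λ0 : 0 < Λ)
    (hm : r ^ 8 * L ^ 2 ≤ Λ * m) (hc : 9 * Λ ≤ γ * L) : (x + h) / P ^ 2 + 1 ≤ γ * m := by
  have r8 : 1 ≤ r ^ 8 := one_le_pow₀ r1
  have a1 : (x + h) / P ^ 2 ≤ 8 * (r ^ 8 * L) := by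
    rw [div_le_iff₀ (by positivity)]
    calc x + h ≤ 2 * (r ^ 8 * r ^ 8) := by
          have : r ^ 8 * r ^ 8 = r ^ 16 := by ring
          linarith
      _ ≤ 2 * (r ^ 8 * (4 * L * P ^ 2)) := by gcongr
      _ = _ := by ring
  have a2 : 1 ≤ r ^ 8 * L := one_le_mul_of_one_le_of_one_le r8 L1
  refine le_of_mul_le_mul_left ?_ Λ0
  calc Λ * ((x + h) / P ^ 2 + 1) ≤ Λ * (9 * (r ^ 8 * L)) := by
        gcongr
        linarith
    _ = 9 * Λ * (r ^ 8 * L) := by ring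
    _ ≤ γ * L * (r ^ 8 * L) := by gcongr
    _ = γ * (r ^ 8 * L ^ 2) := by ring
    _ ≤ γ * (Λ * m) := by gcongr
    _ = _ := by ring

theorem num2 {r L P J h m γ Λ l : ℝ} (L1 : 1 ≤ L) (r1 : 1 ≤ r) (hh : h ≤ 4 * r ^ 8 * L ^ 3)
    (h0 : 0 ≤ h) (hP : r ^ 3 ≤ P) (hP' : P ≤ r ^ 4) (hJ : J ≤ r) (l0 : 0 ≤ l) (hl : l ≤ L)
    (γ0 : 0 < γ) (Λ0 : 0 < Λ) (hm : r ^ 8 * L ^ 2 ≤ Λ * m) (hc : 34 * Λ * L ^ 2 ≤ γ * r) :
    2 * (2 * (h / P) * (1 + l) + J * P) ≤ γ * m := by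
  have r0 : 0 < r := by linarith
  have P0 : 0 < P := lt_of_lt_of_le (by positivity) hP
  have a1 : h / P ≤ 4 * r ^ 5 * L ^ 3 := by
    rw [div_le_iff₀ P0]
    calc h ≤ 4 * r ^ 5 * L ^ 3 * r ^ 3 := by linarith
      _ ≤ _ := by gcongr
  have a2 : J * P ≤ r ^ 5 * L ^ 4 := by
    calc J * P ≤ r * r ^ 4 := by gcongr
      _ = r ^ 5 * 1 := by ring
      _ ≤ _ := by
          gcongr
          exact one_le_pow₀ L1
  have a3 : 2 * (h / P) * (1 + l) ≤ 2 * (4 * r ^ 5 * L ^ 3) * (2 * L) := by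
    gcongr
    linarith
  have a4 : r ^ 6 ≤ r ^ 8 := pow_le_pow_right₀ r1 (by norm_num)
  refine le_of_mul_le_mul_left ?_ Λ0
  calc Λ * (2 * (2 * (h / P) * (1 + l) + J * P)) ≤ Λ * (34 * (r ^ 5 * L ^ 4)) :=
        mul_le_mul_of_nonneg_left (by linarith) Λ0.le
    _ = 34 * Λ * L ^ 2 * (r ^ 5 * L ^ 2) := by ring
    _ ≤ γ * r * (r ^ 5 * L ^ 2) := by gcongr
    _ = γ * (r ^ 6 * L ^ 2) := by ring
    _ ≤ γ * (Λ * m) := mul_le_mul_of_nonneg_left (le_trans (by gcongr) hm) γ0.le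
    _ = _ := by ring

theorem num3 {r L P J h m γ Λ l D : ℝ} (L1 : 1 ≤ L) (r1 : 1 ≤ r) (hh : h ≤ 4 * r ^ 8 * L ^ 3)
    (h0 : 0 ≤ h) (hP : P ^ 2 * L ≤ r ^ 8) (J1 : 1 ≤ J) (l0 : 0 ≤ l) (hl : l ≤ L)
    (hD : L ^ 4 ≤ D) (m0 : 0 ≤ m)
    (γ0 : 0 < γ) (Λ0 : 0 < Λ) (hm : r ^ 8 * L ^ 2 ≤ Λ * m) (hc : 20 * J ^ 2 * Λ ≤ γ * L) :
    (1 + l) * (m * h / D + 2 * (m * (1 + 2 * l)) * (J * P) ^ 2) ≤ γ * m ^ 2 := by
  have L0 : 0 < L := by linarith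
  have r0 : 0 < r := by linarith
  have D0 : 0 < D := lt_of_lt_of_le (by positivity) hD
  have a1 : L * (h / D) ≤ 4 * r ^ 8 := by
    rw [← mul_div_assoc, div_le_iff₀ D0]
    calc L * h ≤ L * (4 * r ^ 8 * L ^ 3) := by gcongr
      _ = 4 * r ^ 8 * L ^ 4 := by ring
      _ ≤ _ := by gcongr
  have a2 : 1 ≤ J ^ 2 * L := one_le_mul_of_one_le_of_one_le (one_le_pow₀ J1) L1
  have a3 : (1 + l) * (h / D + 2 * (1 + 2 * l) * (J * P) ^ 2) ≤ 20 * J ^ 2 * (r ^ 8 * L) :=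
    calc _ ≤ (2 * L) * (h / D + 2 * (3 * L) * (J * P) ^ 2) := by
          gcongr <;> linarith
      _ = 2 * (L * (h / D)) + 12 * (J ^ 2 * L) * (P ^ 2 * L) := by ring
      _ ≤ 2 * (4 * r ^ 8 * (J ^ 2 * L)) + 12 * (J ^ 2 * L) * r ^ 8 := by
          have b1 := a1.trans (le_mul_of_one_le_right (by positivity) a2)
          have b2 := mul_le_mul_of_nonneg_left hP (show 0 ≤ 12 * (J ^ 2 * L) by positivity)
          linarith
      _ = _ := by ring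
  have a4 : 20 * J ^ 2 * (r ^ 8 * L) ≤ γ * m := by
    refine le_of_mul_le_mul_left ?_ Λ0
    calc Λ * (20 * J ^ 2 * (r ^ 8 * L)) = 20 * J ^ 2 * Λ * (r ^ 8 * L) := by ring
      _ ≤ γ * L * (r ^ 8 * L) := by gcongr
      _ = γ * (r ^ 8 * L ^ 2) := by ring
      _ ≤ γ * (Λ * m) := by gcongr
      _ = _ := by ring
  calc _ = m * ((1 + l) * (h / D + 2 * (1 + 2 * l) * (J * P) ^ 2)) := by ring
    _ ≤ m * (γ * m) := mul_le_mul_of_nonneg_left (a3.trans a4) m0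
    _ = _ := by ring

variable {s : ℤ × ℤ → ℂ} {N n : ℕ} {θ : SL(2, ℤ) → ℂ}

theorem main_est (Hs : Sym s N n θ) {κ Λ : ℝ} (κ0 : 0 < κ) (Λ0 : 0 < Λ) :
    ∀ᶠ X : ℕ in atTop, ∀ (H : ℕ) (η : ℕ → ℂ) (A : Finset ℕ), Coef η A X H →
      (H : ℝ) ≤ 4 * √X * Real.log X ^ 3 → √X * Real.log X ^ 2 ≤ Λ * A.card →
      (∀ z : ℕ, 2 ≤ z → (z : ℝ) ≤ Real.log X + 1 →
        ∑ d ∈ Icc 1 (z ^ 4), FF η A d ≤ Λ * (A.card : ℝ) ^ 2 * z) →
      ‖∑ M ∈ A, η M * segSum s Lm 1 1 M‖ ≤ κ * X * A.card := by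
  have N0 := Hs.eqv.N_pos
  have N1 : (0 : ℝ) < N := by exact_mod_cast N0
  obtain ⟨J, hJ⟩ := exists_nat_ge (max 2 (24 / κ))
  have J2 : (2 : ℝ) ≤ J := (le_max_left _ _).trans hJ
  have J3 : 24 ≤ J * κ := (div_le_iff₀ κ0).1 ((le_max_right _ _).trans hJ)
  have J0 : (0 : ℝ) < J := by linarith
  have J4 : 2 ≤ J := by exact_mod_cast J2
  obtain ⟨γ, γ0, hγ⟩ : ∃ γ : ℝ, 0 < γ ∧ 648 * (J : ℝ) ^ 2 * (N : ℝ) ^ 4 * γ = κ ^ 2 :=
    ⟨κ ^ 2 / (648 * (J : ℝ) ^ 2 * (N : ℝ) ^ 4), by positivity, by field_simp⟩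
  obtain ⟨z₀, hz₀⟩ := exists_nat_gt (4 * (((J : ℝ) ^ 2 + 2) * Λ) / γ)
  have z1 : (0 : ℝ) < z₀ := lt_trans (by positivity) hz₀
  have z0 : 0 < z₀ := by exact_mod_cast z1
  set q₀ := (z₀ ^ 4).factorial with hq₀
  have q0 : 0 < q₀ := Nat.factorial_pos _
  have q1 : (0 : ℝ) < q₀ := by exact_mod_cast q0
  obtain ⟨τ, τ0, hτ⟩ : ∃ τ : ℝ, 0 < τ ∧ ((q₀ * N : ℕ) : ℝ) ^ 2 * (q₀ * (3 * τ)) = γ :=
    ⟨γ / (3 * ((q₀ * N : ℝ) ^ 2 * q₀)), by positivity, by push_cast; field_simp⟩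
  have hLE : ∀ᶠ Q : ℕ in atTop, ∀ ρ ∈ range N ×ˢ range N,
      ∀ σ ∈ range (q₀ * N) ×ˢ range (q₀ * N), ∀ K ⊆ box Q, OC K →
        ‖∑ j ∈ K, if cls (q₀ * N) j = σ then tt s N ρ j else 0‖ ≤
          τ ^ 2 / (J : ℝ) ^ 2 * (Q : ℝ) ^ 2 :=
    (eventually_all_finset _).2 fun ρ _ =>
      oc_class Hs.eqv (rep N ρ * Sw) (Nat.mul_pos q0 N0) (by positivity)
  obtain ⟨Q₀, hQ₀⟩ := eventually_atTop.1 hLE
  obtain ⟨c, c1, c2, c3, c4, c5, c6⟩ : ∃ c : ℝ, 4 * J ≤ c ∧ (Q₀ : ℝ) ≤ c ∧ 34 * Λ ≤ γ * c ∧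
      20 * (J : ℝ) ^ 2 * Λ ≤ γ * c ∧ 1 ≤ τ * c ∧ 6 ≤ κ * c := by
    have t : ∀ a b : ℝ, 0 < a → ∀ᶠ c : ℝ in atTop, b ≤ a * c := fun a b ha =>
      (tendsto_id.const_mul_atTop ha).eventually_ge_atTop b
    exact ((eventually_ge_atTop _).and ((eventually_ge_atTop _).and ((t _ _ γ0).and
      ((t _ _ γ0).and ((t _ _ τ0).and (t _ _ κ0)))))).exists
  filter_upwards [ev_r c] with X ⟨r, r0, hx, hs, hL, hr⟩ H η A C hH hm hls
  rw [hs] at hH hm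
  set L := Real.log X with hLd
  have c8 : 8 ≤ c := by linarith
  have L1 : 1 ≤ L := by linarith
  have p1 : L + 1 ≤ (L + 1) ^ 8 := le_self_pow₀ (by linarith) (by norm_num)
  have p2 : L ^ 3 ≤ (L + 1) ^ 8 :=
    (pow_le_pow_left₀ (by linarith) (by linarith) 3).trans
      (pow_le_pow_right₀ (by linarith) (by norm_num))
  have p3 : L ^ 2 ≤ L ^ 3 := pow_le_pow_right₀ L1 (by norm_num)
  have rc : c ≤ r := le_trans (le_mul_of_one_le_right (by linarith) (by linarith)) hr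
  have r1 : 1 ≤ r := by linarith
  have rL : c * L ^ 3 ≤ r := le_trans (by gcongr) hr
  have rL1 : 4 * (L + 1) ≤ r := le_trans (by gcongr; linarith) hr
  obtain ⟨P, hP1, hP2, hP3, hP4⟩ := exists_P L1 (show 4 * L ≤ r by linarith)
  have r3 : r ≤ r ^ 3 := le_self_pow₀ r1 (by norm_num)
  have P1 : (0 : ℝ) < P := by linarith
  have P0 : 0 < P := by exact_mod_cast P1
  have hJP : (J : ℝ) * P ≤ r ^ 5 := by
    calc (J : ℝ) * P ≤ r * r ^ 4 := by gcongr; linarith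
      _ = _ := by ring
  have hQ : (J : ℝ) * P * H < X := by
    calc (J : ℝ) * P * H ≤ J * r ^ 4 * (4 * r ^ 8 * L ^ 3) := by gcongr
      _ = (4 * J * L ^ 3) * r ^ 12 := by ring
      _ ≤ (c * L ^ 3) * r ^ 12 := by gcongr
      _ ≤ r * r ^ 12 := by gcongr
      _ = r ^ 13 := by ring
      _ < r ^ 16 := pow_lt_pow_right₀ (by linarith) (by norm_num)
      _ = X := hx
  have hHX : (H : ℝ) ≤ X := by
    have : (1 : ℝ) ≤ J * P := one_le_mul_of_one_le_of_one_le (by linarith) (by linarith)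
    exact (le_mul_of_one_le_left (Nat.cast_nonneg H) this).trans hQ.le
  have X0 : (0 : ℝ) < X := by
    rw [← hx]
    positivity
  have hQ2 : ((J : ℝ) * P) ^ 2 ≤ X := by
    calc _ ≤ (r ^ 5) ^ 2 := by gcongr
      _ = r ^ 10 := by ring
      _ ≤ r ^ 16 := pow_le_pow_right₀ r1 (by norm_num)
      _ = X := hx
  have hJP1 : (1 : ℝ) ≤ J * P := one_le_mul_of_one_le_of_one_le (by linarith) (by linarith)
  have l1 : Real.log (((J * P : ℕ) : ℝ) ^ 2) ≤ L := by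
    push_cast
    exact Real.log_le_log (by positivity) hQ2
  have l2 : Real.log ((J * P : ℕ) : ℝ) ≤ L := by
    push_cast
    exact Real.log_le_log (by positivity) ((le_self_pow₀ hJP1 two_ne_zero).trans hQ2)
  have l3 : 0 ≤ Real.log (((J * P : ℕ) : ℝ) ^ 2) := by
    rw [← Nat.cast_pow]
    exact Real.log_natCast_nonneg _
  set m : ℝ := (A.card : ℝ) with hmd
  have m0 : 0 ≤ m := Nat.cast_nonneg _
  have zc := Nat.ceil_lt_add_one (show 0 ≤ L by linarith)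
  have zc' := Nat.le_ceil L
  have hz1 : ⌈L⌉₊ ≤ P := by
    have : (⌈L⌉₊ : ℝ) ≤ P := by linarith
    exact_mod_cast this
  have hz2 : ⌈L⌉₊ ^ 4 ≤ (J * P) ^ 2 := by
    have : (⌈L⌉₊ : ℝ) ^ 4 ≤ (J * P) ^ 2 :=
      calc _ ≤ r ^ 4 := by gcongr; linarith
        _ ≤ r ^ 6 := pow_le_pow_right₀ r1 (by norm_num)
        _ = (1 * r ^ 3) ^ 2 := by ring
        _ ≤ _ := by gcongr; linarith
    exact_mod_cast this
  have T1 := Nat.le_ceil (τ * (P : ℝ) ^ 2)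
  have T2 := Nat.ceil_lt_add_one (show 0 ≤ τ * (P : ℝ) ^ 2 by positivity)
  have T3 : (0 : ℝ) < ⌈τ * (P : ℝ) ^ 2⌉₊ := lt_of_lt_of_le (by positivity) T1
  have hcore := core Hs C (B := (X + H) / P + 1) (Q := J * P) (D₀ := z₀ ^ 4)
    (T := ⌈τ * (P : ℝ) ^ 2⌉₊) P0 (by exact_mod_cast hQ) (Nat.lt_mul_div_succ _ P0).le q0
    (fun d h1 h2 => Nat.dvd_factorial h1 h2) (by exact_mod_cast T3)
    (E := τ ^ 2 / (J : ℝ) ^ 2 * ((J * P : ℕ) : ℝ) ^ 2) (Rm := 2 * (γ * m ^ 2))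
    (Z := κ * X * m / (3 * (N : ℝ) ^ 2)) (by positivity) (by positivity) (by positivity)
    (hQ₀ _ (by
      have : (Q₀ : ℝ) ≤ J * P :=
        le_trans (by linarith) (le_mul_of_one_le_left P1.le (show (1 : ℝ) ≤ J by linarith))
      exact_mod_cast this))
    (fun i hi K hKQ hK => by
      refine (rem_le C z0 (Nat.ceil_pos.2 (by linarith)) hz1 hz2 (Λ := Λ * m ^ 2) (by positivity)
        (fun z h1 h2 => hls z h1 ?_) hi hKQ hK).trans ?_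
      · have : (z : ℝ) ≤ ⌈L⌉₊ := by exact_mod_cast h2
        linarith
      · have a1 := num3 (D := ((⌈L⌉₊ ^ 4 : ℕ) : ℝ)) (J := J) L1 r1 hH (Nat.cast_nonneg _) hP1
          (by linarith) l3 l1 (by push_cast; gcongr) m0 γ0 Λ0 hm
          (c4.trans (by gcongr))
        have a2 : 4 * (((J : ℝ) ^ 2 + 2) * (Λ * m ^ 2)) / z₀ ≤ γ * m ^ 2 := by
          rw [div_lt_iff₀ γ0] at hz₀
          rw [div_le_iff₀ z1]
          have := mul_le_mul_of_nonneg_right hz₀.le (sq_nonneg m)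
          linarith
        push_cast at a1 ⊢
        linarith)
    (by
      have a1 := num1 L1 r1 hx hHX P1 hP2 γ0 Λ0 hm
        (le_trans (by linarith) (c3.trans (by gcongr)))
      have a2 := num2 (J := J) L1 r1 hH (Nat.cast_nonneg _) hP3 hP4 (by linarith)
        (Real.log_natCast_nonneg (J * P)) l2 γ0 Λ0 hm (by
          calc 34 * Λ * L ^ 2 ≤ γ * c * L ^ 3 := by gcongr
            _ = γ * (c * L ^ 3) := by ring
            _ ≤ _ := by gcongr)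
      have a3 : (⌈τ * (P : ℝ) ^ 2⌉₊ : ℝ) / (P : ℝ) ^ 2 +
          τ ^ 2 / (J : ℝ) ^ 2 * ((J * P : ℕ) : ℝ) ^ 2 / ⌈τ * (P : ℝ) ^ 2⌉₊ ≤ 3 * τ := by
        have b1 : 1 ≤ τ * (P : ℝ) ^ 2 :=
          c5.trans (by gcongr; exact le_trans (by linarith) (le_self_pow₀ (by linarith) two_ne_zero))
        have b2 : (⌈τ * (P : ℝ) ^ 2⌉₊ : ℝ) / (P : ℝ) ^ 2 ≤ 2 * τ := by
          rw [div_le_iff₀ (by positivity)]
          linarith
        have b3 : τ ^ 2 / (J : ℝ) ^ 2 * ((J * P : ℕ) : ℝ) ^ 2 / ⌈τ * (P : ℝ) ^ 2⌉₊ ≤ τ := by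
          rw [div_le_iff₀ T3]
          calc _ = τ * (τ * (P : ℝ) ^ 2) := by
                push_cast
                field_simp
            _ ≤ _ := by gcongr
        linarith
      have a4 : ((((X + H) / P + 1 : ℕ) : ℝ) + 1) * P ≤ 3 * X := by
        have b1 : (((X + H) / P * P : ℕ) : ℝ) ≤ ((X + H : ℕ) : ℝ) := by
          exact_mod_cast Nat.div_mul_le_self _ _
        have b2 : 2 * (P : ℝ) ≤ X := by
          exact (mul_le_mul_of_nonneg_right J2 P1.le).trans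
            ((le_self_pow₀ hJP1 two_ne_zero).trans hQ2)
        push_cast at b1 ⊢
        linarith
      have a5 : m * (((X + H : ℝ) / (P : ℝ) ^ 2 + 1) +
          2 * (2 * (H / P) * (1 + Real.log ((J * P : ℕ) : ℝ)) + ((J * P : ℕ) : ℝ))) +
          2 * (((q₀ * N : ℕ) : ℝ) ^ 2 * (q₀ * m ^ 2 * ((⌈τ * (P : ℝ) ^ 2⌉₊ : ℝ) / (P : ℝ) ^ 2 +
            τ ^ 2 / (J : ℝ) ^ 2 * ((J * P : ℕ) : ℝ) ^ 2 / ⌈τ * (P : ℝ) ^ 2⌉₊)) +
            2 * (γ * m ^ 2)) ≤ 8 * (γ * m ^ 2) := by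
        have b1 : ((q₀ * N : ℕ) : ℝ) ^ 2 * (q₀ * m ^ 2 * ((⌈τ * (P : ℝ) ^ 2⌉₊ : ℝ) / (P : ℝ) ^ 2 +
            τ ^ 2 / (J : ℝ) ^ 2 * ((J * P : ℕ) : ℝ) ^ 2 / ⌈τ * (P : ℝ) ^ 2⌉₊)) ≤ γ * m ^ 2 := by
          calc _ ≤ ((q₀ * N : ℕ) : ℝ) ^ 2 * (q₀ * m ^ 2 * (3 * τ)) := by gcongr
            _ = _ := by
                rw [← hτ]
                ring
        have b2 := mul_le_mul_of_nonneg_left (add_le_add a1 a2) m0
        rw [Nat.cast_mul J P] at b2 ⊢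
        rw [Nat.cast_mul J P] at b1
        have b3 : m * (γ * m + γ * m) = 2 * (γ * m ^ 2) := by ring
        linarith
      calc _ ≤ ((((X + H) / P + 1 : ℕ) : ℝ) + 1) ^ 2 *
            (((J * P : ℕ) : ℝ) ^ 2 * (8 * (γ * m ^ 2))) := by gcongr
        _ = (((((X + H) / P + 1 : ℕ) : ℝ) + 1) * P) ^ 2 * (J ^ 2 * (8 * (γ * m ^ 2))) := by
            rw [Nat.cast_mul J P]
            ring
        _ ≤ (3 * X) ^ 2 * (J ^ 2 * (8 * (γ * m ^ 2))) := by gcongr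
        _ = _ := by
            rw [div_pow, mul_pow (κ * X), mul_pow κ, ← hγ]
            field_simp
            ring)
  have herr : ‖∑ M ∈ A, η M * (segSum s Lm 1 1 M -
      ∑ i ∈ Lv P (J * P), segSum s (mat i) i.1 i.2 M)‖ ≤ m * (2 * (κ * X / 3)) := by
    refine (norm_sum_le _ _).trans ((sum_le_card_nsmul _ _ _ fun M hM => ?_).trans
      (le_of_eq (nsmul_eq_mul _ _)))
    rw [norm_mul]
    refine (mul_le_of_le_one_left (norm_nonneg _) (C.bdd M)).trans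
      ((Hs.cut_err P0 J4 M).trans ?_)
    have a1 : (M : ℝ) ≤ X + H := by exact_mod_cast (mem_Ico.1 (C.sub hM)).2.le
    have a2 : 4 * (M : ℝ) / J ≤ κ * X / 3 := by
      rw [div_le_iff₀ J0]
      have := mul_le_mul_of_nonneg_right J3 X0.le
      linarith
    have a3 : 2 * (P : ℝ) ^ 2 ≤ κ * X / 3 := by
      have b1 : (P : ℝ) ^ 2 ≤ r ^ 8 := le_trans (le_mul_of_one_le_right (by positivity) L1) hP1
      have b2 : 6 ≤ κ * r ^ 8 :=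
        c6.trans (by gcongr; exact rc.trans (le_self_pow₀ r1 (by norm_num)))
      have b3 : (X : ℝ) = r ^ 8 * r ^ 8 := by
        rw [← hx]
        ring
      have b4 : 0 ≤ r ^ 8 := by positivity
      have := mul_le_mul_of_nonneg_right b2 b4
      rw [b3]
      linarith
    linarith
  have e : ∑ M ∈ A, η M * segSum s Lm 1 1 M =
      ∑ M ∈ A, η M * ∑ i ∈ Lv P (J * P), segSum s (mat i) i.1 i.2 M +
      ∑ M ∈ A, η M * (segSum s Lm 1 1 M - ∑ i ∈ Lv P (J * P), segSum s (mat i) i.1 i.2 M) := by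
    rw [← sum_add_distrib]
    exact sum_congr rfl fun M _ => by ring
  rw [e]
  refine (norm_add_le _ _).trans ((add_le_add hcore herr).trans (le_of_eq ?_))
  field_simp
  ring

end Pool.Agent.P.MP_99daa8_nt.SI
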