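import Pool.Agent.P.MP_99daa8_nt.SI.Convex
import Pool.Agent.P.MP_99daa8_nt.SI.Exp

/-!
Residue classes, and sums weighted by the reciprocal of a determinant.
-/

namespace Pool.Agent.P.MP_99daa8_nt.SI

open scoped MatrixGroups
open Finset Filter Topology

theorem gamma_iff {N : ℕ} {γ : SL(2, ℤ)} : γ ∈ CongruenceSubgroup.Gamma N ↔
    (N : ℤ) ∣ γ 0 0 - 1 ∧ (N : ℤ) ∣ γ 0 1 ∧ (N : ℤ) ∣ γ 1 0 ∧ (N : ℤ) ∣ γ 1 1 - 1 := by
  rw [CongruenceSubgroup.Gamma_mem]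
  simp only [← ZMod.intCast_zmod_eq_zero_iff_dvd, Int.cast_sub, Int.cast_one, sub_eq_zero]

theorem gamma_mono {q N : ℕ} {γ : SL(2, ℤ)} (h : γ ∈ CongruenceSubgroup.Gamma (q * N)) :
    γ ∈ CongruenceSubgroup.Gamma N ∧ γ ∈ CongruenceSubgroup.Gamma q := by
  rw [gamma_iff] at h
  have h1 : (N : ℤ) ∣ ((q * N : ℕ) : ℤ) := by push_cast; exact dvd_mul_left _ _
  have h2 : (q : ℤ) ∣ ((q * N : ℕ) : ℤ) := by push_cast; exact dvd_mul_right _ _
  exact ⟨gamma_iff.2 ⟨h1.trans h.1, h1.trans h.2.1, h1.trans h.2.2.1, h1.trans h.2.2.2⟩,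
    gamma_iff.2 ⟨h2.trans h.1, h2.trans h.2.1, h2.trans h.2.2.1, h2.trans h.2.2.2⟩⟩

/-- Restriction of `s` to a residue class of vectors. -/
noncomputable def cut2 (s : ℤ × ℤ → ℂ) (g : SL(2, ℤ)) (q : ℕ) (σ : ℕ × ℕ) (u : ℤ × ℤ) : ℂ :=
  if (act g⁻¹ u).1 % q = σ.1 ∧ (act g⁻¹ u).2 % q = σ.2 then s u else 0

theorem cut2_equivar {s : ℤ × ℤ → ℂ} {N n : ℕ} {θ : SL(2, ℤ) → ℂ} (H : Equivar s N n θ)
    (g : SL(2, ℤ)) {q : ℕ} (hq : 0 < q) (σ : ℕ × ℕ) : Equivar (cut2 s g q σ) (q * N) n θ where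
  N_pos := Nat.mul_pos hq H.N_pos
  n_pos := H.n_pos
  bdd v := by
    unfold cut2
    split_ifs
    · exact H.bdd v
    · simp
  equiv γ hγ v := by
    obtain ⟨h1, h2⟩ := gamma_mono hγ
    obtain ⟨⟨a, ha⟩, ⟨b, hb⟩, ⟨e, he⟩, ⟨f, hf⟩⟩ := gamma_iff.1 h2
    have h3 : (act g⁻¹ (act γ v)).1 % q = (act g⁻¹ v).1 % q := by
      generalize g⁻¹ = w
      rw [Int.emod_eq_emod_iff_emod_sub_eq_zero]
      refine Int.emod_eq_zero_of_dvd
        ⟨w 0 0 * (a * v.1 + b * v.2) + w 0 1 * (e * v.1 + f * v.2), ?_⟩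
      simp only [act]
      rw [sub_eq_iff_eq_add.1 ha, hb, he, sub_eq_iff_eq_add.1 hf]
      ring
    have h4 : (act g⁻¹ (act γ v)).2 % q = (act g⁻¹ v).2 % q := by
      generalize g⁻¹ = w
      rw [Int.emod_eq_emod_iff_emod_sub_eq_zero]
      refine Int.emod_eq_zero_of_dvd
        ⟨w 1 0 * (a * v.1 + b * v.2) + w 1 1 * (e * v.1 + f * v.2), ?_⟩
      simp only [act]
      rw [sub_eq_iff_eq_add.1 ha, hb, he, sub_eq_iff_eq_add.1 hf]
      ring
    unfold cut2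
    rw [h3, h4, H.equiv γ h1 v, mul_ite, mul_zero]
  mul γ hγ δ hδ := H.mul γ (gamma_mono hγ).1 δ (gamma_mono hδ).1
  pow γ hγ := H.pow γ (gamma_mono hγ).1
  noncong q' hq' := by
    rw [← mul_assoc]
    exact H.noncong (q' * q) (Nat.mul_pos hq' hq)

theorem oc_class {s : ℤ × ℤ → ℂ} {N n : ℕ} {θ : SL(2, ℤ) → ℂ} (H : Equivar s N n θ)
    (g₀ : SL(2, ℤ)) {q : ℕ} (hq : 0 < q) {ε : ℝ} (hε : 0 < ε) :
    ∀ᶠ Q : ℕ in atTop, ∀ σ ∈ range q ×ˢ range q, ∀ K ⊆ box Q, OC K →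
      ‖∑ v ∈ K, if (v.1 % q, v.2 % q) = σ then s (act g₀ (v.1, v.2)) else 0‖ ≤
        ε * (Q : ℝ) ^ 2 := by
  refine (eventually_all_finset _).2 fun σ _ => ?_
  filter_upwards [oc_small (cut2_equivar H g₀ hq σ) g₀ hε] with Q hQ K hK hoc
  refine le_trans (le_of_eq ?_) (hQ K hK hoc)
  congr 1
  refine sum_congr rfl fun v _ => ?_
  unfold cut2
  rw [← act_mul, inv_mul_cancel, act_one]
  simp only [← Int.natCast_mod, Nat.cast_inj, Prod.ext_iff]

/-- The determinant of the rows `i` and `j`, as a natural number. -/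
def dl (i j : ℕ × ℕ) : ℕ := i.1 * j.2 - i.2 * j.1

theorem dl_eq {i j : ℕ × ℕ} (h1 : j.1 < i.1) (h2 : i.2 < j.2) :
    dl i j = i.1 * (j.2 - i.2) + i.2 * (i.1 - j.1) := by
  obtain ⟨c, d⟩ := i
  obtain ⟨x, y⟩ := j
  simp only [dl] at *
  obtain ⟨u, rfl⟩ := Nat.exists_eq_add_of_le h1.le
  obtain ⟨w, rfl⟩ := Nat.exists_eq_add_of_le h2.le
  simp only [Nat.add_sub_cancel_left]
  refine Nat.sub_eq_of_eq_add ?_
  ring

theorem dl_cast {i j : ℕ × ℕ} (h1 : j.1 < i.1) (h2 : i.2 < j.2) :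
    (dl i j : ℤ) = (i.1 : ℤ) * j.2 - i.2 * j.1 := by
  rw [dl_eq h1 h2]
  push_cast [Nat.cast_sub h1.le, Nat.cast_sub h2.le]
  ring

theorem dl_pos {i j : ℕ × ℕ} (h1 : j.1 < i.1) (h2 : i.2 < j.2) : 0 < dl i j := by
  rw [dl_eq h1 h2]
  exact Nat.add_pos_left (Nat.mul_pos (by omega) (by omega)) _

theorem dl_le {Q : ℕ} {i j : ℕ × ℕ} (hi : i ∈ box Q) (hj : j ∈ box Q) : dl i j ≤ Q ^ 2 := by
  rw [sq]
  exact (Nat.sub_le _ _).trans (Nat.mul_le_mul (mem_box.1 hi).1.2 (mem_box.1 hj).2.2)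

theorem OC.filter_dl {K : Finset (ℕ × ℕ)} (h : OC K) (i : ℕ × ℕ) (a b : ℕ) :
    OC (K.filter fun j => a < dl i j ∧ dl i j ≤ b) := by
  constructor
  · intro x₁ x x₂ y h1 h2 l1 l2
    obtain ⟨h3, h4⟩ := mem_filter.1 h1
    obtain ⟨h5, h6⟩ := mem_filter.1 h2
    refine mem_filter.2 ⟨h.1 _ _ _ _ h3 h5 l1 l2, ?_⟩
    have := Nat.mul_le_mul_left i.2 l1
    have := Nat.mul_le_mul_left i.2 l2
    simp only [dl] at *
    omega
  · intro x y₁ y y₂ h1 h2 l1 l2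
    obtain ⟨h3, h4⟩ := mem_filter.1 h1
    obtain ⟨h5, h6⟩ := mem_filter.1 h2
    refine mem_filter.2 ⟨h.2 _ _ _ _ h3 h5 l1 l2, ?_⟩
    have := Nat.mul_le_mul_left i.1 l1
    have := Nat.mul_le_mul_left i.1 l2
    simp only [dl] at *
    omega

theorem small_sum {P : ℕ} (hP : 0 < P) {i : ℕ × ℕ} (h1 : P ≤ i.1) (h2 : P ≤ i.2)
    {K : Finset (ℕ × ℕ)} (hK : ∀ j ∈ K, j.1 < i.1 ∧ i.2 < j.2) (T : ℕ) :
    ∑ j ∈ K with dl i j ≤ T, (1 : ℝ) / dl i j ≤ T / (P : ℝ) ^ 2 := by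
  have P0 : (0 : ℝ) < P := by exact_mod_cast hP
  set φ : ℕ × ℕ → (_ : ℕ) × ℕ := fun j => ⟨(j.2 - i.2) + (i.1 - j.1), i.1 - j.1⟩ with hφ
  have hge : ∀ j ∈ K, P * ((j.2 - i.2) + (i.1 - j.1)) ≤ dl i j := fun j hj => by
    rw [dl_eq (hK j hj).1 (hK j hj).2, mul_add]
    exact Nat.add_le_add (Nat.mul_le_mul_right _ h1) (Nat.mul_le_mul_right _ h2)
  have hinj : Set.InjOn φ (K.filter (fun j => dl i j ≤ T) : Set (ℕ × ℕ)) := by
    intro j hj j' hj' e
    have a1 := hK j (mem_filter.1 hj).1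
    have a2 := hK j' (mem_filter.1 hj').1
    simp only [hφ, Sigma.mk.injEq, heq_eq_eq] at e
    exact Prod.ext (by omega) (by omega)
  calc _ ≤ ∑ j ∈ K with dl i j ≤ T, (1 : ℝ) / (P * (φ j).1) := by
        refine sum_le_sum fun j hj => ?_
        have a1 := hK j (mem_filter.1 hj).1
        have a2 : 0 < (φ j).1 := by
          simp only [hφ]
          omega
        refine one_div_le_one_div_of_le (by positivity) ?_
        exact_mod_cast hge j (mem_filter.1 hj).1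
    _ = ∑ x ∈ (K.filter fun j => dl i j ≤ T).image φ, (1 : ℝ) / (P * x.1) :=
        (sum_image (f := fun x : (_ : ℕ) × ℕ => (1 : ℝ) / (P * x.1)) hinj).symm
    _ ≤ ∑ x ∈ (Icc 1 (T / P)).sigma (fun k => Icc 1 k), (1 : ℝ) / (P * x.1) := by
        refine sum_le_sum_of_subset_of_nonneg (fun x hx => ?_) fun _ _ _ => by positivity
        obtain ⟨j, hj, rfl⟩ := mem_image.1 hx
        have a1 := hK j (mem_filter.1 hj).1
        have a2 := (hge j (mem_filter.1 hj).1).trans (mem_filter.1 hj).2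
        refine mem_sigma.2 ⟨mem_Icc.2 ⟨?_, ?_⟩, mem_Icc.2 ⟨?_, ?_⟩⟩
        · simp only [hφ]
          omega
        · rw [Nat.le_div_iff_mul_le hP, mul_comm]
          exact a2
        · simp only [hφ]
          omega
        · simp only [hφ]
          omega
    _ = ∑ _k ∈ Icc 1 (T / P), (1 : ℝ) / P := by
        rw [sum_sigma]
        refine sum_congr rfl fun k hk => ?_
        have : (k : ℝ) ≠ 0 := by
          have := (mem_Icc.1 hk).1
          positivity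
        simp only [sum_const, Nat.card_Icc, Nat.add_sub_cancel, nsmul_eq_mul]
        field_simp
    _ ≤ _ := by
        simp only [sum_const, Nat.card_Icc, Nat.add_sub_cancel, nsmul_eq_mul]
        have : ((T / P : ℕ) : ℝ) ≤ T / P := Nat.cast_div_le
        calc _ ≤ (T : ℝ) / P * (1 / P) := by gcongr
          _ = _ := by field_simp

theorem tele {a b : ℕ} (hab : a ≤ b) :
    ∑ t ∈ Ico a b, ((1 : ℝ) / t - 1 / (t + 1)) = 1 / a - 1 / b := by
  induction b, hab using Nat.le_induction with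
  | base => simp
  | succ b hb ih =>
    rw [sum_Ico_succ_top hb, ih]
    push_cast
    ring

theorem weighted {P Q : ℕ} (hP : 0 < P) {i : ℕ × ℕ} (hi : i ∈ box Q) (h1 : P ≤ i.1)
    (h2 : P ≤ i.2) {K : Finset (ℕ × ℕ)} (hKQ : K ⊆ box Q) (hoc : OC K)
    (hK : ∀ j ∈ K, j.1 < i.1 ∧ i.2 < j.2) {f : ℕ × ℕ → ℂ} (hf : ∀ j, ‖f j‖ ≤ 1) {E : ℝ}
    (hE : ∀ K' ⊆ box Q, OC K' → ‖∑ j ∈ K', f j‖ ≤ E) {T : ℕ} (hT : 0 < T) :
    ‖∑ j ∈ K, f j / dl i j‖ ≤ T / (P : ℝ) ^ 2 + E / T := by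
  have E0 : 0 ≤ E := (norm_nonneg _).trans (hE K hKQ hoc)
  set R := Q ^ 2 + T + 1 with hR
  rw [← sum_filter_add_sum_filter_not K (fun j => dl i j ≤ T)]
  refine (norm_add_le _ _).trans (add_le_add ?_ ?_)
  · refine le_trans ((norm_sum_le _ _).trans (sum_le_sum fun j _ => ?_)) (small_sum hP h1 h2 hK T)
    rw [norm_div, Complex.norm_natCast]
    exact div_le_div_of_nonneg_right (hf j) (Nat.cast_nonneg _)
  · have e1 : ∀ j ∈ K.filter (fun j => ¬ dl i j ≤ T), f j / dl i j =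
        ((1 / R : ℝ) : ℂ) * f j + ∑ t ∈ Ico (T + 1) R,
          if dl i j ≤ t then (((1 : ℝ) / t - 1 / (t + 1) : ℝ) : ℂ) * f j else 0 := by
      intro j hj
      obtain ⟨a1, a2⟩ := mem_filter.1 hj
      have a3 := dl_le hi (hKQ a1)
      rw [← sum_filter, ← sum_mul, ← add_mul]
      have a4 : (Ico (T + 1) R).filter (fun t => dl i j ≤ t) = Ico (dl i j) R := by
        ext t
        simp only [mem_filter, mem_Ico]
        omega
      rw [a4, ← Complex.ofReal_sum, tele (by omega)]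
      push_cast
      ring
    rw [sum_congr rfl e1, sum_add_distrib, sum_comm, ← mul_sum]
    have b1 : ‖∑ j ∈ K with ¬ dl i j ≤ T, f j‖ ≤ E := by
      have : K.filter (fun j => ¬ dl i j ≤ T) = K.filter fun j => T < dl i j ∧ dl i j ≤ R := by
        refine filter_congr fun j hj => ?_
        have a3 := dl_le hi (hKQ hj)
        omega
      rw [this]
      exact hE _ ((filter_subset _ _).trans hKQ) (hoc.filter_dl i T R)
    have b2 : ∀ t ∈ Ico (T + 1) R, ‖∑ j ∈ K with ¬ dl i j ≤ T,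
        if dl i j ≤ t then (((1 : ℝ) / t - 1 / (t + 1) : ℝ) : ℂ) * f j else 0‖ ≤
        ((1 : ℝ) / t - 1 / (t + 1)) * E := by
      intro t ht
      have t0 : (0 : ℝ) < t := by
        have := (mem_Ico.1 ht).1
        exact_mod_cast (by omega : 0 < t)
      have t1 : 0 ≤ (1 : ℝ) / t - 1 / (t + 1) :=
        sub_nonneg.2 (one_div_le_one_div_of_le t0 (by linarith))
      rw [← sum_filter, filter_filter, ← mul_sum, norm_mul, Complex.norm_real,
        Real.norm_of_nonneg t1]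
      refine mul_le_mul_of_nonneg_left ?_ t1
      simp only [not_le]
      exact hE _ ((filter_subset _ _).trans hKQ) (hoc.filter_dl i T t)
    have T0 : (0 : ℝ) < T := by exact_mod_cast hT
    calc _ ≤ (1 / R : ℝ) * E + ∑ t ∈ Ico (T + 1) R, ((1 : ℝ) / t - 1 / (t + 1)) * E := by
          refine (norm_add_le _ _).trans (add_le_add ?_ ((norm_sum_le _ _).trans (sum_le_sum b2)))
          rw [norm_mul, Complex.norm_real, Real.norm_of_nonneg (by positivity)]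
          exact mul_le_mul_of_nonneg_left b1 (by positivity)
      _ = E / (T + 1) := by
          rw [← sum_mul, tele (by omega)]
          push_cast
          ring
      _ ≤ _ := by gcongr; linarith

theorem dl_inj {i : ℕ × ℕ} (hc : Nat.Coprime i.1 i.2)
    {K : Finset (ℕ × ℕ)} (hK : ∀ j ∈ K, j.1 < i.1 ∧ i.2 < j.2) :
    Set.InjOn (dl i) (K : Set (ℕ × ℕ)) := by
  intro j a1 j' a3 e
  have b1 := dl_cast (hK j a1).1 (hK j a1).2
  have b2 := dl_cast (hK j' a3).1 (hK j' a3).2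
  rw [e] at b1
  have c1 := hK j a1
  have c2 := hK j' a3
  have hz : IsCoprime (i.1 : ℤ) i.2 := Nat.isCoprime_iff_coprime.2 hc
  have d1 : (i.1 : ℤ) ∣ (j.1 : ℤ) - j'.1 :=
    hz.dvd_of_dvd_mul_left ⟨(j.2 : ℤ) - j'.2, by linear_combination b1 - b2⟩
  have d2 := Int.eq_zero_of_abs_lt_dvd d1 (by rw [abs_lt]; constructor <;> omega)
  have d3 : (i.1 : ℤ) * ((j.2 : ℤ) - j'.2) = 0 := by linear_combination b2 - b1 + i.2 * d2
  have d4 := (mul_eq_zero.1 d3).resolve_left (by omega)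
  exact Prod.ext (by omega) (by omega)

end Pool.Agent.P.MP_99daa8_nt.SI
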