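import Pool.Agent.P.MP_99daa8_nt.SI.Farey
import Pool.Agent.P.MP_99daa8_nt.SI.Weighted
import Pool.Agent.P.MP_99daa8_nt.SI.Frac

/-!
Correlation sums attached to pairs of leaves.
-/

namespace Pool.Agent.P.MP_99daa8_nt.SI

open scoped MatrixGroups
open Finset

/-- The linear form with coefficients `i`. -/
def lin (i v : ℕ × ℕ) : ℕ := i.1 * v.1 + i.2 * v.2

/-- The range of the tail vectors. -/
def UU (B : ℕ) : Finset (ℕ × ℕ) := Icc 1 B ×ˢ range (B + 1)

theorem mem_UU {B : ℕ} {v : ℕ × ℕ} : v ∈ UU B ↔ (1 ≤ v.1 ∧ v.1 ≤ B) ∧ v.2 ≤ B := by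
  simp only [UU, mem_product, mem_Icc, mem_range, Nat.lt_succ_iff]

/-- The correlation sum of two leaves. -/
noncomputable def Tp (η : ℕ → ℂ) (B : ℕ) (i j : ℕ × ℕ) : ℂ :=
  ∑ v ∈ UU B, η (lin i v) * (starRingEnd ℂ) (η (lin j v))

/-- Coefficients bounded by one and supported on a subset `A` of `[X, X + H)`. -/
structure Coef (η : ℕ → ℂ) (A : Finset ℕ) (X H : ℕ) : Prop where
  bdd : ∀ M, ‖η M‖ ≤ 1
  supp : ∀ M, M ∉ A → η M = 0
  sub : A ⊆ Ico X (X + H)

theorem Tp_conj (η : ℕ → ℂ) (B : ℕ) (i j : ℕ × ℕ) :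
    Tp η B j i = (starRingEnd ℂ) (Tp η B i j) := by
  unfold Tp
  rw [map_sum]
  refine sum_congr rfl fun v _ => ?_
  rw [map_mul, Complex.conj_conj, mul_comm]

variable {η : ℕ → ℂ} {A : Finset ℕ} {X H : ℕ}

theorem Coef.Tp_filter (C : Coef η A X H) (B : ℕ) (i j : ℕ × ℕ) :
    Tp η B i j = ∑ v ∈ UU B with lin i v ∈ A ∧ lin j v ∈ A,
      η (lin i v) * (starRingEnd ℂ) (η (lin j v)) := by
  rw [sum_filter]
  refine sum_congr rfl fun v _ => ?_
  split_ifs with h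
  · rfl
  · rcases not_and_or.1 h with h | h <;> simp [C.supp _ h]

theorem Coef.Tp_le (C : Coef η A X H) (B : ℕ) (i j : ℕ × ℕ) {m : ℕ}
    (hm : ∀ M ∈ A, ((UU B).filter fun v => lin i v = M ∧ lin j v ∈ A).card ≤ m) :
    ‖Tp η B i j‖ ≤ A.card * m := by
  rw [C.Tp_filter]
  have h1 := card_le_mul_card_image_of_maps_to
    (s := (UU B).filter fun v => lin i v ∈ A ∧ lin j v ∈ A) (t := A) (f := lin i)
    (fun v hv => (mem_filter.1 hv).2.1) m fun M hM => le_trans (card_le_card fun v hv => by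
      simp only [mem_filter] at hv ⊢
      exact ⟨hv.1.1, hv.2, hv.1.2.2⟩) (hm M hM)
  have h2 : ∀ v, ‖η (lin i v) * (starRingEnd ℂ) (η (lin j v))‖ ≤ 1 := fun v => by
    rw [norm_mul, Complex.norm_conj]
    exact mul_le_one₀ (C.bdd _) (norm_nonneg _) (C.bdd _)
  refine (norm_sum_le _ _).trans ((sum_le_card_nsmul _ _ 1 fun v _ => h2 v).trans ?_)
  rw [nsmul_eq_mul, mul_one, mul_comm]
  exact_mod_cast h1

theorem Coef.Tp_diag (C : Coef η A X H) (B : ℕ) {P : ℕ} (hP : 0 < P) {i : ℕ × ℕ}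
    (hc : Nat.Coprime i.1 i.2) (h1 : P ≤ i.1) (h2 : P ≤ i.2) :
    ‖Tp η B i i‖ ≤ A.card * ((X + H : ℝ) / (P : ℝ) ^ 2 + 1) := by
  have c0 : 0 < i.1 := by omega
  have d0 : 0 < i.2 := by omega
  refine (C.Tp_le B i i (m := (X + H) / P ^ 2 + 1) fun M hM => ?_).trans ?_
  · have a1 : (UU B).filter (fun v => lin i v = M ∧ lin i v ∈ A) ⊆ seg i.1 i.2 M := fun v hv => by
      obtain ⟨b1, b2, -⟩ := mem_filter.1 hv
      exact (mem_seg c0 d0).2 ⟨(mem_UU.1 b1).1.1, b2⟩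
    refine (card_le_card a1).trans ?_
    have a2 := card_seg_le c0 d0 hc M
    have a3 := (mem_Ico.1 (C.sub hM)).2
    have a4 : P ^ 2 ≤ i.1 * i.2 := by
      rw [sq]
      exact Nat.mul_le_mul h1 h2
    generalize (seg i.1 i.2 M).card = t at *
    rcases t with _ | t
    · exact Nat.zero_le _
    · refine Nat.succ_le_succ ((Nat.le_div_iff_mul_le (by positivity)).2 ?_)
      have := Nat.mul_le_mul_left t a4
      nlinarith
  · have : (((X + H) / P ^ 2 : ℕ) : ℝ) ≤ ((X + H : ℕ) : ℝ) / ((P ^ 2 : ℕ) : ℝ) := Nat.cast_div_le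
    push_cast at this ⊢
    gcongr

theorem Coef.Tp_det (C : Coef η A X H) (B : ℕ) {i j : ℕ × ℕ} (c0 : 0 < i.1) (d0 : 0 < i.2)
    (hc : Nat.Coprime i.1 i.2) {δ : ℕ} (hδ : 0 < δ)
    (h : (δ : ℤ) ≤ |(i.1 : ℤ) * j.2 - i.2 * j.1|) :
    ‖Tp η B i j‖ ≤ A.card * ((H : ℝ) / δ + 1) := by
  refine (C.Tp_le B i j (m := H / δ + 1) fun M hM => ?_).trans ?_
  · rw [← card_range (H / δ + 1)]
    refine card_le_card_of_injOn (fun v => (lin j v - X) / δ) (fun v hv => ?_) fun v hv w hw e => ?_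
    · have := mem_Ico.1 (C.sub (mem_filter.1 hv).2.2)
      exact mem_coe.2 (mem_range.2 (Nat.lt_succ_of_le (Nat.div_le_div_right (by omega))))
    · obtain ⟨a1, a2, a3⟩ := mem_filter.1 hv
      obtain ⟨a4, a5, a6⟩ := mem_filter.1 hw
      obtain ⟨t, t1, t2⟩ := tree_param c0 d0 hc ((mem_seg c0 d0).2 ⟨(mem_UU.1 a1).1.1, a2⟩)
        ((mem_seg c0 d0).2 ⟨(mem_UU.1 a4).1.1, a5⟩)
      have b1 := mem_Ico.1 (C.sub a3)
      have b2 := mem_Ico.1 (C.sub a6)
      have b3 : |(lin j v : ℤ) - lin j w| < δ := by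
        simp only at e
        have c1 := Nat.div_add_mod (lin j v - X) δ
        have c2 := Nat.div_add_mod (lin j w - X) δ
        have c3 := Nat.mod_lt (lin j v - X) hδ
        have c4 := Nat.mod_lt (lin j w - X) hδ
        rw [e] at c1
        rw [abs_lt]
        constructor <;> omega
      have b4 : (lin j v : ℤ) - lin j w = t * ((i.1 : ℤ) * j.2 - i.2 * j.1) := by
        simp only [lin]
        push_cast
        rw [t1, t2]
        ring
      have b5 : t = 0 := by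
        by_contra h0
        rw [b4, abs_mul] at b3
        have := Int.one_le_abs h0
        nlinarith [abs_nonneg ((i.1 : ℤ) * j.2 - i.2 * j.1)]
      subst b5
      exact Prod.ext (by omega) (by omega)
  · have : ((H / δ : ℕ) : ℝ) ≤ (H : ℝ) / δ := Nat.cast_div_le
    push_cast
    gcongr

theorem Coef.Tp_zero (C : Coef η A X H) (B : ℕ) {Q : ℕ} (hQ : Q * H < X) {i j : ℕ × ℕ}
    (hi : i ∈ box Q) (h1 : i.1 < j.1) (h2 : i.2 < j.2) : Tp η B i j = 0 := by
  rw [C.Tp_filter]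
  refine sum_eq_zero fun v hv => ?_
  obtain ⟨-, a2, a3⟩ := mem_filter.1 hv
  have b1 := mem_Ico.1 (C.sub a2)
  have b2 := mem_Ico.1 (C.sub a3)
  obtain ⟨⟨-, c1⟩, -, c2⟩ := mem_box.1 hi
  simp only [lin] at b1 b2
  have d1 := Nat.mul_le_mul_right v.1 c1
  have d2 := Nat.mul_le_mul_right v.2 c2
  have d3 := Nat.mul_le_mul_right v.1 (Nat.succ_le_of_lt h1)
  have d4 := Nat.mul_le_mul_right v.2 (Nat.succ_le_of_lt h2)
  have d5 : H < v.1 + v.2 := lt_of_mul_lt_mul_left (a := Q) (by rw [mul_add]; omega) (Nat.zero_le _)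
  rw [Nat.succ_mul] at d3 d4
  omega

/-- The multiplier attached to a pair of leaves. -/
noncomputable def mu (i j : ℕ × ℕ) : ℤ := mat i 0 0 * j.2 - mat i 0 1 * j.1

theorem mu_coprime {i j : ℕ × ℕ} (hi : Nat.Coprime i.1 i.2) (hj : Nat.Coprime j.1 j.2)
    (h1 : j.1 < i.1) (h2 : i.2 < j.2) : IsCoprime (dl i j : ℤ) (mu i j) := by
  obtain ⟨u, w, h⟩ := Nat.isCoprime_iff_coprime.2 hj
  have hd := det_eq (mat i)
  rw [(mat_row hi).1, (mat_row hi).2] at hd
  refine ⟨-(u * mat i 0 0 + w * mat i 0 1), u * i.1 + w * i.2, ?_⟩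
  rw [dl_cast h1 h2, mu]
  linear_combination h + (u * j.1 + w * j.2) * hd

theorem Coef.Tp_good (C : Coef η A X H) {B P Q : ℕ} (hQ : Q * H < X) (hB : X + H ≤ P * B)
    {i j : ℕ × ℕ} (hi : i ∈ box Q) (hc : Nat.Coprime i.1 i.2) (p1 : P ≤ i.1) (p2 : P ≤ i.2)
    (hj : j ∈ box Q) (h1 : j.1 < i.1) (h2 : i.2 < j.2) :
    Tp η B i j = TT η A (dl i j) (mu i j) := by
  have hd := det_eq (mat i)
  rw [(mat_row hc).1, (mat_row hc).2] at hd
  have hΔ := dl_cast h1 h2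
  have Δ0 : (0 : ℤ) < dl i j := by exact_mod_cast dl_pos h1 h2
  rw [C.Tp_filter, TT, ← sum_product', ← sum_filter]
  refine sum_bij (fun v _ => (lin i v, lin j v)) (fun v hv => ?_) (fun v _ w _ e => ?_)
    (fun x hx => ?_) fun _ _ => rfl
  · refine mem_filter.2 ⟨mem_product.2 (mem_filter.1 hv).2, mat i 0 0 * v.1 + mat i 0 1 * v.2, ?_⟩
    simp only [lin, mu, hΔ]
    push_cast
    linear_combination (j.1 * v.1 + j.2 * v.2) * hd
  · obtain ⟨e1, e2⟩ := Prod.mk.inj e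
    have e3 : (i.1 : ℤ) * v.1 + i.2 * v.2 = i.1 * w.1 + i.2 * w.2 := by exact_mod_cast e1
    have e4 : (j.1 : ℤ) * v.1 + j.2 * v.2 = j.1 * w.1 + j.2 * w.2 := by exact_mod_cast e2
    have f1 : (dl i j : ℤ) * ((v.1 : ℤ) - w.1) = 0 := by
      rw [hΔ]
      linear_combination j.2 * e3 - i.2 * e4
    have f2 : (dl i j : ℤ) * ((v.2 : ℤ) - w.2) = 0 := by
      rw [hΔ]
      linear_combination i.1 * e4 - j.1 * e3
    have f3 := (mul_eq_zero.1 f1).resolve_left Δ0.ne'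
    have f4 := (mul_eq_zero.1 f2).resolve_left Δ0.ne'
    exact Prod.ext (by omega) (by omega)
  · obtain ⟨M, M'⟩ := x
    obtain ⟨a1, u, hu⟩ := mem_filter.1 hx
    obtain ⟨a2, a3⟩ := mem_product.1 a1
    simp only [mu] at hu a2 a3
    have b1 := mem_Ico.1 (C.sub a2)
    have b2 := mem_Ico.1 (C.sub a3)
    obtain ⟨⟨c1, c2⟩, c3, c4⟩ := mem_box.1 hi
    obtain ⟨⟨c5, c6⟩, c7, c8⟩ := mem_box.1 hj
    set x : ℤ := i.2 * u - mat i 0 1 * M with hx'
    set y : ℤ := mat i 0 0 * M - i.1 * u with hy'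
    have e1 : (i.1 : ℤ) * x + i.2 * y = M := by
      rw [hx', hy']
      linear_combination M * hd
    have e2 : (j.1 : ℤ) * x + j.2 * y = M' := by
      rw [hx', hy']
      rw [hΔ] at hu
      linear_combination hu
    have x0 : 0 < x := by
      have f1 : (dl i j : ℤ) * x = j.2 * M - i.2 * M' := by
        rw [hΔ]
        linear_combination j.2 * e1 - i.2 * e2
      have f2 : i.2 * M' < j.2 * M := by
        have g1 := Nat.mul_le_mul_right M (Nat.succ_le_of_lt h2)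
        have g2 := Nat.mul_le_mul_left i.2 (show M' ≤ M + H by omega)
        have g3 := Nat.mul_le_mul_right H c4
        rw [Nat.succ_mul] at g1
        rw [mul_add] at g2
        omega
      have f3 : (i.2 : ℤ) * M' < j.2 * M := by exact_mod_cast f2
      exact (mul_pos_iff_of_pos_left Δ0).1 (by linarith)
    have y0 : 0 < y := by
      have f1 : (dl i j : ℤ) * y = i.1 * M' - j.1 * M := by
        rw [hΔ]
        linear_combination i.1 * e2 - j.1 * e1
      have f2 : j.1 * M < i.1 * M' := by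
        have g1 := Nat.mul_le_mul_right M' (Nat.succ_le_of_lt h1)
        have g2 := Nat.mul_le_mul_left j.1 (show M ≤ M' + H by omega)
        have g3 := Nat.mul_le_mul_right H c6
        rw [Nat.succ_mul] at g1
        rw [mul_add] at g2
        omega
      have f3 : (j.1 : ℤ) * M < i.1 * M' := by exact_mod_cast f2
      exact (mul_pos_iff_of_pos_left Δ0).1 (by linarith)
    obtain ⟨x', hx2⟩ := Int.eq_ofNat_of_zero_le x0.le
    obtain ⟨y', hy2⟩ := Int.eq_ofNat_of_zero_le y0.le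
    rw [hx2, hy2] at e1 e2
    rw [hx2] at x0
    have e3 : i.1 * x' + i.2 * y' = M := by exact_mod_cast e1
    have e4 : j.1 * x' + j.2 * y' = M' := by exact_mod_cast e2
    have g1 := Nat.mul_le_mul_right x' p1
    have g2 := Nat.mul_le_mul_right y' p2
    have g3 : x' < B := lt_of_mul_lt_mul_left (a := P) (by omega) (Nat.zero_le _)
    have g4 : y' < B := lt_of_mul_lt_mul_left (a := P) (by omega) (Nat.zero_le _)
    refine ⟨(x', y'), mem_filter.2 ⟨mem_UU.2 ⟨⟨?_, g3.le⟩, g4.le⟩, ?_⟩, ?_⟩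
    · simp only
      omega
    · simp only [lin, e3, e4]
      exact ⟨a2, a3⟩
    · simp only [lin, e3, e4]

theorem harm_dist {Q d : ℕ} (hd : d ∈ Icc 1 Q) :
    ∑ y ∈ (Icc 1 Q).erase d, (1 : ℝ) / (Nat.dist y d) ≤ 2 * (1 + Real.log Q) := by
  rw [← sum_filter_add_sum_filter_not _ (fun y => y < d), two_mul]
  obtain ⟨d1, d2⟩ := mem_Icc.1 hd
  have key : ∀ S : Finset ℕ, S ⊆ (Icc 1 Q).erase d → Set.InjOn (fun y => Nat.dist y d) S →
      ∑ y ∈ S, (1 : ℝ) / (Nat.dist y d) ≤ 1 + Real.log Q := by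
    intro S hS hinj
    rw [← sum_image (f := fun k : ℕ => (1 : ℝ) / k) hinj]
    refine le_trans (sum_le_sum_of_subset_of_nonneg (fun k hk => ?_) fun _ _ _ => by positivity)
      (harm_le Q)
    obtain ⟨y, hy, rfl⟩ := mem_image.1 hk
    have := hS hy
    simp only [mem_erase, mem_Icc, Nat.dist] at this ⊢
    omega
  refine add_le_add (key _ (filter_subset _ _) fun y hy y' hy' e => ?_)
    (key _ (filter_subset _ _) fun y hy y' hy' e => ?_)
  · have a1 := (mem_filter.1 hy).2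
    have a2 := (mem_filter.1 hy').2
    simp only [Nat.dist] at e
    omega
  · have a1 := (mem_filter.1 hy).2
    have a2 := (mem_filter.1 hy').2
    simp only [Nat.dist] at e
    omega

theorem line_sum {P Q d : ℕ} (hP : 0 < P) (hd : d ∈ Icc 1 Q) (H : ℕ) :
    ∑ y ∈ (Icc 1 Q).erase d, ((H : ℝ) / ((P * Nat.dist y d : ℕ) : ℝ) + 1) ≤
      2 * (H / P) * (1 + Real.log Q) + Q := by
  rw [sum_add_distrib]
  refine add_le_add ?_ ?_
  · calc _ = (H / P : ℝ) * ∑ y ∈ (Icc 1 Q).erase d, (1 : ℝ) / (Nat.dist y d) := by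
          rw [mul_sum]
          refine sum_congr rfl fun y _ => ?_
          push_cast
          ring
      _ ≤ (H / P : ℝ) * (2 * (1 + Real.log Q)) :=
          mul_le_mul_of_nonneg_left (harm_dist hd) (by positivity)
      _ = _ := by ring
  · simp only [sum_const, nsmul_eq_mul, mul_one]
    have := card_erase_le (s := Icc 1 Q) (a := d)
    rw [Nat.card_Icc, Nat.add_sub_cancel] at this
    exact_mod_cast this

theorem Coef.rest (C : Coef η A X H) (B : ℕ) {P Q : ℕ} (hP : 0 < P) (hQ : Q * H < X)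
    {i : ℕ × ℕ} (hi : i ∈ box Q) (hc : Nat.Coprime i.1 i.2) (p1 : P ≤ i.1) (p2 : P ≤ i.2)
    {L : Finset (ℕ × ℕ)} (hL : L ⊆ box Q)
    (hr : ∀ j ∈ L, ¬ (j.1 < i.1 ∧ i.2 < j.2) ∧ ¬ (i.1 < j.1 ∧ j.2 < i.2)) :
    ∑ j ∈ L, ‖Tp η B i j‖ ≤ A.card * (((X + H : ℝ) / (P : ℝ) ^ 2 + 1) +
      2 * (2 * (H / P) * (1 + Real.log Q) + Q)) := by
  obtain ⟨c1, c2⟩ := mem_box.1 hi
  set S1 := ((Icc 1 Q).erase i.2).image fun y => (i.1, y) with hS1
  set S2 := ((Icc 1 Q).erase i.1).image fun x => (x, i.2) with hS2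
  have hsub : L.filter (fun j => Tp η B i j ≠ 0) ⊆ {i} ∪ (S1 ∪ S2) := by
    intro j hj
    obtain ⟨a1, a2⟩ := mem_filter.1 hj
    have a3 := hr j a1
    have a4 := mem_box.1 (hL a1)
    have a5 : ¬ (i.1 < j.1 ∧ i.2 < j.2) := fun h => a2 (C.Tp_zero B hQ hi h.1 h.2)
    have a6 : ¬ (j.1 < i.1 ∧ j.2 < i.2) := fun h => a2 (by
      rw [Tp_conj, C.Tp_zero B hQ (hL a1) h.1 h.2, map_zero])
    simp only [mem_union, mem_singleton, hS1, hS2, mem_image, mem_erase, mem_Icc]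
    by_cases b1 : j.1 = i.1
    · by_cases b2 : j.2 = i.2
      · exact Or.inl (Prod.ext b1 b2)
      · exact Or.inr (Or.inl ⟨j.2, ⟨b2, a4.2⟩, Prod.ext b1.symm rfl⟩)
    · exact Or.inr (Or.inr ⟨j.1, ⟨b1, a4.1⟩, Prod.ext rfl (by simp only; omega)⟩)
  have un : ∀ S T : Finset (ℕ × ℕ), ∑ j ∈ S ∪ T, ‖Tp η B i j‖ ≤
      ∑ j ∈ S, ‖Tp η B i j‖ + ∑ j ∈ T, ‖Tp η B i j‖ := fun S T => by
    rw [← sum_union_inter]
    exact le_add_of_nonneg_right (sum_nonneg fun _ _ => norm_nonneg _)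
  have e0 : ∑ j ∈ L, ‖Tp η B i j‖ = ∑ j ∈ L with Tp η B i j ≠ 0, ‖Tp η B i j‖ :=
    (sum_filter_of_ne fun j _ h => norm_ne_zero_iff.1 h).symm
  have b0 := C.Tp_diag B hP hc p1 p2
  have b1 : ∑ j ∈ S1, ‖Tp η B i j‖ ≤ A.card * (2 * (H / P) * (1 + Real.log Q) + Q) := by
    rw [hS1, sum_image fun y _ y' _ e => (Prod.mk.inj e).2]
    refine le_trans ?_ (mul_le_mul_of_nonneg_left (line_sum hP (mem_Icc.2 c2) H) (by positivity))
    rw [mul_sum]
    refine sum_le_sum fun y hy => C.Tp_det B c1.1 c2.1 hc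
      (Nat.mul_pos hP (Nat.dist_pos_of_ne (mem_erase.1 hy).1)) ?_
    simp only
    rw [show (i.1 : ℤ) * y - i.2 * i.1 = i.1 * (y - i.2) by ring, abs_mul, Nat.abs_cast]
    push_cast
    refine mul_le_mul (by exact_mod_cast p1) ?_ (by positivity) (by positivity)
    rw [le_abs]
    simp only [Nat.dist]
    omega
  have b2 : ∑ j ∈ S2, ‖Tp η B i j‖ ≤ A.card * (2 * (H / P) * (1 + Real.log Q) + Q) := by
    rw [hS2, sum_image fun y _ y' _ e => (Prod.mk.inj e).1]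
    refine le_trans ?_ (mul_le_mul_of_nonneg_left (line_sum hP (mem_Icc.2 c1) H) (by positivity))
    rw [mul_sum]
    refine sum_le_sum fun y hy => C.Tp_det B c1.1 c2.1 hc
      (Nat.mul_pos hP (Nat.dist_pos_of_ne (mem_erase.1 hy).1)) ?_
    simp only
    rw [show (i.1 : ℤ) * i.2 - i.2 * y = i.2 * (i.1 - y) by ring, abs_mul, Nat.abs_cast]
    push_cast
    refine mul_le_mul (by exact_mod_cast p2) ?_ (by positivity) (by positivity)
    rw [le_abs]
    simp only [Nat.dist]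
    omega
  rw [e0]
  refine (sum_le_sum_of_subset_of_nonneg hsub fun _ _ _ => norm_nonneg _).trans ?_
  have u1 := un {i} (S1 ∪ S2)
  have u2 := un S1 S2
  rw [sum_singleton] at u1
  linarith

end Pool.Agent.P.MP_99daa8_nt.SI
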