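import Pool.Agent.P.MP_99daa8_nt.SI.Frac
import Pool.Agent.P.MP_a1177c_nt.EK.BTAux
import Pool.Agent.Lib.Mertens.Third

/-!
The large sieve for sequences supported on primes.
-/

namespace Pool.Agent.P.MP_99daa8_nt.SI

open Finset Pool.Agent.P.MP_a1177c_nt.EK.BTAux

theorem ramanujan {q M : ℕ} (hq : 0 < q) (h : Nat.Coprime q M) :
    ∑ a ∈ red' q, ee (M * ((a : ℝ) / q)) = (ArithmeticFunction.moebius q : ℂ) := by
  have h1 := (ArithmeticFunction.sum_eq_iff_sum_mul_moebius_eq (R := ℂ)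
    (f := fun n => ∑ a ∈ red' n, ee (M * ((a : ℝ) / n)))
    (g := fun n => if (n : ℤ) ∣ (M : ℤ) then (n : ℂ) else 0)).1 (fun n hn => by
      rw [← sum_frac (fun x => ee (M * x)) hn, ← geo_dvd hn]
      refine sum_congr rfl fun a _ => ?_
      congr 1
      push_cast
      ring) q hq
  rw [← h1, sum_eq_single (q, 1)]
  · simp
  · rintro ⟨x, y⟩ hx hne
    have h2 := (Nat.mem_divisorsAntidiagonal.1 hx).1
    simp only at h2 ⊢
    rw [if_neg, mul_zero]
    intro h3
    have h4 : y ∣ M := by exact_mod_cast h3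
    have h5 : y = 1 := Nat.eq_one_of_dvd_coprimes h (Dvd.intro_left _ h2) h4
    subst h5
    rw [mul_one] at h2
    subst h2
    exact hne rfl
  · intro h2
    exact absurd (Nat.mem_divisorsAntidiagonal.2 ⟨mul_one q, hq.ne'⟩) h2

theorem montgomery (η : ℕ → ℂ) {A : Finset ℕ} {q : ℕ} (hq : Squarefree q)
    (h : ∀ M ∈ A, Nat.Coprime q M) (β : ℝ) :
    (q : ℝ)⁻¹ * ‖SS η A β‖ ^ 2 ≤ ∑ a ∈ red' q, ‖SS η A ((a : ℝ) / q + β)‖ ^ 2 := by
  have q0 : 0 < q := Nat.pos_of_ne_zero hq.ne_zero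
  have q1 : (0 : ℝ) < q := by exact_mod_cast q0
  have h1 : ∑ a ∈ red' q, SS η A ((a : ℝ) / q + β) =
      (ArithmeticFunction.moebius q : ℂ) * SS η A β := by
    unfold SS
    rw [sum_comm, mul_sum]
    refine sum_congr rfl fun M hM => ?_
    rw [← ramanujan q0 (h M hM), sum_mul]
    refine sum_congr rfl fun a _ => ?_
    rw [mul_add, ee_add]
    ring
  have h2 : ‖(ArithmeticFunction.moebius q : ℂ)‖ = 1 := by
    rw [Complex.norm_intCast, ← Int.cast_abs,
      ArithmeticFunction.abs_moebius_eq_one_of_squarefree hq, Int.cast_one]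
  have h3 : ‖SS η A β‖ ≤ ∑ a ∈ red' q, 1 * ‖SS η A ((a : ℝ) / q + β)‖ := by
    simp only [one_mul]
    refine le_trans (le_of_eq ?_) (norm_sum_le _ _)
    rw [h1, norm_mul, h2, one_mul]
  have h4 := (pow_le_pow_left₀ (norm_nonneg _) h3 2).trans (sum_mul_sq_le_sq_mul_sq _ _ _)
  simp only [one_pow, sum_const, nsmul_eq_mul, mul_one] at h4
  have h5 : ((red' q).card : ℝ) ≤ q := by
    have := card_filter_le (range q) fun b => Nat.Coprime b q
    rw [card_range] at this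
    exact_mod_cast this
  rw [inv_mul_le_iff₀ q1]
  exact h4.trans (mul_le_mul_of_nonneg_right h5 (sum_nonneg fun _ _ => by positivity))

theorem ratio_factorial : ∃ C : ℝ, 0 < C ∧ ∀ D : ℕ, 2 ≤ D →
    ((D.factorial : ℕ) : ℝ) / (D.factorial).totient ≤ C * Real.log D := by
  obtain ⟨c, C, c0, -, h⟩ := Pool.Agent.Lib.Mertens.mertens_third_bounds
  refine ⟨c⁻¹, by positivity, fun D hD => ?_⟩
  have hD' : (2 : ℝ) ≤ D := by exact_mod_cast hD
  have l0 : 0 < Real.log D := Real.log_pos (by linarith)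
  have h1 := (h D hD').1
  rw [Nat.floor_natCast] at h1
  have e : (D.factorial).primeFactors = (Ioc 0 D).filter Nat.Prime := by
    ext p
    rw [Nat.mem_primeFactors, mem_filter, mem_Ioc]
    constructor
    · rintro ⟨h2, h3, -⟩
      exact ⟨⟨h2.pos, h2.dvd_factorial.1 h3⟩, h2⟩
    · rintro ⟨⟨-, h3⟩, h2⟩
      exact ⟨h2, h2.dvd_factorial.2 h3, (Nat.factorial_pos D).ne'⟩
  rw [ratio_eq (Nat.factorial_pos D).ne', e, prod_inv_distrib]
  simp only [one_div] at h1
  have h2 : 0 < c / Real.log D := by positivity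
  calc _ ≤ (c / Real.log D)⁻¹ := inv_anti₀ h2 h1
    _ = _ := by field_simp

theorem J_coprime {y D : ℕ} {S : Finset ℕ} (hS : S ∈ J y D.factorial) {d : ℕ} (d0 : 0 < d)
    (hd : d ≤ D) : Nat.Coprime d (∏ p ∈ S, p) := by
  refine Nat.Coprime.prod_right fun p hp => ?_
  obtain ⟨h1, h2⟩ := (mem_J.1 hS).1 p hp
  exact ((Nat.Prime.coprime_iff_not_dvd h1).2 fun h =>
    h2 (h.trans (Nat.dvd_factorial d0 hd))).symm

theorem ls_primes : ∃ C : ℝ, 0 < C ∧ ∀ (η : ℕ → ℂ) (A : Finset ℕ) (X H y D : ℕ),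
    (∀ M, ‖η M‖ ≤ 1) → A ⊆ Ico X (X + H) → (∀ M ∈ A, M.Prime) → 1 ≤ y → y < X → 2 ≤ D →
    Real.log y * ∑ d ∈ Icc 1 D, FF η A d ≤ C * Real.log D *
      (A.card * (H + ((y * D : ℕ) : ℝ) ^ 2 * (1 + Real.log (((y * D : ℕ) : ℝ) ^ 2)))) := by
  obtain ⟨C, C0, hC⟩ := ratio_factorial
  refine ⟨2 * C, by positivity, fun η A X H y D hη hA hP y1 yX hD => ?_⟩
  have hpr : ∀ S ∈ J y D.factorial, ∀ p ∈ S, p.Prime := fun S hS p hp => ((mem_J.1 hS).1 p hp).1
  have hls := large_sieve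
    (((J y D.factorial).sigma fun S => red' (∏ p ∈ S, p)) ×ˢ ((Icc 1 D).sigma red'))
    (fun x : ((_ : Finset ℕ) × ℕ) × ((_ : ℕ) × ℕ) =>
      (x.1.2 : ℝ) / ((∏ p ∈ x.1.1, p : ℕ) : ℝ) + (x.2.2 : ℝ) / x.2.1)
    (W := (y * D) ^ 2) (by positivity) (X := X) (H := H) ?_ hη hA
  · rw [sum_product, sum_sigma] at hls
    simp only [sum_sigma] at hls
    have h1 : Js y D.factorial * ∑ d ∈ Icc 1 D, FF η A d ≤
        A.card * (H + (((y * D) ^ 2 : ℕ) : ℝ) * (1 + Real.log (((y * D) ^ 2 : ℕ) : ℝ))) := by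
      refine le_trans ?_ hls
      rw [Js, sum_mul]
      refine sum_le_sum fun S hS => ?_
      rw [sum_comm, mul_sum]
      refine sum_le_sum fun d _ => ?_
      rw [sum_comm, FF, mul_sum]
      refine sum_le_sum fun b _ => ?_
      rw [prod_hh]
      refine montgomery η ?_ (fun M hM => ?_) _
      · refine Finset.squarefree_prod_of_pairwise_isCoprime (fun p hp q hq hpq => ?_)
          fun p hp => (hpr S hS p hp).squarefree
        exact Nat.coprime_iff_isRelPrime.1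
          ((Nat.coprime_primes (hpr S hS p hp) (hpr S hS q hq)).2 hpq)
      · refine (Nat.coprime_of_lt_prime (prod_pos' (hpr S hS)).ne' ?_ (hP M hM)).symm
        have := (mem_Ico.1 (hA hM)).1
        have := (mem_J.1 hS).2
        omega
    have h2 := log_le_Js (z := y) (r := D.factorial) y1 (Nat.factorial_pos D)
    have h3 := hC D hD
    have F0 : 0 ≤ ∑ d ∈ Icc 1 D, FF η A d := sum_nonneg fun _ _ => FF_nonneg _ _ _
    have J0 : 0 ≤ Js y D.factorial := zero_le_one.trans (one_le_Js _ y1)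
    have l0 : 0 ≤ Real.log D := Real.log_natCast_nonneg D
    rw [Nat.cast_pow] at h1
    calc _ ≤ (2 * (C * Real.log D) * Js y D.factorial) * ∑ d ∈ Icc 1 D, FF η A d := by
          refine mul_le_mul_of_nonneg_right (h2.trans ?_) F0
          gcongr
      _ = 2 * C * Real.log D * (Js y D.factorial * ∑ d ∈ Icc 1 D, FF η A d) := by ring
      _ ≤ _ := mul_le_mul_of_nonneg_left h1 (by positivity)
  · rintro ⟨⟨S, a⟩, ⟨d, b⟩⟩ hi ⟨⟨S', a'⟩, ⟨d', b'⟩⟩ hj hne k
    obtain ⟨hi1, hi2⟩ := mem_product.1 hi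
    obtain ⟨hj1, hj2⟩ := mem_product.1 hj
    obtain ⟨hS, ha⟩ := mem_sigma.1 hi1
    obtain ⟨hS', ha'⟩ := mem_sigma.1 hj1
    obtain ⟨hd, hb⟩ := mem_sigma.1 hi2
    obtain ⟨hd', hb'⟩ := mem_sigma.1 hj2
    simp only at hS ha hS' ha' hd hb hd' hb' ⊢
    obtain ⟨d0, d1⟩ := mem_Icc.1 hd
    obtain ⟨d2, d3⟩ := mem_Icc.1 hd'
    have c1 := J_coprime hS d0 d1
    have c2 := J_coprime hS d2 d3
    have c3 := J_coprime hS' d0 d1
    have c4 := J_coprime hS' d2 d3
    have e1 := Nat.primeFactors_prod (hpr S hS)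
    have e2 := Nat.primeFactors_prod (hpr S' hS')
    have q0 := prod_pos' (hpr S hS)
    have q0' := prod_pos' (hpr S' hS')
    have q1 := (mem_J.1 hS).2
    have q1' := (mem_J.1 hS').2
    generalize (∏ p ∈ S, p) = q at *
    generalize (∏ p ∈ S', p) = q' at *
    have hu : ((a : ℤ) * q' - a' * q) * (d * d') + ((b : ℤ) * d' - b' * d) * (q * q') -
        k * (q * q' * (d * d')) ≠ 0 := by
      intro h0
      have hc : IsCoprime ((d : ℤ) * d') ((q : ℤ) * q') := by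
        have : Nat.Coprime (d * d') (q * q') :=
          Nat.Coprime.mul_left (c1.mul_right c3) (c2.mul_right c4)
        exact_mod_cast Nat.isCoprime_iff_coprime.2 this
      obtain ⟨k', hk'⟩ : (d : ℤ) * d' ∣ (b : ℤ) * d' - b' * d :=
        hc.dvd_of_dvd_mul_right ⟨k * (q * q') - (a * q' - a' * q), by linear_combination h0⟩
      obtain ⟨rfl, rfl⟩ := frac_eq hb hb' (k := k') (by linear_combination hk')
      have d4 : (d : ℤ) * d ≠ 0 := by positivity
      obtain ⟨rfl, rfl⟩ := frac_eq ha ha' (k := k)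
        (mul_right_cancel₀ d4 (by linear_combination h0))
      apply hne
      rw [← e1, ← e2]
    have := sep_of_ne hu (m := q * q' * (d * d')) (W := (y * D) ^ 2) (by positivity) (by
      calc q * q' * (d * d') ≤ y * y * (D * D) :=
            Nat.mul_le_mul (Nat.mul_le_mul q1 q1') (Nat.mul_le_mul d1 d3)
        _ = _ := by ring)
    have d4 : (d : ℝ) ≠ 0 := by positivity
    have d5 : (d' : ℝ) ≠ 0 := by positivity
    have d6 : (q : ℝ) ≠ 0 := by positivity
    have d7 : (q' : ℝ) ≠ 0 := by positivity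
    have e : (a : ℝ) / q + (b : ℝ) / d - ((a' : ℝ) / q' + (b' : ℝ) / d') - k =
        ((((a : ℤ) * q' - a' * q) * (d * d') + ((b : ℤ) * d' - b' * d) * (q * q') -
        k * (q * q' * (d * d')) : ℤ) : ℝ) / ((q * q' * (d * d') : ℕ) : ℝ) := by
      push_cast
      field_simp
      ring
    rwa [e]

end Pool.Agent.P.MP_99daa8_nt.SI
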