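import Pool.Agent.P.MP_99daa8_nt.SI.Main
import Pool.Agent.P.MP_99daa8_nt.SI.PrimeLS

/-!
Sets that are sparse in short intervals.
-/

namespace Pool.Agent.P.MP_99daa8_nt.SI

open scoped MatrixGroups
open Finset Filter Topology

open Classical in
/-- The number of elements of `E` in `[X, X + H)`. -/
noncomputable def cnt (E : Set ℕ) (X H : ℕ) : ℝ := ((Ico X (X + H)).filter fun M => M ∈ E).card

/-- Sparse in short intervals, with weight `(log X) ^ (-j)`. -/
def Rare (j : ℕ) (E : Set ℕ) : Prop :=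
  ∀ ε : ℝ, 0 < ε → ∀ᶠ X : ℕ in atTop, ∀ H : ℕ, √X * Real.log X ^ (2 + j) ≤ H → H ≤ X →
    cnt E X H ≤ ε * (H / Real.log X ^ j)

theorem cnt_mono {E E' : Set ℕ} {X H : ℕ} (h : ∀ M ∈ Ico X (X + H), M ∈ E → M ∈ E') :
    cnt E X H ≤ cnt E' X H := by
  classical
  unfold cnt
  exact_mod_cast card_le_card fun M hM => by
    simp only [mem_filter] at hM ⊢
    exact ⟨hM.1, h M hM.1 hM.2⟩

theorem cnt_spec (E : Set ℕ) (X H : ℕ) : ∃ A : Finset ℕ, cnt E X H = A.card ∧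
    ∀ M, M ∈ A ↔ M ∈ Ico X (X + H) ∧ M ∈ E := by
  classical
  exact ⟨_, rfl, fun M => mem_filter⟩

theorem cnt_union (E E' : Set ℕ) (X H : ℕ) : cnt (E ∪ E') X H ≤ cnt E X H + cnt E' X H := by
  classical
  unfold cnt
  exact_mod_cast le_trans (card_le_card fun M hM => by
    simp only [mem_filter, mem_union, Set.mem_union] at hM ⊢
    tauto) (card_union_le _ _)

theorem Rare.mono {j : ℕ} {E E' : Set ℕ} (h : Rare j E') (hE : E ⊆ E') : Rare j E :=
  fun ε hε => (h ε hε).mono fun _ hX H h1 h2 => (cnt_mono fun _ _ hM => hE hM).trans (hX H h1 h2)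

theorem Rare.union {j : ℕ} {E E' : Set ℕ} (h : Rare j E) (h' : Rare j E') : Rare j (E ∪ E') := by
  intro ε hε
  filter_upwards [h (ε / 2) (by positivity), h' (ε / 2) (by positivity)] with X a1 a2 H h1 h2
  linarith [cnt_union E E' X H, a1 H h1 h2, a2 H h1 h2]

theorem rare_empty (j : ℕ) : Rare j ∅ := fun ε hε => Eventually.of_forall fun X H _ _ => by
  have : 0 ≤ Real.log X := Real.log_natCast_nonneg X
  simp only [cnt, Set.mem_empty_iff_false, filter_false, card_empty, Nat.cast_zero]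
  positivity

theorem rare_biUnion {j : ℕ} {ι : Type*} (T : Finset ι) {E : ι → Set ℕ}
    (h : ∀ i ∈ T, Rare j (E i)) : Rare j {M | ∃ i ∈ T, M ∈ E i} := by
  classical
  induction T using Finset.induction_on with
  | empty => exact (rare_empty j).mono fun M hM => by simp at hM
  | insert a T _ ih =>
    refine ((h a (mem_insert_self _ _)).union (ih fun i hi => h i (mem_insert_of_mem hi))).mono ?_
    rintro M ⟨i, hi, hM⟩
    rcases mem_insert.1 hi with rfl | hi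
    · exact Or.inl hM
    · exact Or.inr ⟨i, hi, hM⟩

theorem rare_diag {j : ℕ} {B : ℕ → Set ℕ} (hm : Monotone B) (h : ∀ k, Rare j (B k)) :
    ∃ E, Rare j E ∧ ∀ k, ∀ᶠ M in atTop, M ∈ B k → M ∈ E := by
  classical
  choose x hx using fun k => eventually_atTop.1 (h k (1 / ((k : ℝ) + 1)) (by positivity))
  set f : ℕ → ℕ := fun M => Nat.findGreatest (fun k => 2 * x k ≤ M) M with hf
  have f1 : ∀ k, ∀ᶠ M in atTop, k ≤ f M ∧ 2 * x (f M) ≤ M := fun k => by
    filter_upwards [eventually_ge_atTop k, eventually_ge_atTop (2 * x k)] with M a1 a2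
    exact ⟨Nat.le_findGreatest a1 a2, Nat.findGreatest_spec (P := fun k => 2 * x k ≤ M) a1 a2⟩
  have f2 : Monotone f := fun a b hab =>
    Nat.findGreatest_mono (fun k hk => le_trans hk hab) hab
  refine ⟨{M | M ∈ B (f M)}, fun ε hε => ?_, fun k => (f1 k).mono fun M hM h1 => hm hM.1 h1⟩
  obtain ⟨k, hk⟩ := exists_nat_one_div_lt hε
  have h2 : Tendsto (fun X : ℕ => 2 * X) atTop atTop := tendsto_id.const_mul_atTop' two_pos
  filter_upwards [h2.eventually (f1 k)] with X ⟨a1, a2⟩ H h1 h2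
  refine (cnt_mono (E := {M | M ∈ B (f M)}) (E' := B (f (2 * X)))
    fun M hM h3 => hm (f2 (a := M) ?_) h3).trans ((hx _ X (by omega) H h1 h2).trans ?_)
  · have := (mem_Ico.1 hM).2
    omega
  · have l0 : 0 ≤ Real.log X := Real.log_natCast_nonneg X
    have : (k : ℝ) ≤ f (2 * X) := by exact_mod_cast a1
    refine mul_le_mul_of_nonneg_right (le_trans ?_ hk.le) (by positivity)
    gcongr

theorem cnt_cover (E : Set ℕ) (X H : ℕ) {h : ℕ} (h0 : 0 < h) :
    cnt E X H ≤ ∑ t ∈ range (H / h + 1), cnt E (X + t * h) h := by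
  classical
  unfold cnt
  have : (Ico X (X + H)).filter (fun M => M ∈ E) ⊆ (range (H / h + 1)).biUnion fun t =>
      (Ico (X + t * h) (X + t * h + h)).filter fun M => M ∈ E := by
    intro M hM
    obtain ⟨a1, a2⟩ := mem_filter.1 hM
    rw [mem_Ico] at a1
    refine mem_biUnion.2 ⟨(M - X) / h, mem_range.2 (Nat.lt_succ_of_le
      (Nat.div_le_div_right (by omega))), mem_filter.2 ⟨mem_Ico.2 ?_, a2⟩⟩
    have b1 := Nat.div_add_mod' (M - X) h
    have b2 := Nat.mod_lt (M - X) h0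
    omega
  exact_mod_cast (card_le_card this).trans card_biUnion_le

theorem rare_of_basic {j : ℕ} (hj : j ≤ 1) {E : Set ℕ}
    (h : ∀ ε : ℝ, 0 < ε → ∀ᶠ X : ℕ in atTop, ∀ H : ℕ, √X * Real.log X ^ (2 + j) ≤ H →
      (H : ℝ) ≤ 4 * √X * Real.log X ^ 3 → cnt E X H ≤ ε * (H / Real.log X ^ j)) : Rare j E := by
  intro ε hε
  obtain ⟨X₀, hX₀⟩ := eventually_atTop.1 (h (ε / 4) (by positivity))
  filter_upwards [eventually_ge_atTop X₀, ev_r 10] with X hX ⟨r, r0, hx, hs, hL, hr⟩ H h1 h2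
  set L := Real.log X with hLd
  have X0 : (0 : ℝ) < X := by
    rw [← hx]
    positivity
  have L1 : 1 ≤ L := by linarith
  have r1 : 1 ≤ r := by
    have : 1 ≤ (L + 1) ^ 8 := one_le_pow₀ (by linarith)
    linarith
  have a1 : 1 ≤ √X * L ^ (2 + j) := by
    rw [hs]
    exact one_le_mul_of_one_le_of_one_le (one_le_pow₀ r1) (one_le_pow₀ L1)
  have c1 := Nat.le_ceil (2 * (√X * L ^ (2 + j)))
  have c2 := Nat.ceil_lt_add_one (show 0 ≤ 2 * (√X * L ^ (2 + j)) by positivity)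
  set h₀ := ⌈2 * (√X * L ^ (2 + j))⌉₊ with hh₀
  have h00 : 0 < h₀ := Nat.ceil_pos.2 (by linarith)
  have key : ∀ t ∈ range (H / h₀ + 1), cnt E (X + t * h₀) h₀ ≤ ε / 4 * (h₀ / L ^ j) := by
    intro t ht
    have b1 : t * h₀ ≤ H := (Nat.le_div_iff_mul_le h00).1 (Nat.lt_succ_iff.1 (mem_range.1 ht))
    have b2 : (X : ℝ) ≤ ((X + t * h₀ : ℕ) : ℝ) := by exact_mod_cast Nat.le_add_right _ _
    have b3 : ((X + t * h₀ : ℕ) : ℝ) ≤ 2 * X := by exact_mod_cast (by omega : X + t * h₀ ≤ 2 * X)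
    have b4 : L ≤ Real.log ((X + t * h₀ : ℕ) : ℝ) := Real.log_le_log X0 b2
    have b5 : Real.log ((X + t * h₀ : ℕ) : ℝ) ≤ 11 / 10 * L := by
      have d1 := Real.log_le_log (by linarith) b3
      rw [Real.log_mul two_ne_zero X0.ne'] at d1
      have d2 := Real.log_le_sub_one_of_pos (show (0 : ℝ) < 2 by norm_num)
      linarith
    have b6 : √X ≤ √((X + t * h₀ : ℕ) : ℝ) := Real.sqrt_le_sqrt b2
    have b7 : √((X + t * h₀ : ℕ) : ℝ) ≤ 3 / 2 * √X := by
      refine Real.sqrt_le_iff.2 ⟨by positivity, ?_⟩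
      rw [mul_pow, Real.sq_sqrt X0.le]
      linarith
    refine (hX₀ _ (by omega) h₀ ?_ ?_).trans ?_
    · refine le_trans ?_ c1
      have d1 : (11 / 10 : ℝ) ^ (2 + j) ≤ (11 / 10) ^ 3 :=
        pow_le_pow_right₀ (by norm_num) (by omega)
      calc _ ≤ 3 / 2 * √X * (11 / 10 * L) ^ (2 + j) := by
            gcongr
        _ = 3 / 2 * (11 / 10) ^ (2 + j) * (√X * L ^ (2 + j)) := by
            rw [mul_pow]
            ring
        _ ≤ _ := by
            refine mul_le_mul_of_nonneg_right ?_ (by positivity)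
            linarith
    · have d1 : L ^ (2 + j) ≤ L ^ 3 := pow_le_pow_right₀ L1 (by omega)
      calc (h₀ : ℝ) ≤ 4 * (√X * L ^ (2 + j)) := by linarith
        _ ≤ 4 * (√((X + t * h₀ : ℕ) : ℝ) * Real.log ((X + t * h₀ : ℕ) : ℝ) ^ 3) := by
            gcongr
            exact d1.trans (by gcongr)
        _ = _ := by ring
    · gcongr
  refine (cnt_cover E X H h00).trans ((sum_le_card_nsmul _ _ _ key).trans ?_)
  rw [card_range, nsmul_eq_mul]
  have d1 : ((H / h₀ * h₀ : ℕ) : ℝ) ≤ H := by exact_mod_cast Nat.div_mul_le_self _ _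
  have d2 : ((H / h₀ + 1 : ℕ) : ℝ) * h₀ ≤ 4 * H := by
    push_cast at d1 ⊢
    linarith
  calc _ = ε / 4 * ((((H / h₀ + 1 : ℕ) : ℝ) * h₀) / L ^ j) := by ring
    _ ≤ ε / 4 * (4 * H / L ^ j) := by gcongr
    _ = _ := by ring

variable {s : ℤ × ℤ → ℂ} {N n : ℕ} {θ : SL(2, ℤ) → ℂ}

theorem exists_coef (S : ℕ → ℂ) {A : Finset ℕ} {X H : ℕ} (hA : A ⊆ Ico X (X + H)) :
    ∃ η, Coef η A X H ∧ ‖∑ M ∈ A, η M * S M‖ = ∑ M ∈ A, ‖S M‖ := by
  refine ⟨fun M => if M ∈ A then (starRingEnd ℂ) (S M) / ‖S M‖ else 0, ⟨fun M => ?_,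
    fun M hM => if_neg hM, hA⟩, ?_⟩
  · split_ifs
    · rw [norm_div, Complex.norm_conj, Complex.norm_real, norm_norm]
      exact div_self_le_one _
    · simp
  · have : ∀ M ∈ A, (if M ∈ A then (starRingEnd ℂ) (S M) / ‖S M‖ else 0) * S M =
        ((‖S M‖ : ℝ) : ℂ) := by
      intro M hM
      rw [if_pos hM, div_mul_eq_mul_div, Complex.conj_mul']
      rcases eq_or_ne (S M) 0 with h | h
      · simp [h]
      · have : ((‖S M‖ : ℝ) : ℂ) ≠ 0 := by exact_mod_cast norm_ne_zero_iff.2 h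
        field_simp
    rw [sum_congr rfl this, ← Complex.ofReal_sum, Complex.norm_real,
      Real.norm_of_nonneg (sum_nonneg fun _ _ => norm_nonneg _)]

theorem log_le_self {W x : ℝ} (W1 : 1 ≤ W) (h : W ^ 2 ≤ x) : x + W * (1 + Real.log W) ≤ 2 * x := by
  have := Real.log_le_sub_one_of_pos (show 0 < W by linarith)
  nlinarith

/-- The common part of the two applications of the bilinear estimate. -/
theorem rare_bad (Hs : Sym s N n θ) {κ : ℝ} (κ0 : 0 < κ) {j : ℕ} (hj : j ≤ 1) (F : Set ℕ)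
    {C : ℝ} (C0 : 0 < C)
    (hF : ∀ᶠ X : ℕ in atTop, ∀ (H : ℕ) (η : ℕ → ℂ) (A : Finset ℕ), Coef η A X H →
      (∀ M ∈ A, M ∈ F) → √X ≤ H → ∀ z : ℕ, 2 ≤ z → (z : ℝ) ≤ Real.log X + 1 →
        ∑ d ∈ Icc 1 (z ^ 4), FF η A d ≤ C * (A.card * (H / Real.log X ^ j)) * z) :
    Rare j {M | M ∈ F ∧ κ * M < ‖segSum s Lm 1 1 M‖} := by
  classical
  refine rare_of_basic hj fun ε hε => ?_
  filter_upwards [main_est Hs κ0 (Λ := (C + 1) / ε) (by positivity), hF, ev_r 1] with X h1 h2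
    ⟨r, r0, hx, hs, hL, hr⟩ H h3 h4
  by_contra hcon
  rw [not_le] at hcon
  obtain ⟨A, hA, hA'⟩ := cnt_spec {M | M ∈ F ∧ κ * M < ‖segSum s Lm 1 1 M‖} X H
  rw [hA] at hcon
  obtain ⟨η, hη, e⟩ := exists_coef (fun M => segSum s Lm 1 1 M) (A := A)
    fun M hM => ((hA' M).1 hM).1
  set L := Real.log X with hLd
  have L0 : 0 < L := by linarith
  have a0 : 0 ≤ (H : ℝ) / L ^ j := by positivity
  have a1 : (H : ℝ) / L ^ j ≤ A.card / ε := by
    rw [le_div_iff₀ hε]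
    linarith
  have a2 : √X * L ^ 2 ≤ H / L ^ j := by
    rw [le_div_iff₀ (by positivity), mul_assoc, ← pow_add]
    exact h3
  have a3 : √X ≤ H :=
    le_trans (le_mul_of_one_le_right (Real.sqrt_nonneg _) (one_le_pow₀ hL)) h3
  have m0 : (0 : ℝ) < A.card := lt_of_le_of_lt (mul_nonneg hε.le a0) hcon
  have h5 := h1 H η A hη h4 (by
      refine (a2.trans a1).trans ?_
      rw [div_mul_eq_mul_div]
      gcongr
      nlinarith)
    (fun z z1 z2 => by
      refine (h2 H η A hη (fun M hM => ((hA' M).1 hM).2.1) a3 z z1 z2).trans ?_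
      calc _ ≤ (C + 1) * (A.card * (A.card / ε)) * z := by
            gcongr
            linarith
        _ = _ := by ring)
  rw [e] at h5
  have h6 : ∑ _M ∈ A, κ * X < ∑ M ∈ A, ‖segSum s Lm 1 1 M‖ := by
    refine sum_lt_sum_of_nonempty (card_pos.1 (by exact_mod_cast m0)) fun M hM => ?_
    obtain ⟨b1, -, b2⟩ := (hA' M).1 hM
    have : (X : ℝ) ≤ M := by exact_mod_cast (mem_Ico.1 b1).1
    exact lt_of_le_of_lt (by gcongr) b2
  rw [sum_const, nsmul_eq_mul] at h6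
  linarith

theorem rare_int (Hs : Sym s N n θ) {κ : ℝ} (κ0 : 0 < κ) :
    Rare 0 {M | κ * M < ‖segSum s Lm 1 1 M‖} := by
  refine (rare_bad Hs κ0 (Nat.zero_le 1) Set.univ one_pos ?_).mono fun M hM => ⟨trivial, hM⟩
  filter_upwards [ev_r 1] with X ⟨r, r0, hx, hs, hL, hr⟩ H η A C _ hH z z1 z2
  have z3 : (2 : ℝ) ≤ z := by exact_mod_cast z1
  refine (ls_farey C.bdd C.sub (by positivity)).trans ?_
  have r1 : 1 ≤ r := by
    have : 1 ≤ (Real.log X + 1) ^ 8 := one_le_pow₀ (by linarith)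
    linarith
  have a1 : (((z ^ 4 : ℕ) : ℝ) ^ 2) ≤ r := by
    push_cast
    calc _ = (z : ℝ) ^ 8 := by ring
      _ ≤ (Real.log X + 1) ^ 8 := by gcongr
      _ ≤ r := by linarith
  have a2 := log_le_self (W := ((z ^ 4 : ℕ) : ℝ) ^ 2) (x := H)
    (one_le_pow₀ (by exact_mod_cast Nat.one_le_pow _ _ (by omega))) (by
      refine le_trans ?_ hH
      rw [hs]
      exact (pow_le_pow_left₀ (by positivity) a1 2).trans (pow_le_pow_right₀ r1 (by norm_num)))
  calc _ ≤ (A.card : ℝ) * (2 * H) := by gcongr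
    _ = 1 * (A.card * (H / Real.log X ^ 0)) * 2 := by ring
    _ ≤ _ := by gcongr

theorem rare_prime (Hs : Sym s N n θ) {κ : ℝ} (κ0 : 0 < κ) :
    Rare 1 {M | M.Prime ∧ κ * M < ‖segSum s Lm 1 1 M‖} := by
  obtain ⟨C, C0, hC⟩ := ls_primes
  refine rare_bad Hs κ0 le_rfl {M | M.Prime} (C := 256 * C) (by positivity) ?_
  filter_upwards [ev_r 32] with X ⟨r, r0, hx, hs, hL, hr⟩ H η A hc hp hH z z1 z2
  set L := Real.log X with hLd
  have z3 : (2 : ℝ) ≤ z := by exact_mod_cast z1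
  have r1 : 32 ≤ r := by
    have : 1 ≤ (L + 1) ^ 8 := one_le_pow₀ (by linarith)
    linarith
  have y1 := Nat.floor_le r0.le
  have y2 := Nat.lt_floor_add_one r
  have y3 : (1 : ℝ) ≤ ⌊r⌋₊ := by linarith
  have y4 : (⌊r⌋₊ : ℝ) < X := by
    rw [← hx]
    exact lt_of_le_of_lt y1 (lt_self_pow₀ (by linarith) (by norm_num))
  have h1 := hC η A X H ⌊r⌋₊ (z ^ 4) hc.bdd hc.sub hp (by exact_mod_cast y3) (by exact_mod_cast y4)
    (z1.trans (Nat.le_self_pow (by norm_num) z))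
  have a1 : ((⌊r⌋₊ * z ^ 4 : ℕ) : ℝ) ^ 2 ≤ r ^ 3 := by
    push_cast
    calc _ = (⌊r⌋₊ : ℝ) ^ 2 * (z : ℝ) ^ 8 := by ring
      _ ≤ r ^ 2 * (L + 1) ^ 8 := by gcongr
      _ ≤ r ^ 2 * r := by
          gcongr
          have : 0 ≤ (L + 1) ^ 8 := by positivity
          linarith
      _ = _ := by ring
  have a2 := log_le_self (W := ((⌊r⌋₊ * z ^ 4 : ℕ) : ℝ) ^ 2) (x := H)
    (one_le_pow₀ (by
      push_cast
      exact one_le_mul_of_one_le_of_one_le y3 (one_le_pow₀ (by linarith)))) (by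
      refine le_trans ?_ hH
      rw [hs]
      refine (pow_le_pow_left₀ (by positivity) a1 2).trans ?_
      rw [← pow_mul]
      exact pow_le_pow_right₀ (by linarith) (by norm_num))
  have a3 : L / 32 ≤ Real.log ⌊r⌋₊ := by
    have b1 : L = 16 * Real.log r := by
      rw [hLd, ← hx, Real.log_pow]
      norm_num
    have b2 := Real.log_le_log r0 (show r ≤ 2 * ⌊r⌋₊ by linarith)
    rw [Real.log_mul two_ne_zero (by linarith)] at b2
    have b3 := Real.log_le_sub_one_of_pos (show (0 : ℝ) < 2 by norm_num)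
    linarith
  have a4 : Real.log ((z ^ 4 : ℕ) : ℝ) ≤ 4 * z := by
    rw [Nat.cast_pow, Real.log_pow]
    have := Real.log_le_sub_one_of_pos (show (0 : ℝ) < z by linarith)
    push_cast
    linarith
  have F0 : 0 ≤ ∑ d ∈ Icc 1 (z ^ 4), FF η A d := sum_nonneg fun _ _ => FF_nonneg _ _ _
  have L0 : 0 < L := by linarith
  have a5 : L / 32 * ∑ d ∈ Icc 1 (z ^ 4), FF η A d ≤ C * (4 * z) * (A.card * (2 * H)) := by
    refine (mul_le_mul_of_nonneg_right a3 F0).trans (h1.trans ?_)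
    have l0 : 0 ≤ Real.log (((⌊r⌋₊ * z ^ 4 : ℕ) : ℝ) ^ 2) := by
      rw [← Nat.cast_pow]
      exact Real.log_natCast_nonneg _
    gcongr
  refine le_of_mul_le_mul_left (a5.trans (le_of_eq ?_)) (show 0 < L / 32 by positivity)
  field_simp
  ring

end Pool.Agent.P.MP_99daa8_nt.SI
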